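import Mathlib

/-!
# Definitions: Turing jump, low sets, computable ordered fields

`TuringReducible` is Mathlib's Turing reducibility.

The jump is defined with c.e. operators: `e ∈ jump X` iff the `e`-th partial recursive function
halts on the pair consisting of (a code of) some initial segment of `X` and `e`.  In the file
`Use.lean` it is proved that `jump X` is the domain of a partial function recursive in `X`
(`jump_eq_dom`) and that the domain of every partial function recursive in `X` is many-one
reducible to `jump X` (`dom_le_jump`); so this is the Turing jump up to many-one equivalence.
-/

set_option autoImplicit false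

namespace Pool.Agent.Lib.MP_1308e3_lc

open Encodable Denumerable Nat.Partrec

open Classical in
/-- The characteristic function of a set of natural numbers. -/
noncomputable def chi (X : Set ℕ) (n : ℕ) : ℕ := if n ∈ X then 1 else 0

/-- The characteristic function of a set of natural numbers, as an oracle. -/
noncomputable def charFn (X : Set ℕ) : ℕ →. ℕ := fun n => Part.some (chi X n)

/-- The first `k` values of the characteristic function of a set of natural numbers. -/
noncomputable def initSeg (X : Set ℕ) (k : ℕ) : List ℕ := (List.range k).map (chi X)

/-- The Turing jump: `e ∈ jump X` iff the `e`-th partial recursive function halts on input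
`⟨code of some initial segment of X, e⟩`. -/
def jump (X : Set ℕ) : Set ℕ :=
  {e | ∃ k, ((ofNat Code e).eval (Nat.pair (encode (initSeg X k)) e)).Dom}

/-- A set is low if its jump is Turing reducible to the jump of the empty set. -/
def IsLow (X : Set ℕ) : Prop := TuringReducible (charFn (jump X)) (charFn (jump ∅))

/-- A computable presentation of a field `F`: a bijection `ν` of `F` with a computable set of
natural numbers which transports addition and multiplication to computable functions (defined on
the whole of `ℕ`, which is no restriction since the domain is computable).  In other words, after
identifying `x : F` with the number `ν x`, `F` is a computable field. -/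
structure IsComputablePresentation {F : Type} [Field F] (ν : F → ℕ) : Prop where
  /-- Elements are represented by distinct numbers. -/
  injective : Function.Injective ν
  /-- The domain is computable. -/
  domain : ComputablePred fun n => n ∈ Set.range ν
  /-- Addition is computable. -/
  add : ∃ f : ℕ → ℕ → ℕ, Computable₂ f ∧ ∀ x y, f (ν x) (ν y) = ν (x + y)
  /-- Multiplication is computable. -/
  mul : ∃ f : ℕ → ℕ → ℕ, Computable₂ f ∧ ∀ x y, f (ν x) (ν y) = ν (x * y)

/-- The set of codes `⟨a, b⟩` of pairs with `a < b` of elements of the presented field. -/
def orderSet {F : Type} [LinearOrder F] (ν : F → ℕ) : Set ℕ :=
  {n | ∃ x y : F, x < y ∧ n = Nat.pair (ν x) (ν y)}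

end Pool.Agent.Lib.MP_1308e3_lc
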