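import Pool.Agent.Lib.MP_1308e3_lc.Oracle

/-!
# A transcendental real coding a set of natural numbers
-/

set_option autoImplicit false

namespace Pool.Agent.Lib.MP_1308e3_lc

open Filter Topology

/-- The exponents. -/
def E (k : ℕ) : ℕ := (k + 1).factorial

theorem E_succ (k : ℕ) : E (k + 1) = (k + 2) * E k := by
  simp [E, Nat.factorial_succ]

theorem E_pos (k : ℕ) : 1 ≤ E k := Nat.factorial_pos _

theorem E_lt_succ (k : ℕ) : E k + 1 ≤ E (k + 1) := by
  rw [E_succ]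
  have := E_pos k
  nlinarith

theorem le_E (k : ℕ) : k ≤ E k := by
  induction k with
  | zero => simp
  | succ k ih =>
    have := E_lt_succ k
    omega

/-- The numerators of the approximations. -/
def seqM (χ : ℕ → ℕ) : ℕ → ℕ
  | 0 => 0
  | k + 1 => (seqM χ k + χ k + 1) * 4 ^ (E (k + 1) - E k)

section

variable {χ : ℕ → ℕ} (hχ : ∀ n, χ n ≤ 1)

/-- The lower approximations. -/
noncomputable def lowA (χ : ℕ → ℕ) (k : ℕ) : ℝ := (seqM χ k : ℝ) / (4 ^ E k : ℕ)

/-- The upper approximations. -/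
noncomputable def upB (χ : ℕ → ℕ) (k : ℕ) : ℝ := ((seqM χ k + 3 : ℕ) : ℝ) / (4 ^ E k : ℕ)

theorem upB_eq (χ : ℕ → ℕ) (k : ℕ) : upB χ k = lowA χ k + 3 / 4 ^ E k := by
  unfold upB lowA
  push_cast
  ring

theorem lowA_succ (χ : ℕ → ℕ) (k : ℕ) : lowA χ (k + 1) = lowA χ k + (χ k + 1) / 4 ^ E k := by
  unfold lowA
  have h1 : E (k + 1) = E (k + 1) - E k + E k := by
    have := E_lt_succ k
    omega
  have h2 : (4 : ℝ) ^ E (k + 1) = 4 ^ (E (k + 1) - E k) * 4 ^ E k := by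
    rw [← pow_add, ← h1]
  rw [seqM]
  push_cast
  rw [h2]
  field_simp
  ring

theorem three_div_succ (k : ℕ) : (3 : ℝ) / 4 ^ E (k + 1) ≤ (3 / 4) / 4 ^ E k := by
  have h1 : (4 : ℝ) ^ (E k + 1) ≤ 4 ^ E (k + 1) :=
    pow_le_pow_right₀ (by norm_num) (E_lt_succ k)
  have h2 : (3 : ℝ) / 4 ^ E (k + 1) ≤ 3 / 4 ^ (E k + 1) := by
    apply div_le_div_of_nonneg_left (by norm_num) (by positivity) h1
  refine h2.trans (le_of_eq ?_)
  rw [pow_succ]
  field_simp

include hχ

theorem chi_cast_le (k : ℕ) : (χ k : ℝ) ≤ 1 := by exact_mod_cast hχ k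

theorem upB_succ_le' (k : ℕ) : upB χ (k + 1) ≤ lowA χ k + (χ k + 1 + 3 / 4) / 4 ^ E k := by
  rw [upB_eq, lowA_succ]
  have := three_div_succ k
  have h : ((χ k : ℝ) + 1 + 3 / 4) / 4 ^ E k = (χ k + 1) / 4 ^ E k + (3 / 4) / 4 ^ E k := by ring
  rw [h]
  linarith

theorem upB_succ_le (k : ℕ) : upB χ (k + 1) ≤ upB χ k := by
  refine (upB_succ_le' hχ k).trans ?_
  rw [upB_eq]
  have h1 := chi_cast_le hχ k
  have h2 : ((χ k : ℝ) + 1 + 3 / 4) / 4 ^ E k ≤ 3 / 4 ^ E k := by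
    apply div_le_div_of_nonneg_right _ (by positivity)
    linarith
  linarith

omit hχ in
theorem lowA_lt_succ (k : ℕ) : lowA χ k < lowA χ (k + 1) := by
  rw [lowA_succ]
  have : (0 : ℝ) < (χ k + 1) / 4 ^ E k := by positivity
  linarith

omit hχ in
theorem lowA_strictMono : StrictMono (lowA χ) := strictMono_nat_of_lt_succ lowA_lt_succ

theorem upB_antitone : Antitone (upB χ) := antitone_nat_of_succ_le (upB_succ_le hχ)

omit hχ in
theorem lowA_lt_upB (k : ℕ) : lowA χ k < upB χ k := by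
  rw [upB_eq]
  have : (0 : ℝ) < 3 / 4 ^ E k := by positivity
  linarith

theorem lowA_le_upB (j k : ℕ) : lowA χ j ≤ upB χ k := by
  rcases le_total j k with h | h
  · exact (lowA_strictMono.monotone h).trans (lowA_lt_upB k).le
  · exact (lowA_lt_upB j).le.trans (upB_antitone hχ h)

omit hχ in
/-- The real coding `χ`. -/
noncomputable def rr (χ : ℕ → ℕ) : ℝ := ⨆ k, lowA χ k

theorem bddAbove_lowA : BddAbove (Set.range (lowA χ)) := by
  refine ⟨upB χ 0, ?_⟩
  rintro _ ⟨j, rfl⟩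
  exact lowA_le_upB hχ j 0

theorem lowA_lt_rr (k : ℕ) : lowA χ k < rr χ :=
  (lowA_lt_succ k).trans_le (le_ciSup (bddAbove_lowA hχ) (k + 1))

theorem rr_le_upB (k : ℕ) : rr χ ≤ upB χ k := ciSup_le fun j => lowA_le_upB hχ j k

theorem rr_pos : 0 < rr χ := by
  have h := lowA_lt_rr hχ 0
  simpa [lowA, seqM] using h

omit hχ in
theorem tendsto_inv : Tendsto (fun k => (3 : ℝ) / 4 ^ E k) atTop (𝓝 0) := by
  have h1 : Tendsto (fun k : ℕ => (3 : ℝ) * (1 / 4) ^ k) atTop (𝓝 (3 * 0)) :=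
    (tendsto_pow_atTop_nhds_zero_of_lt_one (by norm_num) (by norm_num)).const_mul 3
  rw [mul_zero] at h1
  refine squeeze_zero (fun k => by positivity) (fun k => ?_) h1
  rw [one_div, inv_pow, ← div_eq_mul_inv]
  apply div_le_div_of_nonneg_left (by norm_num) (by positivity)
  exact pow_le_pow_right₀ (by norm_num) (le_E k)

theorem tendsto_lowA : Tendsto (lowA χ) atTop (𝓝 (rr χ)) :=
  tendsto_atTop_ciSup lowA_strictMono.monotone (bddAbove_lowA hχ)

theorem tendsto_upB : Tendsto (upB χ) atTop (𝓝 (rr χ)) := by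
  have h := (tendsto_lowA hχ).add tendsto_inv
  rw [add_zero] at h
  refine h.congr fun k => ?_
  rw [upB_eq]

/-- Decoding the set from the cut of the real. -/
theorem decode_iff (k : ℕ) :
    χ k = 1 ↔ ((seqM χ k + 2 : ℕ) : ℝ) / (4 ^ E k : ℕ) < rr χ := by
  have h0 : ((seqM χ k + 2 : ℕ) : ℝ) / (4 ^ E k : ℕ) = lowA χ k + 2 / 4 ^ E k := by
    unfold lowA
    push_cast
    ring
  rw [h0]
  constructor
  · intro h
    have h1 := lowA_lt_rr hχ (k + 1)
    rw [lowA_succ, h] at h1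
    norm_num at h1
    exact h1
  · intro h
    by_contra hne
    have h2 : χ k = 0 := by
      have := hχ k
      omega
    have h1 := (rr_le_upB hχ (k + 1)).trans (upB_succ_le' hχ k)
    rw [h2] at h1
    have h3 : ((0 : ℕ) + 1 + 3 / 4 : ℝ) / 4 ^ E k < 2 / 4 ^ E k := by
      apply div_lt_div_of_pos_right _ (by positivity)
      norm_num
    linarith

theorem rr_liouville : Liouville (rr χ) := by
  intro n
  -- approximation with denominator `4 ^ E n`
  have hb : (1 : ℤ) < (4 : ℤ) ^ E n := by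
    have h := E_pos n
    exact one_lt_pow₀ (by norm_num) (by omega)
  refine ⟨(seqM χ n + χ n + 1 : ℕ), 4 ^ E n, hb, ?_, ?_⟩
  · have h1 : (((seqM χ n + χ n + 1 : ℕ) : ℤ) : ℝ) / ((4 ^ E n : ℤ) : ℝ) = lowA χ (n + 1) := by
      rw [lowA_succ, lowA]
      push_cast
      ring
    rw [h1]
    exact (lowA_lt_rr hχ (n + 1)).ne'
  · have h1 : (((seqM χ n + χ n + 1 : ℕ) : ℤ) : ℝ) / ((4 ^ E n : ℤ) : ℝ) = lowA χ (n + 1) := by
      rw [lowA_succ, lowA]
      push_cast
      ring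
    rw [h1, abs_of_pos (sub_pos.2 (lowA_lt_rr hχ (n + 1)))]
    have h2 : rr χ - lowA χ (n + 1) ≤ 3 / 4 ^ E (n + 1) := by
      have := rr_le_upB hχ (n + 1)
      rw [upB_eq] at this
      linarith
    refine h2.trans_lt ?_
    have h3 : E (n + 1) = n * E n + 2 * E n := by
      rw [E_succ]
      ring
    have h4 : (((4 ^ E n : ℤ) : ℝ)) ^ n = 4 ^ (n * E n) := by
      push_cast
      rw [← pow_mul, mul_comm]
    rw [h4, h3, pow_add]
    rw [div_lt_div_iff₀ (by positivity) (by positivity), one_mul]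
    have h5 : (3 : ℝ) < 4 ^ (2 * E n) := by
      have h6 : (4 : ℝ) ^ 1 ≤ 4 ^ (2 * E n) :=
        pow_le_pow_right₀ (by norm_num) (by have := E_pos n; omega)
      linarith
    have h6 : (0 : ℝ) < 4 ^ (n * E n) := by positivity
    nlinarith

theorem rr_transcendental : Transcendental ℤ (rr χ) := (rr_liouville hχ).transcendental

end

end Pool.Agent.Lib.MP_1308e3_lc
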