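import Pool.Agent.Lib.MP_1308e3_lc.Poly
import Pool.Agent.Lib.MP_1308e3_lc.RealNum

/-!
# Codes for the rational functions in one variable evaluated at a transcendental real
-/

set_option autoImplicit false

namespace Pool.Agent.Lib.MP_1308e3_lc

open Encodable Denumerable

/-- Codes for polynomials with integer coefficients: differences of coded polynomials. -/
abbrev Z : Type := List ℕ × List ℕ

/-- Codes for quotients. -/
abbrev Q : Type := Z × Z

/-- Addition in `Z`. -/
def zadd (a b : Z) : Z := (addL a.1 b.1, addL a.2 b.2)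

/-- Multiplication in `Z`. -/
def zmul (a b : Z) : Z :=
  (addL (mulL a.1 b.1) (mulL a.2 b.2), addL (mulL a.1 b.2) (mulL a.2 b.1))

/-- Negation in `Z`. -/
def zneg (a : Z) : Z := (a.2, a.1)

/-- The zero test. -/
def zz (a : Z) : Prop := eqL a.1 a.2

instance (a : Z) : Decidable (zz a) := by
  unfold zz
  infer_instance

/-- Evaluation. -/
noncomputable def zev (r : ℝ) (a : Z) : ℝ := ev r a.1 - ev r a.2

theorem zev_zadd (r : ℝ) (a b : Z) : zev r (zadd a b) = zev r a + zev r b := by
  simp only [zev, zadd, ev_addL]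
  ring

theorem zev_zmul (r : ℝ) (a b : Z) : zev r (zmul a b) = zev r a * zev r b := by
  simp only [zev, zmul, ev_addL, ev_mulL]
  ring

theorem zev_zneg (r : ℝ) (a : Z) : zev r (zneg a) = - zev r a := by
  simp only [zev, zneg]
  ring

theorem zev_eq_zero {r : ℝ} (hr : Transcendental ℤ r) {a : Z} : zev r a = 0 ↔ zz a := by
  rw [zev, sub_eq_zero, ev_eq_iff hr, zz, eqL_iff]

/-- The code of one. -/
def zone : Z := ([1], [])

/-- The code of zero. -/
def zzero : Z := ([], [])

theorem zev_zone (r : ℝ) : zev r zone = 1 := by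
  simp [zev, zone, ev_sum]

theorem zev_zzero (r : ℝ) : zev r zzero = 0 := by
  simp [zev, zzero, ev_sum]

/-- Normalisation: replace quotients with zero denominator by zero. -/
def norm (q : Q) : Q := if zz q.2 then (zzero, zone) else q

theorem norm_snd_ne {r : ℝ} (hr : Transcendental ℤ r) (q : Q) : zev r (norm q).2 ≠ 0 := by
  unfold norm
  split_ifs with h
  · simp [zev_zone]
  · intro h1
    exact h ((zev_eq_zero hr).1 h1)

/-- The value of a quotient. -/
noncomputable def val (r : ℝ) (q : Q) : ℝ := zev r (norm q).1 / zev r (norm q).2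

theorem val_eq {r : ℝ} (hr : Transcendental ℤ r) (q : Q) : val r q = zev r q.1 / zev r q.2 := by
  unfold val norm
  split_ifs with h
  · rw [(zev_eq_zero hr).2 h, zev_zzero, zero_div, div_zero]
  · rfl

/-- Addition of quotients. -/
def addQ (p q : Q) : Q := (zadd (zmul p.1 q.2) (zmul q.1 p.2), zmul p.2 q.2)

/-- Multiplication of quotients. -/
def mulQ (p q : Q) : Q := (zmul p.1 q.1, zmul p.2 q.2)

/-- Negation of quotients. -/
def negQ (p : Q) : Q := (zneg p.1, p.2)

/-- Inversion of quotients. -/
def invQ (p : Q) : Q := (p.2, p.1)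

/-- The normalised quotient coded by a number. -/
def dec (n : ℕ) : Q := norm (ofNat Q n)

/-- The real number coded by `n`. -/
noncomputable def delta (r : ℝ) (n : ℕ) : ℝ := zev r (dec n).1 / zev r (dec n).2

theorem delta_encode {r : ℝ} (hr : Transcendental ℤ r) (q : Q) :
    delta r (encode q) = zev r q.1 / zev r q.2 := by
  rw [← val_eq hr]
  unfold delta dec val
  rw [ofNat_encode]

/-- Addition on codes. -/
def addC (m n : ℕ) : ℕ := encode (addQ (dec m) (dec n))

/-- Multiplication on codes. -/
def mulC (m n : ℕ) : ℕ := encode (mulQ (dec m) (dec n))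

/-- Equality on codes. -/
def eqC (m n : ℕ) : Prop :=
  zz (zadd (zmul (dec m).1 (dec n).2) (zneg (zmul (dec n).1 (dec m).2)))

instance (m n : ℕ) : Decidable (eqC m n) := by
  unfold eqC
  infer_instance

/-- The pair of coded polynomials whose values decide the order. -/
def ltC (m n : ℕ) : Z :=
  zmul (zadd (zmul (dec n).1 (dec m).2) (zneg (zmul (dec m).1 (dec n).2)))
    (zmul (dec m).2 (dec n).2)

section

variable {r : ℝ} (hr : Transcendental ℤ r)

include hr

theorem dec_snd_ne (n : ℕ) : zev r (dec n).2 ≠ 0 := norm_snd_ne hr _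

theorem delta_addC (m n : ℕ) : delta r (addC m n) = delta r m + delta r n := by
  rw [addC, delta_encode hr]
  simp only [addQ, zev_zadd, zev_zmul, delta]
  have h1 := dec_snd_ne hr m
  have h2 := dec_snd_ne hr n
  field_simp

theorem delta_mulC (m n : ℕ) : delta r (mulC m n) = delta r m * delta r n := by
  rw [mulC, delta_encode hr]
  simp only [mulQ, zev_zmul, delta]
  have h1 := dec_snd_ne hr m
  have h2 := dec_snd_ne hr n
  field_simp

theorem delta_negQ (m : ℕ) : delta r (encode (negQ (dec m))) = - delta r m := by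
  rw [delta_encode hr]
  simp only [negQ, zev_zneg, delta]
  rw [neg_div]

theorem delta_invQ (m : ℕ) : delta r (encode (invQ (dec m))) = (delta r m)⁻¹ := by
  rw [delta_encode hr]
  simp only [invQ, delta]
  rw [inv_div]

theorem eqC_iff (m n : ℕ) : eqC m n ↔ delta r m = delta r n := by
  rw [eqC, ← zev_eq_zero hr, zev_zadd, zev_zneg, zev_zmul, zev_zmul, delta, delta,
    div_eq_div_iff (dec_snd_ne hr m) (dec_snd_ne hr n), ← sub_eq_add_neg, sub_eq_zero]

theorem ltC_iff (m n : ℕ) : delta r m < delta r n ↔ ev r (ltC m n).2 < ev r (ltC m n).1 := by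
  have h1 := dec_snd_ne hr m
  have h2 := dec_snd_ne hr n
  have h3 : zev r (ltC m n) = (delta r n - delta r m) *
      ((zev r (dec m).2) ^ 2 * (zev r (dec n).2) ^ 2) := by
    simp only [ltC, zev_zadd, zev_zmul, zev_zneg, delta]
    field_simp
    ring
  have h4 : 0 < (zev r (dec m).2) ^ 2 * (zev r (dec n).2) ^ 2 :=
    lt_of_le_of_ne (mul_nonneg (sq_nonneg _) (sq_nonneg _))
      (mul_ne_zero (pow_ne_zero 2 h1) (pow_ne_zero 2 h2)).symm
  have h5 : ∀ z : Z, ev r z.2 < ev r z.1 ↔ 0 < zev r z := fun z => sub_pos.symm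
  rw [h5, h3, mul_pos_iff_of_pos_right h4, sub_pos]

/-- The field of values. -/
noncomputable def FF : Subfield ℝ where
  carrier := Set.range (delta r)
  mul_mem' := by
    rintro _ _ ⟨m, rfl⟩ ⟨n, rfl⟩
    exact ⟨mulC m n, delta_mulC hr m n⟩
  one_mem' := by
    refine ⟨encode ((zone, zone) : Q), ?_⟩
    rw [delta_encode hr]
    simp [zev_zone]
  add_mem' := by
    rintro _ _ ⟨m, rfl⟩ ⟨n, rfl⟩
    exact ⟨addC m n, delta_addC hr m n⟩
  zero_mem' := by
    refine ⟨encode ((zzero, zone) : Q), ?_⟩
    rw [delta_encode hr]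
    simp [zev_zzero]
  neg_mem' := by
    rintro _ ⟨m, rfl⟩
    exact ⟨_, delta_negQ hr m⟩
  inv_mem' := by
    rintro _ ⟨m, rfl⟩
    exact ⟨_, delta_invQ hr m⟩

end

theorem zero_transcendental : Transcendental ℤ (rr fun _ => 0) :=
  rr_transcendental fun _ => Nat.zero_le _

theorem eqC_refl (n : ℕ) : eqC n n := (eqC_iff zero_transcendental n n).2 rfl

theorem exists_eqC (n : ℕ) : ∃ m, eqC m n := ⟨n, eqC_refl n⟩

/-- The least code of the same element. -/
def rep (n : ℕ) : ℕ := Nat.find (exists_eqC n)

theorem delta_rep {r : ℝ} (hr : Transcendental ℤ r) (n : ℕ) : delta r (rep n) = delta r n :=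
  (eqC_iff hr _ _).1 (Nat.find_spec (exists_eqC n))

theorem rep_eq_of_delta_eq {r : ℝ} (hr : Transcendental ℤ r) {m n : ℕ}
    (h : delta r m = delta r n) : rep m = rep n := by
  apply le_antisymm
  · apply Nat.find_min'
    rw [eqC_iff hr, delta_rep hr, h]
  · apply Nat.find_min'
    rw [eqC_iff hr, delta_rep hr, h]

theorem rep_rep (n : ℕ) : rep (rep n) = rep n :=
  rep_eq_of_delta_eq zero_transcendental (delta_rep zero_transcendental n)

/-- The domain of the computable field. -/
def Dom : Set ℕ := {n | rep n = n}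

theorem rep_mem_Dom (n : ℕ) : rep n ∈ Dom := rep_rep n

/-! ### Computability of the operations -/

theorem zadd_primrec : Primrec₂ zadd :=
  Primrec.pair (addL_primrec.comp (Primrec.fst.comp Primrec.fst) (Primrec.fst.comp Primrec.snd))
    (addL_primrec.comp (Primrec.snd.comp Primrec.fst) (Primrec.snd.comp Primrec.snd))

theorem zmul_primrec : Primrec₂ zmul := by
  have h11 : Primrec fun p : Z × Z => p.1.1 := Primrec.fst.comp Primrec.fst
  have h12 : Primrec fun p : Z × Z => p.1.2 := Primrec.snd.comp Primrec.fst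
  have h21 : Primrec fun p : Z × Z => p.2.1 := Primrec.fst.comp Primrec.snd
  have h22 : Primrec fun p : Z × Z => p.2.2 := Primrec.snd.comp Primrec.snd
  exact Primrec.pair (addL_primrec.comp (mulL_primrec.comp h11 h21) (mulL_primrec.comp h12 h22))
    (addL_primrec.comp (mulL_primrec.comp h11 h22) (mulL_primrec.comp h12 h21))

theorem zneg_primrec : Primrec zneg := Primrec.pair Primrec.snd Primrec.fst

theorem zz_primrec : PrimrecPred zz := PrimrecRel.comp eqL_primrec Primrec.fst Primrec.snd

theorem norm_primrec : Primrec norm :=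
  Primrec.ite (zz_primrec.comp Primrec.snd) (Primrec.const (zzero, zone)) Primrec.id

theorem dec_primrec : Primrec dec := norm_primrec.comp (Primrec.ofNat Q)

theorem addQ_primrec : Primrec₂ addQ := by
  have h11 : Primrec fun p : Q × Q => p.1.1 := Primrec.fst.comp Primrec.fst
  have h12 : Primrec fun p : Q × Q => p.1.2 := Primrec.snd.comp Primrec.fst
  have h21 : Primrec fun p : Q × Q => p.2.1 := Primrec.fst.comp Primrec.snd
  have h22 : Primrec fun p : Q × Q => p.2.2 := Primrec.snd.comp Primrec.snd
  exact Primrec.pair (zadd_primrec.comp (zmul_primrec.comp h11 h22) (zmul_primrec.comp h21 h12))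
    (zmul_primrec.comp h12 h22)

theorem mulQ_primrec : Primrec₂ mulQ := by
  have h11 : Primrec fun p : Q × Q => p.1.1 := Primrec.fst.comp Primrec.fst
  have h12 : Primrec fun p : Q × Q => p.1.2 := Primrec.snd.comp Primrec.fst
  have h21 : Primrec fun p : Q × Q => p.2.1 := Primrec.fst.comp Primrec.snd
  have h22 : Primrec fun p : Q × Q => p.2.2 := Primrec.snd.comp Primrec.snd
  exact Primrec.pair (zmul_primrec.comp h11 h21) (zmul_primrec.comp h12 h22)

theorem addC_primrec : Primrec₂ addC :=
  Primrec.encode.comp (addQ_primrec.comp (dec_primrec.comp Primrec.fst)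
    (dec_primrec.comp Primrec.snd))

theorem mulC_primrec : Primrec₂ mulC :=
  Primrec.encode.comp (mulQ_primrec.comp (dec_primrec.comp Primrec.fst)
    (dec_primrec.comp Primrec.snd))

theorem eqC_primrec : PrimrecRel eqC := by
  have h1 : Primrec fun p : ℕ × ℕ => dec p.1 := dec_primrec.comp Primrec.fst
  have h2 : Primrec fun p : ℕ × ℕ => dec p.2 := dec_primrec.comp Primrec.snd
  exact zz_primrec.comp (zadd_primrec.comp (zmul_primrec.comp (Primrec.fst.comp h1)
    (Primrec.snd.comp h2)) (zneg_primrec.comp (zmul_primrec.comp (Primrec.fst.comp h2)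
    (Primrec.snd.comp h1))))

theorem ltC_primrec : Primrec₂ ltC := by
  have h1 : Primrec fun p : ℕ × ℕ => dec p.1 := dec_primrec.comp Primrec.fst
  have h2 : Primrec fun p : ℕ × ℕ => dec p.2 := dec_primrec.comp Primrec.snd
  exact zmul_primrec.comp (zadd_primrec.comp (zmul_primrec.comp (Primrec.fst.comp h2)
    (Primrec.snd.comp h1)) (zneg_primrec.comp (zmul_primrec.comp (Primrec.fst.comp h1)
    (Primrec.snd.comp h2)))) (zmul_primrec.comp (Primrec.snd.comp h1) (Primrec.snd.comp h2))

theorem rep_computable : Computable rep := by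
  have h1 : PrimrecPred fun p : ℕ × ℕ => eqC p.2 p.1 :=
    PrimrecRel.comp eqC_primrec Primrec.snd Primrec.fst
  exact Computable.find (P := fun n m => eqC m n) h1.computablePred exists_eqC

theorem Dom_computable : ComputablePred fun n => n ∈ Dom := by
  have h1 : Computable fun n => decide (rep n = n) :=
    (Primrec.eq.decide.to_comp).comp rep_computable Computable.id
  exact ⟨fun n => inferInstanceAs (Decidable (rep n = n)), h1⟩

end Pool.Agent.Lib.MP_1308e3_lc
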