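import Pool.Agent.Lib.MP_1308e3_lc.LowBasis

/-!
# A formally real computable field has a low ordering
-/

set_option autoImplicit false

namespace Pool.Agent.Lib.MP_1308e3_lc

open Encodable Denumerable Nat.Partrec

/-- The `i`-th entry is `1`. -/
def pb (σ : List ℕ) (i : ℕ) : Bool := decide (σ[i]? = some 1)

/-- The `i`-th entry is `0`. -/
def qb (σ : List ℕ) (i : ℕ) : Bool := decide (σ[i]? = some 0)

theorem pb_primrec : Primrec₂ pb :=
  Primrec.eq.decide.comp Primrec.list_getElem? (Primrec.const (some 1))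

theorem qb_primrec : Primrec₂ qb :=
  Primrec.eq.decide.comp Primrec.list_getElem? (Primrec.const (some 0))

theorem pb_initSeg {X : Set ℕ} {k i : ℕ} : pb (initSeg X k) i = true ↔ i < k ∧ i ∈ X := by
  unfold pb
  rw [decide_eq_true_eq, initSeg_getElem?]
  split_ifs with h
  · rw [Option.some_inj, chi_eq_one]
    exact ⟨fun h1 => ⟨h, h1⟩, fun h1 => h1.2⟩
  · simp [h]

theorem qb_initSeg {X : Set ℕ} {k i : ℕ} : qb (initSeg X k) i = true ↔ i < k ∧ i ∉ X := by
  unfold qb
  rw [decide_eq_true_eq, initSeg_getElem?]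
  split_ifs with h
  · rw [Option.some_inj, chi_eq_zero]
    exact ⟨fun h1 => ⟨h, h1⟩, fun h1 => h1.2⟩
  · simp [h]

/-- The violations of the axioms of an ordering that are visible on the string `σ`, for the
triple coded by `n`. -/
def viol (db : ℕ → Bool) (f g : ℕ → ℕ → ℕ) (z : ℕ) (n : ℕ) (σ : List ℕ) : Bool :=
  (pb σ n && !(db n.unpair.1 && db n.unpair.2)) ||
  (pb σ (Nat.pair n.unpair.1 n.unpair.1)) ||
  (db n.unpair.1 && db n.unpair.2 && (!decide (n.unpair.1 = n.unpair.2)) &&
    qb σ (Nat.pair n.unpair.1 n.unpair.2) && qb σ (Nat.pair n.unpair.2 n.unpair.1)) ||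
  (pb σ (Nat.pair n.unpair.1 n.unpair.2.unpair.1) &&
    pb σ (Nat.pair n.unpair.2.unpair.1 n.unpair.2.unpair.2) &&
    qb σ (Nat.pair n.unpair.1 n.unpair.2.unpair.2)) ||
  (db n.unpair.2.unpair.2 && pb σ (Nat.pair n.unpair.1 n.unpair.2.unpair.1) &&
    qb σ (Nat.pair (f n.unpair.1 n.unpair.2.unpair.2) (f n.unpair.2.unpair.1 n.unpair.2.unpair.2)))
  ||
  (pb σ (Nat.pair z n.unpair.1) && pb σ (Nat.pair z n.unpair.2) &&
    qb σ (Nat.pair z (g n.unpair.1 n.unpair.2)))

theorem viol_computable {db : ℕ → Bool} {f g : ℕ → ℕ → ℕ} (z : ℕ) (hdb : Computable db)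
    (hf : Computable₂ f) (hg : Computable₂ g) :
    Computable fun p : ℕ × List ℕ => viol db f g z p.1 p.2 := by
  have ha : Computable fun p : ℕ × List ℕ => p.1.unpair.1 :=
    (Primrec.fst.comp (Primrec.unpair.comp Primrec.fst)).to_comp
  have hb : Computable fun p : ℕ × List ℕ => p.1.unpair.2 :=
    (Primrec.snd.comp (Primrec.unpair.comp Primrec.fst)).to_comp
  have hb1 : Computable fun p : ℕ × List ℕ => p.1.unpair.2.unpair.1 :=
    (Primrec.fst.comp (Primrec.unpair.comp (Primrec.snd.comp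
      (Primrec.unpair.comp Primrec.fst)))).to_comp
  have hb2 : Computable fun p : ℕ × List ℕ => p.1.unpair.2.unpair.2 :=
    (Primrec.snd.comp (Primrec.unpair.comp (Primrec.snd.comp
      (Primrec.unpair.comp Primrec.fst)))).to_comp
  have hP : ∀ {i : ℕ × List ℕ → ℕ}, Computable i → Computable fun p => pb p.2 (i p) :=
    fun h => pb_primrec.to_comp.comp Computable.snd h
  have hQ : ∀ {i : ℕ × List ℕ → ℕ}, Computable i → Computable fun p => qb p.2 (i p) :=
    fun h => qb_primrec.to_comp.comp Computable.snd h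
  have hpair : ∀ {i j : ℕ × List ℕ → ℕ}, Computable i → Computable j →
      Computable fun p => Nat.pair (i p) (j p) := fun h h' => Primrec₂.natPair.to_comp.comp h h'
  have hand : ∀ {i j : ℕ × List ℕ → Bool}, Computable i → Computable j →
      Computable fun p => (i p && j p) := fun h h' => Primrec.and.to_comp.comp h h'
  have hor : ∀ {i j : ℕ × List ℕ → Bool}, Computable i → Computable j →
      Computable fun p => (i p || j p) := fun h h' => Primrec.or.to_comp.comp h h'
  have hnot : ∀ {i : ℕ × List ℕ → Bool}, Computable i → Computable fun p => !(i p) :=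
    fun h => Primrec.not.to_comp.comp h
  have heq : Computable fun p : ℕ × List ℕ => decide (p.1.unpair.1 = p.1.unpair.2) :=
    Primrec.eq.decide.to_comp.comp ha hb
  have hz : Computable fun _ : ℕ × List ℕ => z := Computable.const z
  refine hor (hor (hor (hor (hor ?_ ?_) ?_) ?_) ?_) ?_
  · exact hand (hP Computable.fst) (hnot (hand (hdb.comp ha) (hdb.comp hb)))
  · exact hP (hpair ha ha)
  · exact hand (hand (hand (hand (hdb.comp ha) (hdb.comp hb)) (hnot heq)) (hQ (hpair ha hb)))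
      (hQ (hpair hb ha))
  · exact hand (hand (hP (hpair ha hb1)) (hP (hpair hb1 hb2))) (hQ (hpair ha hb2))
  · exact hand (hand (hdb.comp hb2) (hP (hpair ha hb1)))
      (hQ (hpair (hf.comp ha hb2) (hf.comp hb1 hb2)))
  · exact hand (hand (hP (hpair hz ha)) (hP (hpair hz hb))) (hQ (hpair hz (hg.comp ha hb)))

/-- The axioms of an ordering, on codes. -/
structure OrdAx (D : Set ℕ) (f g : ℕ → ℕ → ℕ) (z : ℕ) (X : Set ℕ) : Prop where
  sub : ∀ a b, Nat.pair a b ∈ X → a ∈ D ∧ b ∈ D
  irr : ∀ a, Nat.pair a a ∉ X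
  tot : ∀ a ∈ D, ∀ b ∈ D, a ≠ b → Nat.pair a b ∈ X ∨ Nat.pair b a ∈ X
  trans : ∀ a b c, Nat.pair a b ∈ X → Nat.pair b c ∈ X → Nat.pair a c ∈ X
  add : ∀ a b, ∀ c ∈ D, Nat.pair a b ∈ X → Nat.pair (f a c) (f b c) ∈ X
  mul : ∀ a b, Nat.pair z a ∈ X → Nat.pair z b ∈ X → Nat.pair z (g a b) ∈ X

theorem ordAx_iff {D : Set ℕ} {db : ℕ → Bool} (hdb : ∀ n, db n = true ↔ n ∈ D)
    {f g : ℕ → ℕ → ℕ} {z : ℕ} {X : Set ℕ} :
    OrdAx D f g z X ↔ ∀ n k, viol db f g z n (initSeg X k) = false := by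
  constructor
  · intro h n k
    rw [← Bool.not_eq_true]
    intro hv
    unfold viol at hv
    simp only [Bool.or_eq_true, Bool.and_eq_true, Bool.not_eq_true', decide_eq_false_iff_not,
      Bool.and_eq_false_iff] at hv
    rcases hv with ((((hv | hv) | hv) | hv) | hv) | hv
    · obtain ⟨h1, h2⟩ := hv
      have h3 := (pb_initSeg.1 h1).2
      rw [← Nat.pair_unpair n] at h3
      obtain ⟨h4, h5⟩ := h.sub _ _ h3
      rw [← hdb] at h4 h5
      rcases h2 with h2 | h2
      · rw [h4] at h2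
        exact absurd h2 (by simp)
      · rw [h5] at h2
        exact absurd h2 (by simp)
    · exact h.irr _ (pb_initSeg.1 hv).2
    · obtain ⟨⟨⟨⟨h1, h2⟩, h3⟩, h4⟩, h5⟩ := hv
      rcases h.tot _ ((hdb _).1 h1) _ ((hdb _).1 h2) h3 with h6 | h6
      · exact (qb_initSeg.1 h4).2 h6
      · exact (qb_initSeg.1 h5).2 h6
    · obtain ⟨⟨h1, h2⟩, h3⟩ := hv
      exact (qb_initSeg.1 h3).2 (h.trans _ _ _ (pb_initSeg.1 h1).2 (pb_initSeg.1 h2).2)
    · obtain ⟨⟨h1, h2⟩, h3⟩ := hv
      exact (qb_initSeg.1 h3).2 (h.add _ _ _ ((hdb _).1 h1) (pb_initSeg.1 h2).2)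
    · obtain ⟨⟨h1, h2⟩, h3⟩ := hv
      exact (qb_initSeg.1 h3).2 (h.mul _ _ (pb_initSeg.1 h1).2 (pb_initSeg.1 h2).2)
  · intro h
    have key : ∀ n k, ¬ viol db f g z n (initSeg X k) = true := by
      intro n k hv
      rw [h n k] at hv
      exact absurd hv (by simp)
    have hP : ∀ {i k : ℕ}, i ∈ X → i < k → pb (initSeg X k) i = true := fun h h' =>
      pb_initSeg.2 ⟨h', h⟩
    have hQ : ∀ {i k : ℕ}, i ∉ X → i < k → qb (initSeg X k) i = true := fun h h' =>
      qb_initSeg.2 ⟨h', h⟩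
    refine ⟨fun a b hab => ?_, fun a ha => ?_, fun a ha b hb hne => ?_,
      fun a b c hab hbc => ?_, fun a b c hc hab => ?_, fun a b ha hb => ?_⟩
    · by_contra hcon
      apply key (Nat.pair a b) (Nat.pair a b + 1)
      unfold viol
      rw [Nat.unpair_pair]
      have h1 : (db a && db b) = false := by
        rw [← Bool.not_eq_true, Bool.and_eq_true, hdb, hdb]
        exact hcon
      simp only [h1, hP hab (Nat.lt_succ_self _), Bool.not_false, Bool.and_true, Bool.true_or]
    · apply key (Nat.pair a 0) (Nat.pair a a + 1)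
      unfold viol
      simp only [Nat.unpair_pair, hP ha (Nat.lt_succ_self _), Bool.true_or, Bool.or_true]
    · by_contra hcon
      rw [not_or] at hcon
      apply key (Nat.pair a b) (Nat.pair a b + Nat.pair b a + 1)
      unfold viol
      have h1 : decide (a = b) = false := decide_eq_false hne
      simp only [Nat.unpair_pair, (hdb a).2 ha, (hdb b).2 hb, h1,
        hQ hcon.1 (show Nat.pair a b < Nat.pair a b + Nat.pair b a + 1 by omega),
        hQ hcon.2 (show Nat.pair b a < Nat.pair a b + Nat.pair b a + 1 by omega),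
        Bool.not_false, Bool.and_true, Bool.or_true, Bool.true_or]
    · by_contra hcon
      apply key (Nat.pair a (Nat.pair b c)) (Nat.pair a b + Nat.pair b c + Nat.pair a c + 1)
      unfold viol
      simp only [Nat.unpair_pair,
        hP hab (show Nat.pair a b < Nat.pair a b + Nat.pair b c + Nat.pair a c + 1 by omega),
        hP hbc (show Nat.pair b c < Nat.pair a b + Nat.pair b c + Nat.pair a c + 1 by omega),
        hQ hcon (show Nat.pair a c < Nat.pair a b + Nat.pair b c + Nat.pair a c + 1 by omega),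
        Bool.and_true, Bool.or_true, Bool.true_or]
    · by_contra hcon
      apply key (Nat.pair a (Nat.pair b c)) (Nat.pair a b + Nat.pair (f a c) (f b c) + 1)
      unfold viol
      simp only [Nat.unpair_pair, (hdb c).2 hc,
        hP hab (show Nat.pair a b < Nat.pair a b + Nat.pair (f a c) (f b c) + 1 by omega),
        hQ hcon (show Nat.pair (f a c) (f b c) <
          Nat.pair a b + Nat.pair (f a c) (f b c) + 1 by omega),
        Bool.and_true, Bool.or_true, Bool.true_or]
    · by_contra hcon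
      apply key (Nat.pair a b) (Nat.pair z a + Nat.pair z b + Nat.pair z (g a b) + 1)
      unfold viol
      simp only [Nat.unpair_pair,
        hP ha (show Nat.pair z a < Nat.pair z a + Nat.pair z b + Nat.pair z (g a b) + 1 by omega),
        hP hb (show Nat.pair z b < Nat.pair z a + Nat.pair z b + Nat.pair z (g a b) + 1 by omega),
        hQ hcon (show Nat.pair z (g a b) <
          Nat.pair z a + Nat.pair z b + Nat.pair z (g a b) + 1 by omega),
        Bool.and_true, Bool.or_true]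

/-- The order relation coded by `X`. -/
def ltX {F : Type} (ν : F → ℕ) (X : Set ℕ) (x y : F) : Prop := Nat.pair (ν x) (ν y) ∈ X

section

variable {F : Type} [Field F] {ν : F → ℕ} {f g : ℕ → ℕ → ℕ} {X : Set ℕ}

open Classical in
/-- The linear order coded by `X`. -/
@[reducible] noncomputable def linX (hinj : Function.Injective ν)
    (hX : OrdAx (Set.range ν) f g (ν 0) X) : LinearOrder F where
  le x y := x = y ∨ ltX ν X x y
  lt x y := ltX ν X x y
  le_refl x := Or.inl rfl
  le_trans x y w := by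
    rintro (rfl | h1) (rfl | h2)
    · exact Or.inl rfl
    · exact Or.inr h2
    · exact Or.inr h1
    · exact Or.inr (hX.trans _ _ _ h1 h2)
  lt_iff_le_not_ge x y := by
    constructor
    · intro h
      refine ⟨Or.inr h, ?_⟩
      rintro (rfl | h')
      · exact hX.irr _ h
      · exact hX.irr _ (hX.trans _ _ _ h h')
    · rintro ⟨h1, h2⟩
      rcases h1 with rfl | h1
      · exact absurd (Or.inl rfl) h2
      · exact h1
  le_antisymm x y := by
    rintro (rfl | h1) (h2 | h2)
    · rfl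
    · rfl
    · exact h2.symm
    · exact absurd (hX.trans _ _ _ h1 h2) (hX.irr _)
  le_total x y := by
    by_cases h : x = y
    · exact Or.inl (Or.inl h)
    · rcases hX.tot (ν x) ⟨x, rfl⟩ (ν y) ⟨y, rfl⟩ (fun h' => h (hinj h')) with h1 | h1
      · exact Or.inl (Or.inr h1)
      · exact Or.inr (Or.inr h1)
  toDecidableLE := fun _ _ => Classical.dec _

theorem orderSet_linX (hinj : Function.Injective ν) (hX : OrdAx (Set.range ν) f g (ν 0) X) :
    letI := linX hinj hX
    orderSet ν = X := by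
  letI := linX hinj hX
  show orderSet ν = X
  ext n
  constructor
  · rintro ⟨x, y, hxy, rfl⟩
    exact hxy
  · intro hn
    rw [← Nat.pair_unpair n] at hn
    obtain ⟨⟨x, hx⟩, ⟨y, hy⟩⟩ := hX.sub _ _ hn
    rw [← hx, ← hy] at hn
    refine ⟨x, y, hn, ?_⟩
    rw [hx, hy, Nat.pair_unpair]

theorem isStrict_linX (hinj : Function.Injective ν) (hf : ∀ x y, f (ν x) (ν y) = ν (x + y))
    (hg : ∀ x y, g (ν x) (ν y) = ν (x * y)) (hX : OrdAx (Set.range ν) f g (ν 0) X) :
    letI := linX hinj hX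
    IsStrictOrderedRing F := by
  letI := linX hinj hX
  show IsStrictOrderedRing F
  have hlt : ∀ x y : F, x < y ↔ Nat.pair (ν x) (ν y) ∈ X := fun x y => Iff.rfl
  have hadd : ∀ x y w : F, x < y → x + w < y + w := by
    intro x y w h
    rw [hlt] at h ⊢
    rw [← hf, ← hf]
    exact hX.add _ _ _ ⟨w, rfl⟩ h
  have hadd' : ∀ x y w : F, x ≤ y → x + w ≤ y + w := by
    intro x y w h
    rcases h.lt_or_eq with h | rfl
    · exact (hadd x y w h).le
    · exact le_rfl
  have hmul : ∀ x y : F, 0 < x → 0 < y → 0 < x * y := by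
    intro x y hx hy
    rw [hlt] at hx hy ⊢
    rw [← hg]
    exact hX.mul _ _ hx hy
  haveI : IsOrderedAddMonoid F :=
    { add_le_add_left := fun x y h w => hadd' x y w h }
  haveI : ZeroLEOneClass F := by
    constructor
    rcases lt_trichotomy (0 : F) 1 with h | h | h
    · exact h.le
    · exact h.le
    · have h1 := hadd 1 0 (-1) h
      rw [add_neg_cancel, zero_add] at h1
      have h2 := hmul _ _ h1 h1
      rw [neg_mul_neg, one_mul] at h2
      exact h2.le
  exact IsStrictOrderedRing.of_mul_pos hmul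

end

/-- The axioms hold for an actual ordering. -/
theorem ordAx_orderSet {F : Type} [Field F] [LinearOrder F] [IsStrictOrderedRing F] {ν : F → ℕ}
    {f g : ℕ → ℕ → ℕ} (hinj : Function.Injective ν) (hf : ∀ x y, f (ν x) (ν y) = ν (x + y))
    (hg : ∀ x y, g (ν x) (ν y) = ν (x * y)) : OrdAx (Set.range ν) f g (ν 0) (orderSet ν) := by
  have hmem : ∀ {a b : ℕ}, Nat.pair a b ∈ orderSet ν ↔ ∃ x y : F, x < y ∧ a = ν x ∧ b = ν y := by
    intro a b
    constructor
    · rintro ⟨x, y, hxy, h⟩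
      obtain ⟨h1, h2⟩ := Nat.pair_eq_pair.1 h
      exact ⟨x, y, hxy, h1, h2⟩
    · rintro ⟨x, y, hxy, rfl, rfl⟩
      exact ⟨x, y, hxy, rfl⟩
  refine ⟨fun a b h => ?_, fun a h => ?_, ?_, fun a b c hab hbc => ?_, ?_, fun a b ha hb => ?_⟩
  · obtain ⟨x, y, -, rfl, rfl⟩ := hmem.1 h
    exact ⟨⟨x, rfl⟩, ⟨y, rfl⟩⟩
  · obtain ⟨x, y, hxy, rfl, h2⟩ := hmem.1 h
    rw [hinj h2] at hxy
    exact lt_irrefl _ hxy
  · rintro _ ⟨x, rfl⟩ _ ⟨y, rfl⟩ hne
    rcases lt_trichotomy x y with h | h | h
    · exact Or.inl (hmem.2 ⟨x, y, h, rfl, rfl⟩)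
    · exact absurd (congrArg ν h) hne
    · exact Or.inr (hmem.2 ⟨y, x, h, rfl, rfl⟩)
  · obtain ⟨x, y, hxy, rfl, rfl⟩ := hmem.1 hab
    obtain ⟨y', w, hyw, h1, rfl⟩ := hmem.1 hbc
    rw [← hinj h1] at hyw
    exact hmem.2 ⟨x, w, hxy.trans hyw, rfl, rfl⟩
  · rintro a b _ ⟨w, rfl⟩ hab
    obtain ⟨x, y, hxy, rfl, rfl⟩ := hmem.1 hab
    exact hmem.2 ⟨x + w, y + w, by simpa using hxy, hf _ _, hf _ _⟩
  · obtain ⟨x, y, hxy, h1, rfl⟩ := hmem.1 ha
    obtain ⟨x', y', hxy', h1', rfl⟩ := hmem.1 hb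
    rw [← hinj h1] at hxy
    rw [← hinj h1'] at hxy'
    exact hmem.2 ⟨0, y * y', mul_pos hxy hxy', rfl, hg _ _⟩

/-- A formally real computable field has a low ordering. -/
theorem exists_low_order {F : Type} [Field F] {ν : F → ℕ} (hν : IsComputablePresentation ν)
    (hord : ∃ (_ : LinearOrder F), IsStrictOrderedRing F) :
    ∃ (_ : LinearOrder F) (_ : IsStrictOrderedRing F), IsLow (orderSet ν) := by
  obtain ⟨f, hfc, hf⟩ := hν.add
  obtain ⟨g, hgc, hg⟩ := hν.mul
  obtain ⟨hd, hdc⟩ := hν.domain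
  have hdb : ∀ n, decide (n ∈ Set.range ν) = true ↔ n ∈ Set.range ν := fun n => decide_eq_true_iff
  have hex : ∃ X : Set ℕ, ∀ n k,
      viol (fun n => decide (n ∈ Set.range ν)) f g (ν 0) n (initSeg X k) = false := by
    obtain ⟨h1, h2⟩ := hord
    exact ⟨orderSet ν, (ordAx_iff hdb).1 (ordAx_orderSet hν.injective hf hg)⟩
  obtain ⟨X, hX, hlow⟩ := low_basis'
    (R := fun n σ => viol (fun n => decide (n ∈ Set.range ν)) f g (ν 0) n σ = false) (by
      have h1 := Primrec.eq.decide.to_comp.comp (viol_computable (ν 0) hdc hfc hgc)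
        (Computable.const false)
      exact ⟨fun p => inferInstance, h1⟩) hex
  have hax := (ordAx_iff hdb).2 hX
  refine ⟨linX hν.injective hax, isStrict_linX hν.injective hf hg hax, ?_⟩
  rw [orderSet_linX]
  exact hlow

end Pool.Agent.Lib.MP_1308e3_lc
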