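import Pool.Agent.Lib.MP_1308e3_lc.Reals
import Pool.Agent.Lib.MP_1308e3_lc.OrdClass

/-!
# The computable field without computable orderings in its computable copies
-/

set_option autoImplicit false

namespace Pool.Agent.Lib.MP_1308e3_lc

open Encodable Denumerable Nat.Partrec

/-- Codes for quotients. -/
abbrev QY : Type := Y × Y

/-- Normalisation: replace quotients with zero denominator by zero. -/
def normY (q : QY) : QY := if yz q.2 then (yzero, yone) else q

/-- The normalised quotient coded by a number. -/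
def decY (n : ℕ) : QY := normY (ofNat QY n)

/-- The value of a code of a sum. -/
noncomputable def vv (a : Y) : ℝ := yev r0 y0 a

theorem vv_eq_zero {a : Y} : vv a = 0 ↔ yz a := yev0_eq_zero

theorem vv_yadd (a b : Y) : vv (yadd a b) = vv a + vv b := yev_yadd _ _ _ _

theorem vv_ymul (a b : Y) : vv (ymul a b) = vv a * vv b := yev_ymul _ _ _ _

theorem vv_yneg (a : Y) : vv (yneg a) = - vv a := yev_yneg _ _ _

theorem vv_yone : vv yone = 1 := yev_yone _ _

theorem vv_yzero : vv yzero = 0 := yev_yzero _ _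

/-- The real number coded by `n`. -/
noncomputable def dl (n : ℕ) : ℝ := vv (decY n).1 / vv (decY n).2

theorem normY_snd_ne (q : QY) : vv (normY q).2 ≠ 0 := by
  unfold normY
  split_ifs with h
  · rw [vv_yone]
    exact one_ne_zero
  · intro h1
    exact h (vv_eq_zero.1 h1)

theorem decY_snd_ne (n : ℕ) : vv (decY n).2 ≠ 0 := normY_snd_ne _

theorem dl_encode (q : QY) : dl (encode q) = vv q.1 / vv q.2 := by
  unfold dl decY
  rw [ofNat_encode]
  unfold normY
  split_ifs with h
  · rw [vv_eq_zero.2 h, vv_yzero, zero_div, div_zero]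
  · rfl

/-- Addition on codes. -/
def addY (m n : ℕ) : ℕ := encode ((yadd (ymul (decY m).1 (decY n).2) (ymul (decY n).1 (decY m).2),
  ymul (decY m).2 (decY n).2) : QY)

/-- Multiplication on codes. -/
def mulY (m n : ℕ) : ℕ :=
  encode ((ymul (decY m).1 (decY n).1, ymul (decY m).2 (decY n).2) : QY)

/-- Equality on codes. -/
def eqY (m n : ℕ) : Prop :=
  yz (yadd (ymul (decY m).1 (decY n).2) (yneg (ymul (decY n).1 (decY m).2)))

instance (m n : ℕ) : Decidable (eqY m n) := by
  unfold eqY
  infer_instance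

theorem dl_addY (m n : ℕ) : dl (addY m n) = dl m + dl n := by
  rw [addY, dl_encode]
  simp only [vv_yadd, vv_ymul, dl]
  have h1 := decY_snd_ne m
  have h2 := decY_snd_ne n
  field_simp

theorem dl_mulY (m n : ℕ) : dl (mulY m n) = dl m * dl n := by
  rw [mulY, dl_encode]
  simp only [vv_ymul, dl]
  have h1 := decY_snd_ne m
  have h2 := decY_snd_ne n
  field_simp

theorem eqY_iff (m n : ℕ) : eqY m n ↔ dl m = dl n := by
  rw [eqY, ← vv_eq_zero, vv_yadd, vv_yneg, vv_ymul, vv_ymul, dl, dl,
    div_eq_div_iff (decY_snd_ne m) (decY_snd_ne n), ← sub_eq_add_neg, sub_eq_zero]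

/-- The field. -/
noncomputable def FY : Subfield ℝ where
  carrier := Set.range dl
  mul_mem' := by
    rintro _ _ ⟨m, rfl⟩ ⟨n, rfl⟩
    exact ⟨mulY m n, dl_mulY m n⟩
  one_mem' := by
    refine ⟨encode ((yone, yone) : QY), ?_⟩
    rw [dl_encode, vv_yone, div_one]
  add_mem' := by
    rintro _ _ ⟨m, rfl⟩ ⟨n, rfl⟩
    exact ⟨addY m n, dl_addY m n⟩
  zero_mem' := by
    refine ⟨encode ((yzero, yone) : QY), ?_⟩
    rw [dl_encode, vv_yone, vv_yzero, div_one]
  neg_mem' := by
    rintro _ ⟨m, rfl⟩
    refine ⟨encode ((yneg (decY m).1, (decY m).2) : QY), ?_⟩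
    rw [dl_encode, vv_yneg, neg_div]
    rfl
  inv_mem' := by
    rintro _ ⟨m, rfl⟩
    refine ⟨encode (((decY m).2, (decY m).1) : QY), ?_⟩
    rw [dl_encode, dl, inv_div]

theorem mem_FY_of_vv (a : Y) : vv a ∈ FY := by
  refine ⟨encode ((a, yone) : QY), ?_⟩
  rw [dl_encode, vv_yone, div_one]

theorem exists_eqY (n : ℕ) : ∃ m, eqY m n := ⟨n, (eqY_iff n n).2 rfl⟩

/-- The least code of the same element. -/
def repY (n : ℕ) : ℕ := Nat.find (exists_eqY n)

theorem dl_repY (n : ℕ) : dl (repY n) = dl n :=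
  (eqY_iff _ _).1 (Nat.find_spec (exists_eqY n))

theorem repY_eq {m n : ℕ} (h : dl m = dl n) : repY m = repY n := by
  apply le_antisymm
  · apply Nat.find_min'
    rw [eqY_iff, dl_repY, h]
  · apply Nat.find_min'
    rw [eqY_iff, dl_repY, h]

theorem repY_repY (n : ℕ) : repY (repY n) = repY n := repY_eq (dl_repY n)

/-! ### Computability -/

theorem normY_primrec : Primrec normY :=
  Primrec.ite (yz_primrec.comp Primrec.snd) (Primrec.const (yzero, yone)) Primrec.id

theorem decY_primrec : Primrec decY := normY_primrec.comp (Primrec.ofNat QY)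

theorem addY_primrec : Primrec₂ addY := by
  have h1 : Primrec fun p : ℕ × ℕ => decY p.1 := decY_primrec.comp Primrec.fst
  have h2 : Primrec fun p : ℕ × ℕ => decY p.2 := decY_primrec.comp Primrec.snd
  have a1 := ymul_primrec.comp (Primrec.fst.comp h1) (Primrec.snd.comp h2)
  have a2 := ymul_primrec.comp (Primrec.fst.comp h2) (Primrec.snd.comp h1)
  have a3 := ymul_primrec.comp (Primrec.snd.comp h1) (Primrec.snd.comp h2)
  have a4 := Primrec.encode.comp (Primrec.pair (yadd_primrec.comp a1 a2) a3)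
  exact a4.to₂

theorem mulY_primrec : Primrec₂ mulY := by
  have h1 : Primrec fun p : ℕ × ℕ => decY p.1 := decY_primrec.comp Primrec.fst
  have h2 : Primrec fun p : ℕ × ℕ => decY p.2 := decY_primrec.comp Primrec.snd
  have a1 := ymul_primrec.comp (Primrec.fst.comp h1) (Primrec.fst.comp h2)
  have a3 := ymul_primrec.comp (Primrec.snd.comp h1) (Primrec.snd.comp h2)
  have a4 := Primrec.encode.comp (Primrec.pair a1 a3)
  exact a4.to₂

theorem eqY_primrec : PrimrecRel eqY := by
  have h1 : Primrec fun p : ℕ × ℕ => decY p.1 := decY_primrec.comp Primrec.fst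
  have h2 : Primrec fun p : ℕ × ℕ => decY p.2 := decY_primrec.comp Primrec.snd
  have a1 := ymul_primrec.comp (Primrec.fst.comp h1) (Primrec.snd.comp h2)
  have a2 := ymul_primrec.comp (Primrec.fst.comp h2) (Primrec.snd.comp h1)
  exact yz_primrec.comp (yadd_primrec.comp a1 (yneg_primrec.comp a2))

theorem repY_computable : Computable repY := by
  have h1 : PrimrecPred fun p : ℕ × ℕ => eqY p.2 p.1 :=
    PrimrecRel.comp eqY_primrec Primrec.snd Primrec.fst
  exact Computable.find (P := fun n m => eqY m n) h1.computablePred exists_eqY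

/-- The presentation of the field. -/
noncomputable def nuY (x : FY) : ℕ := repY (Classical.choose x.2)

theorem dl_nuY (x : FY) : dl (nuY x) = x.1 := by
  rw [nuY, dl_repY]
  exact Classical.choose_spec x.2

theorem nuY_injective : Function.Injective nuY := by
  intro x y h
  apply Subtype.ext
  rw [← dl_nuY x, ← dl_nuY y, h]

theorem nuY_eq {x : FY} {n : ℕ} (h : x.1 = dl n) : nuY x = repY n := by
  have h1 : repY (nuY x) = repY n := repY_eq (by rw [dl_nuY, h])
  rw [← h1]
  unfold nuY
  rw [repY_repY]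

theorem range_nuY : Set.range nuY = {n | repY n = n} := by
  ext n
  constructor
  · rintro ⟨x, rfl⟩
    show repY (nuY x) = nuY x
    unfold nuY
    rw [repY_repY]
  · intro hn
    refine ⟨⟨dl n, n, rfl⟩, ?_⟩
    rw [nuY_eq rfl]
    exact hn

theorem nuY_presentation : IsComputablePresentation nuY where
  injective := nuY_injective
  domain := by
    rw [range_nuY]
    have h1 : Computable fun n => decide (repY n = n) :=
      (Primrec.eq.decide.to_comp).comp repY_computable Computable.id
    exact ⟨fun n => inferInstanceAs (Decidable (repY n = n)), h1⟩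
  add := by
    refine ⟨fun m n => repY (addY m n), repY_computable.comp addY_primrec.to_comp, ?_⟩
    intro x y
    symm
    apply nuY_eq
    rw [dl_addY, dl_nuY, dl_nuY]
    rfl
  mul := by
    refine ⟨fun m n => repY (mulY m n), repY_computable.comp mulY_primrec.to_comp, ?_⟩
    intro x y
    symm
    apply nuY_eq
    rw [dl_mulY, dl_nuY, dl_nuY]
    rfl

/-! ### Elements of the field -/

/-- The variable. -/
noncomputable def tY : FY := ⟨r0, by
  have h := mem_FY_of_vv [((([0, 1], []) : Z), [])]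
  have e1 : vv [((([0, 1], []) : Z), [])] = r0 := by
    simp [vv, yev, mev, zev, ev_sum, Finset.sum_range_succ]
  rwa [e1] at h⟩

/-- The square roots. -/
noncomputable def yY (j : ℕ) : FY := ⟨y0 j, by
  have h := mem_FY_of_vv [(zone, [j])]
  have e1 : vv [(zone, [j])] = y0 j := by
    simp [vv, yev, mev, zev_zone]
  rwa [e1] at h⟩

theorem zev_zero (r : ℝ) : zev r (gz 0) = r - r ^ 2 := by
  have h1 : gz 0 = ([0, 1], [0, 0, 1]) := if_pos rfl
  rw [h1]
  simp [zev, ev_sum, Finset.sum_range_succ]

theorem zev_succ (r : ℝ) (s : ℕ) : zev r (gz (s + 1)) =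
    ((stDn s : ℝ) * r - ((stg s).1 * 3 ^ (s + 5) - 2 ^ (stg s).2)) *
      ((stDn s : ℝ) * r - (stB s : ℝ)) := by
  have h1 : gz (s + 1) = gs s := if_neg (by omega)
  rw [h1]
  unfold gs
  have hD : (stDn s : ℝ) = 2 ^ (stg s).2 * 3 ^ (s + 5) := by
    unfold stDn
    push_cast
    rfl
  have hB : (stB s : ℝ) = ((stg s).1 + 1) * 3 ^ (s + 5) + 2 ^ (stg s).2 := by
    unfold stB
    push_cast
    rfl
  simp only [zev, ev_sum, Finset.sum_range_succ, Finset.sum_range_zero, List.length_cons,
    List.length_nil, List.getD_cons_zero, List.getD_cons_succ]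
  push_cast
  rw [hD, hB]
  ring

theorem yY_sq_zero : yY 0 ^ 2 = tY - tY ^ 2 := by
  apply Subtype.ext
  show y0 0 ^ 2 = r0 - r0 ^ 2
  rw [y0_sq, zev_zero]

theorem yY_sq_succ (s : ℕ) : yY (s + 1) ^ 2 =
    ((stDn s : FY) * tY - ((stg s).1 * 3 ^ (s + 5) - 2 ^ (stg s).2)) *
      ((stDn s : FY) * tY - (stB s : FY)) := by
  apply Subtype.ext
  push_cast
  show y0 (s + 1) ^ 2 = _
  rw [y0_sq, zev_succ]
  rfl

theorem yY_ne (j : ℕ) : yY j ≠ 0 := by
  intro h
  have h1 : y0 j = 0 := congrArg Subtype.val h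
  have h2 := y0_sq j
  rw [h1] at h2
  have := r0_pos j
  rw [← h2] at this
  norm_num at this

theorem tY_ne_nat_div (m d : ℕ) (hd : d ≠ 0) : (m : FY) ≠ (d : FY) * tY := by
  intro h
  have h1 : (m : ℝ) = (d : ℝ) * r0 := by
    have := congrArg Subtype.val h
    push_cast at this
    exact this
  apply r0_tr
  refine ⟨Polynomial.C (m : ℤ) - Polynomial.C (d : ℤ) * Polynomial.X, ?_, ?_⟩
  · intro h0
    have h2 := congrArg (fun p => Polynomial.coeff p 1) h0
    simp only [Polynomial.coeff_sub, Polynomial.coeff_C_mul, Polynomial.coeff_X_one,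
      Polynomial.coeff_C_succ, Polynomial.coeff_zero, mul_one] at h2
    apply hd
    have : (d : ℤ) = 0 := by linarith
    exact_mod_cast this
  · simp only [map_sub, map_mul, Polynomial.aeval_C, Polynomial.aeval_X]
    simp only [algebraMap_int_eq, eq_intCast, Int.cast_natCast]
    rw [h1, sub_self]

end Pool.Agent.Lib.MP_1308e3_lc
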