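import Pool.Agent.Lib.MP_1308e3_lc.Oracle

/-!
# The use principle and the characteristic property of the jump
-/

set_option autoImplicit false

namespace Pool.Agent.Lib.MP_1308e3_lc

open Encodable Denumerable Nat.Partrec

/-- A use function for a partial function relative to `X`. -/
structure IsUse (X : Set ℕ) (f : ℕ →. ℕ) (G : List ℕ → ℕ →. ℕ) : Prop where
  partrec : Partrec₂ G
  mono : ∀ ρ ρ' n y, ρ <+: ρ' → y ∈ G ρ n → y ∈ G ρ' n
  spec : ∀ n y, y ∈ f n ↔ ∃ k, y ∈ G (initSeg X k) n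

theorem IsUse.mono_seg {X : Set ℕ} {f : ℕ →. ℕ} {G : List ℕ → ℕ →. ℕ} (h : IsUse X f G)
    {k k' : ℕ} (hk : k ≤ k') {n y : ℕ} (hy : y ∈ G (initSeg X k) n) : y ∈ G (initSeg X k') n :=
  h.mono _ _ _ _ (initSeg_prefix_of_le X hk) hy

theorem isUse_of_partrec {X : Set ℕ} {f : ℕ →. ℕ} (hf : Nat.Partrec f) :
    IsUse X f fun _ n => f n where
  partrec := (Partrec.nat_iff.2 hf).comp Computable.snd
  mono := fun _ _ _ _ _ h => h
  spec := fun _ _ => ⟨fun h => ⟨0, h⟩, fun ⟨_, h⟩ => h⟩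

theorem isUse_oracle (X : Set ℕ) :
    IsUse X (charFn X) fun ρ n => (ρ[n]? : Part ℕ) where
  partrec := (Computable.list_getElem?.comp Computable.fst Computable.snd).ofOption
  mono := by
    intro ρ ρ' n y h hy
    simp only [Part.mem_coe, Option.mem_def] at hy ⊢
    obtain ⟨τ, rfl⟩ := h
    have hlt : n < ρ.length := by
      by_contra hlt
      rw [List.getElem?_eq_none (not_lt.1 hlt)] at hy
      exact absurd hy (by simp)
    rw [List.getElem?_append_left hlt]
    exact hy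
  spec := by
    intro n y
    constructor
    · intro h
      have h1 : y = chi X n := Part.mem_some_iff.1 h
      refine ⟨n + 1, ?_⟩
      simp only [Part.mem_coe, Option.mem_def]
      rw [initSeg_getElem?, if_pos (Nat.lt_succ_self n), h1]
    · rintro ⟨k, hk⟩
      simp only [Part.mem_coe, Option.mem_def] at hk
      rw [initSeg_getElem?] at hk
      split_ifs at hk with hlt
      exact Part.mem_some_iff.2 (Option.some.inj hk).symm

theorem isUse_pair {X : Set ℕ} {f h : ℕ →. ℕ} {Gf Gh : List ℕ → ℕ →. ℕ} (hf : IsUse X f Gf)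
    (hh : IsUse X h Gh) :
    IsUse X (fun n => Nat.pair <$> f n <*> h n)
      fun ρ n => (Gf ρ n).bind fun a => (Gh ρ n).map fun b => Nat.pair a b where
  partrec := by
    refine Partrec.bind hf.partrec ?_
    refine Partrec.map (hh.partrec.comp (Computable.fst.comp Computable.fst)
      (Computable.snd.comp Computable.fst)) ?_
    exact (Primrec₂.natPair.to_comp.comp (Computable.snd.comp Computable.fst)
      Computable.snd).to₂
  mono := by
    intro ρ ρ' n y hρ hy
    simp only [Part.mem_bind_iff, Part.mem_map_iff] at hy ⊢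
    obtain ⟨a, ha, b, hb, rfl⟩ := hy
    exact ⟨a, hf.mono _ _ _ _ hρ ha, b, hh.mono _ _ _ _ hρ hb, rfl⟩
  spec := by
    intro n y
    have h1 : (y ∈ (Nat.pair <$> f n <*> h n : Part ℕ)) ↔
        ∃ a ∈ f n, ∃ b ∈ h n, Nat.pair a b = y := by
      simp [Seq.seq]
    rw [h1]
    simp only [Part.mem_bind_iff, Part.mem_map_iff]
    constructor
    · rintro ⟨a, ha, b, hb, rfl⟩
      obtain ⟨k1, h2⟩ := (hf.spec n a).1 ha
      obtain ⟨k2, h3⟩ := (hh.spec n b).1 hb
      exact ⟨max k1 k2, a, hf.mono_seg (le_max_left _ _) h2, b,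
        hh.mono_seg (le_max_right _ _) h3, rfl⟩
    · rintro ⟨k, a, ha, b, hb, rfl⟩
      exact ⟨a, (hf.spec n a).2 ⟨k, ha⟩, b, (hh.spec n b).2 ⟨k, hb⟩, rfl⟩

theorem isUse_comp {X : Set ℕ} {f h : ℕ →. ℕ} {Gf Gh : List ℕ → ℕ →. ℕ} (hf : IsUse X f Gf)
    (hh : IsUse X h Gh) :
    IsUse X (fun n => h n >>= f) fun ρ n => (Gh ρ n).bind fun a => Gf ρ a where
  partrec := by
    refine Partrec.bind hh.partrec ?_
    exact hf.partrec.comp (Computable.fst.comp Computable.fst) Computable.snd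
  mono := by
    intro ρ ρ' n y hρ hy
    simp only [Part.mem_bind_iff] at hy ⊢
    obtain ⟨a, ha, hy⟩ := hy
    exact ⟨a, hh.mono _ _ _ _ hρ ha, hf.mono _ _ _ _ hρ hy⟩
  spec := by
    intro n y
    have h0 : y ∈ (h n >>= f : Part ℕ) ↔ ∃ a ∈ h n, y ∈ f a := Part.mem_bind_iff
    refine h0.trans ?_
    simp only [Part.mem_bind_iff]
    constructor
    · rintro ⟨a, ha, hb⟩
      obtain ⟨k1, h2⟩ := (hh.spec n a).1 ha
      obtain ⟨k2, h3⟩ := (hf.spec a y).1 hb
      exact ⟨max k1 k2, a, hh.mono_seg (le_max_left _ _) h2,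
        hf.mono_seg (le_max_right _ _) h3⟩
    · rintro ⟨k, a, ha, hb⟩
      exact ⟨a, (hh.spec n a).2 ⟨k, ha⟩, (hf.spec a y).2 ⟨k, hb⟩⟩

/-- The use function of a primitive recursion. -/
def precUse (Gf Gh : List ℕ → ℕ →. ℕ) (ρ : List ℕ) (p : ℕ) : Part ℕ :=
  Nat.rec (Gf ρ p.unpair.1) (fun y IH => IH.bind fun i =>
    Gh ρ (Nat.pair p.unpair.1 (Nat.pair y i))) p.unpair.2

theorem isUse_prec {X : Set ℕ} {f h : ℕ →. ℕ} {Gf Gh : List ℕ → ℕ →. ℕ} (hf : IsUse X f Gf)
    (hh : IsUse X h Gh) :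
    IsUse X (fun p =>
        let (a, n) := Nat.unpair p
        n.rec (f a) fun y IH => do
          let i ← IH
          h (Nat.pair a (Nat.pair y i))) (precUse Gf Gh) where
  partrec := by
    have h1 : Partrec fun q : List ℕ × ℕ => (Nat.rec (Gf q.1 q.2.unpair.1) (fun y IH => IH.bind fun i =>
        Gh q.1 (Nat.pair q.2.unpair.1 (Nat.pair y i))) q.2.unpair.2 : Part ℕ) := by
      refine Partrec.nat_rec (f := fun q : List ℕ × ℕ => q.2.unpair.2)
        (g := fun q : List ℕ × ℕ => Gf q.1 q.2.unpair.1)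
        (h := fun (q : List ℕ × ℕ) (z : ℕ × ℕ) => Gh q.1 (Nat.pair q.2.unpair.1 (Nat.pair z.1 z.2)))
        ?_ ?_ ?_
      · exact Computable.snd.comp (Computable.unpair.comp Computable.snd)
      · exact hf.partrec.comp Computable.fst (Computable.fst.comp
          (Computable.unpair.comp Computable.snd))
      · refine hh.partrec.comp (Computable.fst.comp Computable.fst) ?_
        refine Primrec₂.natPair.to_comp.comp (Computable.fst.comp (Computable.unpair.comp
          (Computable.snd.comp Computable.fst))) ?_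
        exact Primrec₂.natPair.to_comp.comp (Computable.fst.comp Computable.snd)
          (Computable.snd.comp Computable.snd)
    exact h1
  mono := by
    intro ρ ρ' p y hρ hy
    unfold precUse at hy ⊢
    generalize p.unpair.2 = n at hy ⊢
    induction n generalizing y with
    | zero => exact hf.mono _ _ _ _ hρ hy
    | succ n ih =>
      simp only [Part.mem_bind_iff] at hy ⊢
      obtain ⟨a, ha, hb⟩ := hy
      exact ⟨a, ih _ ha, hh.mono _ _ _ _ hρ hb⟩
  spec := by
    intro p y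
    simp only [precUse]
    generalize p.unpair.2 = n
    generalize p.unpair.1 = a
    induction n generalizing y with
    | zero => exact hf.spec a y
    | succ n ih =>
      simp only [Part.bind_eq_bind, Part.mem_bind_iff] at ih ⊢
      constructor
      · rintro ⟨i, hi, hy⟩
        obtain ⟨k1, h2⟩ := (ih i).1 hi
        obtain ⟨k2, h3⟩ := (hh.spec _ y).1 hy
        refine ⟨max k1 k2, i, ?_, hh.mono_seg (le_max_right _ _) h3⟩
        -- monotonicity of the recursion
        have hmono : ∀ (ρ ρ' : List ℕ) (n : ℕ) (y : ℕ), ρ <+: ρ' →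
            y ∈ (Nat.rec (Gf ρ a) (fun y IH => IH.bind fun i =>
              Gh ρ (Nat.pair a (Nat.pair y i))) n : Part ℕ) →
            y ∈ (Nat.rec (Gf ρ' a) (fun y IH => IH.bind fun i =>
              Gh ρ' (Nat.pair a (Nat.pair y i))) n : Part ℕ) := by
          intro ρ ρ' n y hρ hy
          induction n generalizing y with
          | zero => exact hf.mono _ _ _ _ hρ hy
          | succ n ih =>
            simp only [Part.mem_bind_iff] at hy ⊢
            obtain ⟨a, ha, hb⟩ := hy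
            exact ⟨a, ih _ ha, hh.mono _ _ _ _ hρ hb⟩
        exact hmono _ _ n i (initSeg_prefix_of_le X (le_max_left _ _)) h2
      · rintro ⟨k, i, hi, hy⟩
        exact ⟨i, (ih i).2 ⟨k, hi⟩, (hh.spec _ y).2 ⟨k, hy⟩⟩

theorem isUse_rfind {X : Set ℕ} {f : ℕ →. ℕ} {Gf : List ℕ → ℕ →. ℕ} (hf : IsUse X f Gf) :
    IsUse X (fun a => Nat.rfind fun n => (fun m => decide (m = 0)) <$> f (Nat.pair a n))
      fun ρ a => Nat.rfind fun n => (Gf ρ (Nat.pair a n)).map fun m => decide (m = 0) where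
  partrec := by
    have h1 : Partrec₂ fun (q : List ℕ × ℕ) (n : ℕ) =>
        (Gf q.1 (Nat.pair q.2 n)).map fun m => decide (m = 0) := by
      refine Partrec.map (hf.partrec.comp (Computable.fst.comp Computable.fst)
        (Primrec₂.natPair.to_comp.comp (Computable.snd.comp Computable.fst) Computable.snd)) ?_
      have h2 : PrimrecPred fun p : (( List ℕ × ℕ) × ℕ) × ℕ => p.2 = 0 :=
        Primrec.eq.comp Primrec.snd (Primrec.const 0)
      exact h2.decide.to_comp.to₂
    exact Partrec.rfind h1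
  mono := by
    intro ρ ρ' a y hρ hy'
    have hy := Nat.mem_rfind.1 hy'
    refine Nat.mem_rfind.2 ⟨?_, fun {m} hm => ?_⟩
    · obtain ⟨b, hb, h1⟩ := (Part.mem_map_iff _).1 hy.1
      exact (Part.mem_map_iff _).2 ⟨b, hf.mono _ _ _ _ hρ hb, h1⟩
    · obtain ⟨b, hb, h1⟩ := (Part.mem_map_iff _).1 (hy.2 hm)
      exact (Part.mem_map_iff _).2 ⟨b, hf.mono _ _ _ _ hρ hb, h1⟩
  spec := by
    intro a y
    constructor
    · intro h0
      obtain ⟨h1, h2⟩ := Nat.mem_rfind.1 h0
      obtain ⟨b, hb, h3⟩ := (Part.mem_map_iff _).1 h1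
      obtain ⟨k, hk⟩ := (hf.spec _ b).1 hb
      have h4 : ∀ m, ∃ k, m < y → false ∈ (Gf (initSeg X k) (Nat.pair a m)).map
          fun m => decide (m = 0) := by
        intro m
        by_cases hm : m < y
        · obtain ⟨b, hb, h3⟩ := (Part.mem_map_iff _).1 (h2 hm)
          obtain ⟨k, hk⟩ := (hf.spec _ b).1 hb
          exact ⟨k, fun _ => (Part.mem_map_iff _).2 ⟨b, hk, h3⟩⟩
        · exact ⟨0, fun h => absurd h hm⟩
      choose K hK using h4
      let k' := max k ((Finset.range y).sup K)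
      refine ⟨k', Nat.mem_rfind.2 ?_⟩
      refine ⟨(Part.mem_map_iff _).2 ⟨b, hf.mono_seg (le_max_left _ _) hk, h3⟩, fun {m} hm => ?_⟩
      obtain ⟨b, hb, h5⟩ := (Part.mem_map_iff _).1 (hK m hm)
      refine (Part.mem_map_iff _).2 ⟨b, hf.mono_seg ?_ hb, h5⟩
      exact le_trans (Finset.le_sup (f := K) (Finset.mem_range.2 hm)) (le_max_right _ _)
    · rintro ⟨k, hk'⟩
      have hk := Nat.mem_rfind.1 hk'
      refine Nat.mem_rfind.2 ⟨?_, fun {m} hm => ?_⟩
      · obtain ⟨b, hb, h3⟩ := (Part.mem_map_iff _).1 hk.1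
        exact (Part.mem_map_iff _).2 ⟨b, (hf.spec _ b).2 ⟨k, hb⟩, h3⟩
      · obtain ⟨b, hb, h3⟩ := (Part.mem_map_iff _).1 (hk.2 hm)
        exact (Part.mem_map_iff _).2 ⟨b, (hf.spec _ b).2 ⟨k, hb⟩, h3⟩

/-- The use principle: every function recursive in `X` has a use function. -/
theorem exists_use {X : Set ℕ} {f : ℕ →. ℕ} (hf : Nat.RecursiveIn {charFn X} f) :
    ∃ G, IsUse X f G := by
  induction hf with
  | zero => exact ⟨_, isUse_of_partrec Nat.Partrec.zero⟩
  | succ => exact ⟨_, isUse_of_partrec Nat.Partrec.succ⟩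
  | left => exact ⟨_, isUse_of_partrec Nat.Partrec.left⟩
  | right => exact ⟨_, isUse_of_partrec Nat.Partrec.right⟩
  | oracle g hg =>
    rw [Set.mem_singleton_iff.1 hg]
    exact ⟨_, isUse_oracle X⟩
  | pair _ _ ihf ihh =>
    obtain ⟨Gf, hGf⟩ := ihf
    obtain ⟨Gh, hGh⟩ := ihh
    exact ⟨_, isUse_pair hGf hGh⟩
  | comp _ _ ihf ihh =>
    obtain ⟨Gf, hGf⟩ := ihf
    obtain ⟨Gh, hGh⟩ := ihh
    exact ⟨_, isUse_comp hGf hGh⟩
  | prec _ _ ihf ihh =>
    obtain ⟨Gf, hGf⟩ := ihf
    obtain ⟨Gh, hGh⟩ := ihh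
    exact ⟨_, isUse_prec hGf hGh⟩
  | rfind _ ihf =>
    obtain ⟨Gf, hGf⟩ := ihf
    exact ⟨_, isUse_rfind hGf⟩

/-- A set enumerated by a c.e. operator from `X` is many-one reducible to the jump of `X`. -/
theorem le_jump {X : Set ℕ} {G : List ℕ → ℕ →. ℕ} (hG : Partrec₂ G) {S : Set ℕ}
    (hS : ∀ n, n ∈ S ↔ ∃ k, (G (initSeg X k) n).Dom) :
    ManyOneReducible (fun n => n ∈ S) (fun n => n ∈ jump X) := by
  have hD : Nat.Partrec fun p : ℕ => G (ofNat (List ℕ) p.unpair.2.unpair.1) p.unpair.1 :=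
    Partrec.nat_iff.1 (hG.comp ((Computable.ofNat (List ℕ)).comp
      (Computable.fst.comp (Computable.unpair.comp (Computable.snd.comp Computable.unpair))))
      (Computable.fst.comp Computable.unpair))
  obtain ⟨c, hc⟩ := Code.exists_code.1 hD
  refine ⟨fun e => encode (Code.curry c e), ?_, ?_⟩
  · exact (Primrec.encode.comp (Code.primrec₂_curry.comp (Primrec.const c) Primrec.id)).to_comp
  · intro e
    refine (hS e).trans ?_
    show _ ↔ ∃ k, ((ofNat Code (encode (Code.curry c e))).eval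
      (Nat.pair (encode (initSeg X k)) (encode (Code.curry c e)))).Dom
    refine exists_congr fun k => ?_
    rw [ofNat_encode, Code.eval_curry, hc]
    simp

/-- The domain of every partial function recursive in `X` is many-one reducible to the jump. -/
theorem dom_le_jump {X : Set ℕ} {f : ℕ →. ℕ} (hf : Nat.RecursiveIn {charFn X} f) :
    ManyOneReducible (fun n => (f n).Dom) (fun n => n ∈ jump X) := by
  obtain ⟨G, hG⟩ := exists_use hf
  refine le_jump (S := {n | (f n).Dom}) hG.partrec ?_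
  intro n
  constructor
  · intro h
    obtain ⟨y, hy⟩ := Part.dom_iff_mem.1 h
    obtain ⟨k, hk⟩ := (hG.spec n y).1 hy
    exact ⟨k, Part.dom_iff_mem.2 ⟨y, hk⟩⟩
  · rintro ⟨k, h⟩
    obtain ⟨y, hy⟩ := Part.dom_iff_mem.1 h
    exact Part.dom_iff_mem.2 ⟨y, (hG.spec n y).2 ⟨k, hy⟩⟩

/-- The jump of `X` is the domain of a partial function recursive in `X`. -/
theorem jump_eq_dom (X : Set ℕ) :
    ∃ f : ℕ →. ℕ, Nat.RecursiveIn {charFn X} f ∧ ∀ n, n ∈ jump X ↔ (f n).Dom := by
  let G : List ℕ → ℕ →. ℕ := fun ρ e =>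
    ((ofNat Code e).eval (Nat.pair (encode ρ) e)).map fun _ => 0
  have hG : Partrec₂ G := by
    refine Partrec.map (Code.eval_part.comp ((Computable.ofNat Code).comp Computable.snd)
      (Primrec₂.natPair.to_comp.comp (Computable.encode.comp Computable.fst)
        Computable.snd)) (Computable.const 0)
  let f : ℕ →. ℕ := fun n => ⟨n ∈ jump X, fun _ => 0⟩
  refine ⟨f, recursiveIn_of_use hG ?_, fun n => Iff.rfl⟩
  intro n y
  constructor
  · rintro ⟨⟨k, hk⟩, hy⟩
    refine ⟨k, ?_⟩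
    have h1 : y = 0 := hy.symm
    rw [h1]
    exact (Part.mem_map_iff _).2 ⟨_, Part.get_mem hk, rfl⟩
  · rintro ⟨k, hk⟩
    obtain ⟨z, hz, hy⟩ := (Part.mem_map_iff _).1 hk
    exact ⟨⟨k, Part.dom_iff_mem.2 ⟨z, hz⟩⟩, hy⟩

theorem charFn_reducible_of_manyOne {S T : Set ℕ}
    (h : ManyOneReducible (fun n => n ∈ S) (fun n => n ∈ T)) :
    TuringReducible (charFn S) (charFn T) := by
  obtain ⟨g, hg, hST⟩ := h
  rw [TuringReducible, RecursiveIn.iff_nat]
  refine (tot_comp (charFn_recursiveIn T) (tot_of_computable hg)).of_eq fun n => ?_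
  show Part.some _ = Part.some _
  congr 1
  have h1 := hST n
  simp only at h1
  by_cases hn : n ∈ S
  · rw [chi_eq_one.2 hn, chi_eq_one.2 (h1.1 hn)]
  · rw [chi_eq_zero.2 hn, chi_eq_zero.2 (fun h => hn (h1.2 h))]

/-- The jump is monotone for Turing reducibility. -/
theorem jump_mono {S T : Set ℕ} (h : TuringReducible (charFn S) (charFn T)) :
    TuringReducible (charFn (jump S)) (charFn (jump T)) := by
  obtain ⟨f, hf, hfS⟩ := jump_eq_dom S
  have h1 : Nat.RecursiveIn {charFn T} f := by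
    refine Nat.RecursiveIn.subst hf fun g hg => ?_
    rw [Set.mem_singleton_iff.1 hg]
    exact RecursiveIn.iff_nat.1 h
  apply charFn_reducible_of_manyOne
  obtain ⟨g, hg, hg'⟩ := dom_le_jump h1
  exact ⟨g, hg, fun n => (hfS n).trans (hg' n)⟩

theorem IsLow.of_le {S T : Set ℕ} (h : TuringReducible (charFn S) (charFn T)) (hT : IsLow T) :
    IsLow S := (jump_mono h).trans hT

end Pool.Agent.Lib.MP_1308e3_lc
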