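import Pool.Agent.Lib.MP_1308e3_lc.FieldCodes
import Pool.Agent.Lib.MP_1308e3_lc.Use

/-!
# The ordering is computable from the coded set
-/

set_option autoImplicit false

namespace Pool.Agent.Lib.MP_1308e3_lc

open Encodable Denumerable Filter Topology

theorem seqM_congr {χ χ' : ℕ → ℕ} {k : ℕ} (h : ∀ i < k, χ i = χ' i) : seqM χ k = seqM χ' k := by
  induction k with
  | zero => rfl
  | succ k ih =>
    rw [seqM, seqM, ih fun i hi => h i (by omega), h k (by omega)]

/-- The numerator computed from an initial segment. -/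
def seqL (ρ : List ℕ) : ℕ :=
  Nat.rec 0 (fun i m => (m + ρ.getD i 0 + 1) * 4 ^ (E (i + 1) - E i)) ρ.length

theorem seqL_eq (ρ : List ℕ) : seqL ρ = seqM (fun i => ρ.getD i 0) ρ.length := by
  unfold seqL
  generalize ρ.length = k
  induction k with
  | zero => rfl
  | succ k ih =>
    simp only
    rw [ih, seqM]

theorem seqL_initSeg (X : Set ℕ) (k : ℕ) : seqL (initSeg X k) = seqM (chi X) k := by
  rw [seqL_eq, initSeg_length]
  apply seqM_congr
  intro i hi
  rw [List.getD_eq_getElem?_getD, initSeg_getElem?, if_pos hi]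
  rfl

theorem E_primrec : Primrec E := by
  have h1 : Primrec fun k : ℕ => (Nat.rec 1 (fun i m => (i + 2) * m) k : ℕ) := by
    refine Primrec.nat_rec₁ 1 ?_
    exact Primrec.nat_mul.comp (Primrec.nat_add.comp Primrec.fst (Primrec.const 2)) Primrec.snd
  refine h1.of_eq fun k => ?_
  induction k with
  | zero => rfl
  | succ k ih =>
    simp only at ih ⊢
    rw [ih, E_succ]

theorem pow_primrec : Primrec₂ fun a b : ℕ => a ^ b := Primrec₂.unpaired'.1 Nat.Primrec.pow

theorem seqL_primrec : Primrec seqL := by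
  refine Primrec.nat_rec' (f := fun ρ : List ℕ => ρ.length) (g := fun _ => 0)
    (h := fun (ρ : List ℕ) (p : ℕ × ℕ) => (p.2 + ρ.getD p.1 0 + 1) * 4 ^ (E (p.1 + 1) - E p.1))
    Primrec.list_length (Primrec.const 0) ?_
  have hi : Primrec fun q : List ℕ × ℕ × ℕ => q.2.1 := Primrec.fst.comp Primrec.snd
  refine Primrec.nat_mul.comp (Primrec.succ.comp (Primrec.nat_add.comp
    (Primrec.snd.comp Primrec.snd) ((Primrec.list_getD 0).comp Primrec.fst hi))) ?_
  exact pow_primrec.comp (Primrec.const 4) (Primrec.nat_sub.comp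
    (E_primrec.comp (Primrec.succ.comp hi)) (E_primrec.comp hi))

/-- The decision with the approximations given by an initial segment. -/
def decideZ (ρ : List ℕ) (z : Z) : Option ℕ :=
  if zz z then some 0
  else if hev z.2 (seqL ρ + 3) (4 ^ E ρ.length) (z.1.length + z.2.length) <
      hev z.1 (seqL ρ) (4 ^ E ρ.length) (z.1.length + z.2.length) then some 1
  else if hev z.1 (seqL ρ + 3) (4 ^ E ρ.length) (z.1.length + z.2.length) <
      hev z.2 (seqL ρ) (4 ^ E ρ.length) (z.1.length + z.2.length) then some 0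
  else none

theorem decideZ_primrec : Primrec₂ decideZ := by
  have hs : Primrec fun p : List ℕ × Z => seqL p.1 := seqL_primrec.comp Primrec.fst
  have hs3 : Primrec fun p : List ℕ × Z => seqL p.1 + 3 :=
    Primrec.nat_add.comp hs (Primrec.const 3)
  have hD : Primrec fun p : List ℕ × Z => 4 ^ E p.1.length :=
    pow_primrec.comp (Primrec.const 4) (E_primrec.comp (Primrec.list_length.comp Primrec.fst))
  have h1 : Primrec fun p : List ℕ × Z => p.2.1 := Primrec.fst.comp Primrec.snd
  have h2 : Primrec fun p : List ℕ × Z => p.2.2 := Primrec.snd.comp Primrec.snd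
  have hL : Primrec fun p : List ℕ × Z => p.2.1.length + p.2.2.length :=
    Primrec.nat_add.comp (Primrec.list_length.comp h1) (Primrec.list_length.comp h2)
  have e1 : Primrec fun p : List ℕ × Z =>
      hev p.2.2 (seqL p.1 + 3) (4 ^ E p.1.length) (p.2.1.length + p.2.2.length) :=
    hev_primrec.comp (h2.pair (hs3.pair (hD.pair hL)))
  have e2 : Primrec fun p : List ℕ × Z =>
      hev p.2.1 (seqL p.1) (4 ^ E p.1.length) (p.2.1.length + p.2.2.length) :=
    hev_primrec.comp (h1.pair (hs.pair (hD.pair hL)))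
  have e3 : Primrec fun p : List ℕ × Z =>
      hev p.2.1 (seqL p.1 + 3) (4 ^ E p.1.length) (p.2.1.length + p.2.2.length) :=
    hev_primrec.comp (h1.pair (hs3.pair (hD.pair hL)))
  have e4 : Primrec fun p : List ℕ × Z =>
      hev p.2.2 (seqL p.1) (4 ^ E p.1.length) (p.2.1.length + p.2.2.length) :=
    hev_primrec.comp (h2.pair (hs.pair (hD.pair hL)))
  exact Primrec.ite (zz_primrec.comp Primrec.snd) (Primrec.const _)
    (Primrec.ite (Primrec.nat_lt.comp e1 e2) (Primrec.const _)
      (Primrec.ite (Primrec.nat_lt.comp e3 e4) (Primrec.const _) (Primrec.const _)))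

/-- Comparing approximations. -/
theorem hev_lt_iff (χ : ℕ → ℕ) (k : ℕ) (xs ys : List ℕ) (L : ℕ) (hx : xs.length ≤ L)
    (hy : ys.length ≤ L) :
    hev ys (seqM χ k + 3) (4 ^ E k) L < hev xs (seqM χ k) (4 ^ E k) L ↔
      ev (upB χ k) ys < ev (lowA χ k) xs := by
  have hD : 0 < 4 ^ E k := by positivity
  have h1 := hev_eq ys (seqM χ k + 3) (4 ^ E k) L hD hy
  have h2 := hev_eq xs (seqM χ k) (4 ^ E k) L hD hx
  rw [← Nat.cast_lt (α := ℝ), h1, h2]
  have h3 : (0 : ℝ) < ((4 ^ E k : ℕ) : ℝ) ^ L := by positivity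
  rw [mul_lt_mul_iff_left₀ h3]
  rfl

section

variable {χ : ℕ → ℕ} (hχ : ∀ n, χ n ≤ 1)

include hχ

theorem ev_lt_of_approx {k : ℕ} {xs ys : List ℕ} (h : ev (upB χ k) ys < ev (lowA χ k) xs) :
    ev (rr χ) ys < ev (rr χ) xs := by
  have h0 : 0 ≤ lowA χ k := by
    unfold lowA
    positivity
  exact (ev_mono (rr_pos hχ).le (rr_le_upB hχ k) ys).trans_lt
    (h.trans_le (ev_mono h0 (lowA_lt_rr hχ k).le xs))

theorem exists_approx {xs ys : List ℕ} (h : ev (rr χ) ys < ev (rr χ) xs) :
    ∃ k, ev (upB χ k) ys < ev (lowA χ k) xs := by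
  have h1 : Tendsto (fun k => ev (upB χ k) ys) atTop (𝓝 (ev (rr χ) ys)) :=
    ((ev_continuous ys).tendsto _).comp (tendsto_upB hχ)
  have h2 : Tendsto (fun k => ev (lowA χ k) xs) atTop (𝓝 (ev (rr χ) xs)) :=
    ((ev_continuous xs).tendsto _).comp (tendsto_lowA hχ)
  exact (h1.eventually_lt h2 h).exists

end

/-- The order on the domain given by the real coding `X`, as a set of pairs. -/
def ordSet (X : Set ℕ) : Set ℕ :=
  {p | p.unpair.1 ∈ Dom ∧ p.unpair.2 ∈ Dom ∧
    delta (rr (chi X)) p.unpair.1 < delta (rr (chi X)) p.unpair.2}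

theorem decideZ_sound {X : Set ℕ} {k : ℕ} {z : Z} {y : ℕ} (h : decideZ (initSeg X k) z = some y) :
    (y = 1 ∧ ev (rr (chi X)) z.2 < ev (rr (chi X)) z.1) ∨
      (y = 0 ∧ ¬ ev (rr (chi X)) z.2 < ev (rr (chi X)) z.1) := by
  have hχ : ∀ n, chi X n ≤ 1 := chi_le_one X
  unfold decideZ at h
  rw [seqL_initSeg, initSeg_length] at h
  split_ifs at h with h1 h2 h3
  · right
    refine ⟨(Option.some.inj h).symm, ?_⟩
    have h4 := (zev_eq_zero (rr_transcendental hχ)).2 h1
    rw [zev, sub_eq_zero] at h4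
    rw [h4]
    exact lt_irrefl _
  · left
    refine ⟨(Option.some.inj h).symm, ?_⟩
    exact ev_lt_of_approx hχ ((hev_lt_iff _ _ _ _ _ (by omega) (by omega)).1 h2)
  · right
    refine ⟨(Option.some.inj h).symm, ?_⟩
    exact (ev_lt_of_approx hχ ((hev_lt_iff _ _ _ _ _ (by omega) (by omega)).1 h3)).not_gt

theorem decideZ_complete (X : Set ℕ) (z : Z) : ∃ k y, decideZ (initSeg X k) z = some y := by
  have hχ : ∀ n, chi X n ≤ 1 := chi_le_one X
  by_cases h1 : zz z
  · exact ⟨0, 0, by unfold decideZ; rw [if_pos h1]⟩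
  · have h2 : ev (rr (chi X)) z.1 ≠ ev (rr (chi X)) z.2 := by
      intro h
      apply h1
      apply (zev_eq_zero (rr_transcendental hχ)).1
      rw [zev, h, sub_self]
    rcases lt_or_gt_of_ne h2 with h3 | h3
    · obtain ⟨k, hk⟩ := exists_approx hχ h3
      have hk' := (hev_lt_iff (chi X) k z.2 z.1 (z.1.length + z.2.length) (by omega)
        (by omega)).2 hk
      refine ⟨k, ?_⟩
      unfold decideZ
      rw [seqL_initSeg, initSeg_length, if_neg h1]
      split_ifs
      · exact ⟨_, rfl⟩
      · exact ⟨_, rfl⟩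
    · obtain ⟨k, hk⟩ := exists_approx hχ h3
      have hk' := (hev_lt_iff (chi X) k z.1 z.2 (z.1.length + z.2.length) (by omega)
        (by omega)).2 hk
      refine ⟨k, ?_⟩
      unfold decideZ
      rw [seqL_initSeg, initSeg_length, if_neg h1, if_pos hk']
      exact ⟨_, rfl⟩

open Classical in
/-- The use function for the order. -/
noncomputable def ordUse (ρ : List ℕ) (p : ℕ) : Option ℕ :=
  cond (decide (p.unpair.1 ∈ Dom) && decide (p.unpair.2 ∈ Dom))
    (decideZ ρ (ltC p.unpair.1 p.unpair.2)) (some 0)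

theorem ordUse_computable : Computable₂ ordUse := by
  classical
  have hdom : Computable fun n : ℕ => decide (n ∈ Dom) := by
    obtain ⟨_, h⟩ := Dom_computable
    exact h.of_eq fun n => by congr
  have h1 : Computable fun q : List ℕ × ℕ => decide (q.2.unpair.1 ∈ Dom) :=
    hdom.comp (Computable.fst.comp (Computable.unpair.comp Computable.snd))
  have h2 : Computable fun q : List ℕ × ℕ => decide (q.2.unpair.2 ∈ Dom) :=
    hdom.comp (Computable.snd.comp (Computable.unpair.comp Computable.snd))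
  have h3 : Computable fun q : List ℕ × ℕ => (decide (q.2.unpair.1 ∈ Dom) &&
      decide (q.2.unpair.2 ∈ Dom)) := Primrec.and.to_comp.comp h1 h2
  have h4 : Primrec fun q : List ℕ × ℕ => decideZ q.1 (ltC q.2.unpair.1 q.2.unpair.2) :=
    decideZ_primrec.comp Primrec.fst (ltC_primrec.comp
      (Primrec.fst.comp (Primrec.unpair.comp Primrec.snd))
      (Primrec.snd.comp (Primrec.unpair.comp Primrec.snd)))
  refine (Computable.cond h3 h4.to_comp (Computable.const (some 0))).of_eq fun q => ?_
  unfold ordUse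
  congr

theorem ordUse_sound {X : Set ℕ} {k p y : ℕ} (h : ordUse (initSeg X k) p = some y) :
    y = chi (ordSet X) p := by
  classical
  have hr := rr_transcendental (chi_le_one X)
  unfold ordUse at h
  by_cases hd : p.unpair.1 ∈ Dom ∧ p.unpair.2 ∈ Dom
  · have h1 : (decide (p.unpair.1 ∈ Dom) && decide (p.unpair.2 ∈ Dom)) = true := by
      simp [hd.1, hd.2]
    rw [h1, cond_true] at h
    rcases decideZ_sound h with ⟨hy, hlt⟩ | ⟨hy, hlt⟩
    · rw [hy]
      symm
      rw [chi_eq_one]
      exact ⟨hd.1, hd.2, (ltC_iff hr _ _).2 hlt⟩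
    · rw [hy]
      symm
      rw [chi_eq_zero]
      rintro ⟨_, _, h2⟩
      exact hlt ((ltC_iff hr _ _).1 h2)
  · have h1 : (decide (p.unpair.1 ∈ Dom) && decide (p.unpair.2 ∈ Dom)) = false := by
      rw [Bool.and_eq_false_iff]
      rw [not_and_or] at hd
      rcases hd with hd | hd
      · left
        exact decide_eq_false hd
      · right
        exact decide_eq_false hd
    rw [h1, cond_false] at h
    rw [← Option.some.inj h]
    symm
    rw [chi_eq_zero]
    rintro ⟨h2, h3, _⟩
    exact hd ⟨h2, h3⟩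

theorem ordSet_le (X : Set ℕ) : TuringReducible (charFn (ordSet X)) (charFn X) := by
  classical
  rw [TuringReducible, RecursiveIn.iff_nat]
  refine recursiveIn_of_use (G := fun ρ n => (ordUse ρ n : Part ℕ)) ordUse_computable.ofOption ?_
  intro p y
  constructor
  · intro h
    have hy : y = chi (ordSet X) p := Part.mem_some_iff.1 h
    have hex : ∃ k y', ordUse (initSeg X k) p = some y' := by
      by_cases hd : p.unpair.1 ∈ Dom ∧ p.unpair.2 ∈ Dom
      · obtain ⟨k, y', hk⟩ := decideZ_complete X (ltC p.unpair.1 p.unpair.2)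
        refine ⟨k, y', ?_⟩
        unfold ordUse
        have h1 : (decide (p.unpair.1 ∈ Dom) && decide (p.unpair.2 ∈ Dom)) = true := by
          simp [hd.1, hd.2]
        rw [h1, cond_true]
        exact hk
      · refine ⟨0, 0, ?_⟩
        unfold ordUse
        have h1 : (decide (p.unpair.1 ∈ Dom) && decide (p.unpair.2 ∈ Dom)) = false := by
          rw [Bool.and_eq_false_iff]
          rw [not_and_or] at hd
          rcases hd with hd | hd
          · left
            exact decide_eq_false hd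
          · right
            exact decide_eq_false hd
        rw [h1, cond_false]
    obtain ⟨k, y', hk⟩ := hex
    refine ⟨k, ?_⟩
    rw [hy, ← ordUse_sound hk]
    exact Part.mem_coe.2 hk
  · rintro ⟨k, hk⟩
    exact Part.mem_some_iff.2 (ordUse_sound (Part.mem_coe.1 hk))

end Pool.Agent.Lib.MP_1308e3_lc
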