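import Pool.Agent.Lib.MP_1308e3_lc.FieldCodes
import Pool.Agent.Lib.MP_1308e3_lc.OrderLow

/-!
# The radicands: quadratic polynomials whose root intervals cover all computable cuts
-/

set_option autoImplicit false

namespace Pool.Agent.Lib.MP_1308e3_lc

open Encodable Denumerable Nat.Partrec Polynomial

/-- The interval chosen at stage `s = ⟨e, k⟩`: if the `e`-th program halts on `e + 3` within `k`
steps with value `M`, then `(M, e + 3)`, otherwise a filler. -/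
def stg (s : ℕ) : ℕ × ℕ :=
  ((Code.evaln s.unpair.2 (ofNat Code s.unpair.1) (s.unpair.1 + 3)).map
    fun M => (M, s.unpair.1 + 3)).getD (5, 0)

theorem stg_primrec : Primrec stg := by
  have h1 : Primrec fun s : ℕ => s.unpair.1 := Primrec.fst.comp Primrec.unpair
  have h3 : Primrec fun s : ℕ => s.unpair.1 + 3 := Primrec.nat_add.comp h1 (Primrec.const 3)
  have hev : Primrec fun s : ℕ =>
      Code.evaln s.unpair.2 (ofNat Code s.unpair.1) (s.unpair.1 + 3) :=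
    Code.primrec_evaln.comp (Primrec.pair (Primrec.pair (Primrec.snd.comp Primrec.unpair)
      ((Primrec.ofNat Code).comp h1)) h3)
  refine Primrec.option_getD.comp (Primrec.option_map hev ?_) (Primrec.const (5, 0))
  exact Primrec.pair Primrec.snd (h3.comp Primrec.fst)

/-- The upper end times the denominator. -/
def stB (s : ℕ) : ℕ := ((stg s).1 + 1) * 3 ^ (s + 5) + 2 ^ (stg s).2

/-- The common denominator of the ends. -/
def stDn (s : ℕ) : ℕ := 2 ^ (stg s).2 * 3 ^ (s + 5)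

/-- The code of the quadratic polynomial of stage `s`. -/
def gs (s : ℕ) : Z :=
  ([(stg s).1 * 3 ^ (s + 5) * stB s, 0, stDn s ^ 2],
    [2 ^ (stg s).2 * stB s, stDn s * ((2 * (stg s).1 + 1) * 3 ^ (s + 5))])

/-- The codes of the radicands. -/
def gz (j : ℕ) : Z := if j = 0 then ([0, 1], [0, 0, 1]) else gs (j - 1)

theorem gs_primrec : Primrec gs := by
  have hP : Primrec fun s : ℕ => (stg s).1 := Primrec.fst.comp stg_primrec
  have hn : Primrec fun s : ℕ => (stg s).2 := Primrec.snd.comp stg_primrec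
  have h3 : Primrec fun s : ℕ => 3 ^ (s + 5) :=
    pow_primrec.comp (Primrec.const 3) (Primrec.nat_add.comp Primrec.id (Primrec.const 5))
  have h2 : Primrec fun s : ℕ => 2 ^ (stg s).2 := pow_primrec.comp (Primrec.const 2) hn
  have hB : Primrec stB := Primrec.nat_add.comp (Primrec.nat_mul.comp (Primrec.succ.comp hP) h3) h2
  have hD : Primrec stDn := Primrec.nat_mul.comp h2 h3
  refine Primrec.pair ?_ ?_
  · refine Primrec.list_cons.comp (Primrec.nat_mul.comp (Primrec.nat_mul.comp hP h3) hB)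
      (Primrec.list_cons.comp (Primrec.const 0) (Primrec.list_cons.comp ?_ (Primrec.const [])))
    exact pow_primrec.comp hD (Primrec.const 2)
  · refine Primrec.list_cons.comp (Primrec.nat_mul.comp h2 hB)
      (Primrec.list_cons.comp ?_ (Primrec.const []))
    refine Primrec.nat_mul.comp hD (Primrec.nat_mul.comp ?_ h3)
    exact Primrec.succ.comp (Primrec.nat_mul.comp (Primrec.const 2) hP)

theorem gz_primrec : Primrec gz :=
  Primrec.ite (Primrec.eq.comp Primrec.id (Primrec.const 0)) (Primrec.const _)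
    (gs_primrec.comp (Primrec.nat_sub.comp Primrec.id (Primrec.const 1)))

/-! ### Polynomials over `ℤ` and `ℚ` -/

/-- The polynomial coded by an element of `Z`. -/
noncomputable def pz (a : Z) : ℤ[X] :=
  (poly a.1).map (Nat.castRingHom ℤ) - (poly a.2).map (Nat.castRingHom ℤ)

theorem aeval_pz (r : ℝ) (a : Z) : aeval r (pz a) = zev r a := by
  unfold pz zev ev
  rw [map_sub]
  congr 1 <;>
  · rw [aeval_def, aeval_def, eval₂_map]
    congr 1

theorem poly_three (a b c : ℕ) : poly [a, b, c] = C a + C b * X + C c * X ^ 2 := by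
  simp [poly, Finset.sum_range_succ, ← C_mul_X_pow_eq_monomial]

theorem poly_two (a b : ℕ) : poly [a, b] = C a + C b * X := by
  simp [poly, Finset.sum_range_succ, ← C_mul_X_pow_eq_monomial]

/-- The roots. -/
def ra (j : ℕ) : ℚ := if j = 0 then 0 else
  ((stg (j - 1)).1 : ℚ) / 2 ^ (stg (j - 1)).2 - 1 / 3 ^ (j - 1 + 5)

/-- The roots. -/
def rb (j : ℕ) : ℚ := if j = 0 then 1 else
  (((stg (j - 1)).1 : ℚ) + 1) / 2 ^ (stg (j - 1)).2 + 1 / 3 ^ (j - 1 + 5)

/-- The leading coefficients. -/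
def lc (j : ℕ) : ℚ := if j = 0 then -1 else (stDn (j - 1) : ℚ) ^ 2

theorem lc_ne (j : ℕ) : lc j ≠ 0 := by
  unfold lc stDn
  split_ifs
  · norm_num
  · positivity

theorem map_pz_gz (j : ℕ) : (pz (gz j)).map (Int.castRingHom ℚ) =
    C (lc j) * ((X - C (ra j)) * (X - C (rb j))) := by
  unfold pz
  rw [Polynomial.map_sub, Polynomial.map_map, Polynomial.map_map]
  by_cases hj : j = 0
  · subst hj
    have h1 : gz 0 = ([0, 1], [0, 0, 1]) := if_pos rfl
    rw [h1, poly_two, poly_three]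
    have h2 : lc 0 = -1 := if_pos rfl
    have h3 : ra 0 = 0 := if_pos rfl
    have h4 : rb 0 = 1 := if_pos rfl
    rw [h2, h3, h4]
    simp only [Polynomial.map_add, Polynomial.map_mul,
      Polynomial.map_pow, Polynomial.map_X, map_zero, map_one, Polynomial.map_zero,
      Polynomial.map_one, map_neg]
    ring
  · have h1 : gz j = gs (j - 1) := if_neg hj
    rw [h1]
    unfold gs ra rb lc
    rw [if_neg hj, if_neg hj, if_neg hj, poly_two, poly_three]
    set s := j - 1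
    set P := (stg s).1 with hP
    set n := (stg s).2 with hn
    have hB : stB s = (P + 1) * 3 ^ (s + 5) + 2 ^ n := rfl
    have hD : stDn s = 2 ^ n * 3 ^ (s + 5) := rfl
    rw [hB, hD]
    set m := s + 5
    have h2 : (2 : ℚ) ^ n ≠ 0 := by positivity
    have h3 : (3 : ℚ) ^ m ≠ 0 := by positivity
    simp only [Polynomial.map_add, Polynomial.map_mul, Polynomial.map_pow, Polynomial.map_X,
      Polynomial.map_C]
    have e1 : ∀ q : ℕ, C (((Int.castRingHom ℚ).comp (Nat.castRingHom ℤ)) q) = (C (q : ℚ) : ℚ[X]) :=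
      fun q => by simp
    simp only [e1]
    have key : ∀ u v w : ℚ, C u + C v * X + C w * X ^ 2 = (C w * X ^ 2 + C v * X + C u : ℚ[X]) :=
      fun u v w => by ring
    have e2 : C ((2 ^ n * 3 ^ m : ℕ) : ℚ) = (C ((2 : ℚ) ^ n) * C ((3 : ℚ) ^ m) : ℚ[X]) := by
      rw [← C_mul]
      push_cast
      rfl
    set α : ℚ := (P : ℚ) / 2 ^ n - 1 / 3 ^ m with hα
    set β : ℚ := ((P : ℚ) + 1) / 2 ^ n + 1 / 3 ^ m with hβ
    have e3 : (C ((((2 ^ n * 3 ^ m : ℕ) : ℚ)) ^ 2) * ((X - C α) * (X - C β)) : ℚ[X]) =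
        C (((2 ^ n * 3 ^ m : ℕ) : ℚ) ^ 2) * X ^ 2 -
          C (((2 ^ n * 3 ^ m : ℕ) : ℚ) ^ 2 * (α + β)) * X +
          C (((2 ^ n * 3 ^ m : ℕ) : ℚ) ^ 2 * (α * β)) := by
      simp only [C_mul, C_add]
      ring
    rw [e3]
    have e4 : ((2 ^ n * 3 ^ m : ℕ) : ℚ) ^ 2 * (α + β) =
        ((2 ^ n * 3 ^ m * ((2 * P + 1) * 3 ^ m) : ℕ) : ℚ) := by
      rw [hα, hβ]
      push_cast
      field_simp
      ring
    have e5 : ((2 ^ n * 3 ^ m : ℕ) : ℚ) ^ 2 * (α * β) =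
        ((P * 3 ^ m * ((P + 1) * 3 ^ m + 2 ^ n) : ℕ) : ℚ) -
          ((2 ^ n * ((P + 1) * 3 ^ m + 2 ^ n) : ℕ) : ℚ) := by
      rw [hα, hβ]
      push_cast
      field_simp
    rw [e4, e5, C_sub]
    have e6 : (((2 ^ n * 3 ^ m) ^ 2 : ℕ) : ℚ) = ((2 ^ n * 3 ^ m : ℕ) : ℚ) ^ 2 := by
      push_cast
      rfl
    rw [e6, Nat.cast_zero, C_0]
    ring

/-- Three does not divide the numerator over `2 ^ n * 3 ^ m`. -/
def Nz (m : ℕ) (q : ℚ) : Prop := ∃ (n : ℕ) (z : ℤ), ¬ (3 : ℤ) ∣ z ∧ q = z / (2 ^ n * 3 ^ m)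

theorem not_three_dvd_two_pow (n : ℕ) : ¬ (3 : ℤ) ∣ 2 ^ n := by
  intro h
  have h1 : (3 : ℤ) ∣ 2 := Int.prime_three.dvd_of_dvd_pow h
  omega

theorem Nz.ne {m m' : ℕ} (h : m < m') {q q' : ℚ} (hq : Nz m q) (hq' : Nz m' q') : q ≠ q' := by
  rintro rfl
  obtain ⟨n, z, hz, h1⟩ := hq
  obtain ⟨n', z', hz', h2⟩ := hq'
  obtain ⟨d, rfl⟩ := Nat.exists_eq_add_of_lt h
  rw [h1] at h2
  have h3 : (z : ℚ) * (2 ^ n' * 3 ^ (d + 1)) = z' * 2 ^ n := by
    have e1 : (2 : ℚ) ^ n ≠ 0 := by positivity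
    have e2 : (2 : ℚ) ^ n' ≠ 0 := by positivity
    have e3 : (3 : ℚ) ^ m ≠ 0 := by positivity
    have e4 : (3 : ℚ) ^ (m + d + 1) = 3 ^ m * 3 ^ (d + 1) := by ring
    rw [e4] at h2
    field_simp at h2
    linear_combination h2
  have h4 : z * (2 ^ n' * 3 ^ (d + 1)) = z' * 2 ^ n := by exact_mod_cast h3
  have h5 : (3 : ℤ) ∣ z' * 2 ^ n := by
    rw [← h4]
    exact ⟨z * (2 ^ n' * 3 ^ d), by ring⟩
  rcases Int.prime_three.dvd_or_dvd h5 with h6 | h6
  · exact hz' h6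
  · exact not_three_dvd_two_pow n h6

theorem Nz.ne_int {m : ℕ} (h : 0 < m) {q : ℚ} (hq : Nz m q) (c : ℤ) : q ≠ c := by
  rintro rfl
  obtain ⟨n, z, hz, h1⟩ := hq
  apply hz
  obtain ⟨d, rfl⟩ := Nat.exists_eq_add_of_lt h
  rw [zero_add] at h1
  have e1 : (2 : ℚ) ^ n ≠ 0 := by positivity
  have e2 : (3 : ℚ) ^ (d + 1) ≠ 0 := by positivity
  rw [eq_div_iff (mul_ne_zero e1 e2)] at h1
  have h2 : c * (2 ^ n * 3 ^ (d + 1)) = z := by exact_mod_cast h1
  rw [← h2]
  exact ⟨c * (2 ^ n * 3 ^ d), by ring⟩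

theorem nz_ra {j : ℕ} (hj : j ≠ 0) : Nz (j - 1 + 5) (ra j) := by
  refine ⟨(stg (j - 1)).2, (stg (j - 1)).1 * 3 ^ (j - 1 + 5) - 2 ^ (stg (j - 1)).2, ?_, ?_⟩
  · intro h
    apply not_three_dvd_two_pow (stg (j - 1)).2
    have h1 : (3 : ℤ) ∣ (stg (j - 1)).1 * 3 ^ (j - 1 + 5) :=
      Dvd.dvd.mul_left (dvd_pow_self 3 (by omega)) _
    have h2 := dvd_sub h1 h
    rwa [sub_sub_cancel] at h2
  · unfold ra
    rw [if_neg hj]
    push_cast
    have e1 : (2 : ℚ) ^ (stg (j - 1)).2 ≠ 0 := by positivity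
    have e2 : (3 : ℚ) ^ (j - 1 + 5) ≠ 0 := by positivity
    field_simp

theorem nz_rb {j : ℕ} (hj : j ≠ 0) : Nz (j - 1 + 5) (rb j) := by
  refine ⟨(stg (j - 1)).2, ((stg (j - 1)).1 + 1) * 3 ^ (j - 1 + 5) + 2 ^ (stg (j - 1)).2, ?_, ?_⟩
  · intro h
    apply not_three_dvd_two_pow (stg (j - 1)).2
    have h1 : (3 : ℤ) ∣ ((stg (j - 1)).1 + 1) * 3 ^ (j - 1 + 5) :=
      Dvd.dvd.mul_left (dvd_pow_self 3 (by omega)) _
    exact (Int.dvd_add_right h1).1 h
  · unfold rb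
    rw [if_neg hj]
    push_cast
    have e1 : (2 : ℚ) ^ (stg (j - 1)).2 ≠ 0 := by positivity
    have e2 : (3 : ℚ) ^ (j - 1 + 5) ≠ 0 := by positivity
    field_simp

theorem ra_lt_rb {j : ℕ} (hj : j ≠ 0) : ra j < rb j := by
  unfold ra rb
  rw [if_neg hj, if_neg hj]
  have h1 : (0 : ℚ) < 1 / 2 ^ (stg (j - 1)).2 := by positivity
  have h2 : (0 : ℚ) < 1 / 3 ^ (j - 1 + 5) := by positivity
  have h3 : ((stg (j - 1)).1 + 1 : ℚ) / 2 ^ (stg (j - 1)).2 =
      (stg (j - 1)).1 / 2 ^ (stg (j - 1)).2 + 1 / 2 ^ (stg (j - 1)).2 := by ring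
  rw [h3]
  linarith

theorem ra_ne_rb (j : ℕ) : ra j ≠ rb j := by
  by_cases hj : j = 0
  · subst hj
    unfold ra rb
    simp
  · exact (ra_lt_rb hj).ne

theorem ra_ne {i j : ℕ} (h : i ≠ j) : ra i ≠ ra j ∧ ra i ≠ rb j := by
  by_cases hi : i = 0
  · subst hi
    have h0 : ra 0 = ((0 : ℤ) : ℚ) := by unfold ra; simp
    rw [h0]
    exact ⟨((nz_ra h.symm).ne_int (by omega) 0).symm, ((nz_rb h.symm).ne_int (by omega) 0).symm⟩
  · by_cases hj : j = 0
    · subst hj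
      have h0 : ra 0 = ((0 : ℤ) : ℚ) := by unfold ra; simp
      have h1 : rb 0 = ((1 : ℤ) : ℚ) := by unfold rb; simp
      rw [h0, h1]
      exact ⟨(nz_ra hi).ne_int (by omega) 0, (nz_ra hi).ne_int (by omega) 1⟩
    · rcases lt_or_gt_of_ne h with h1 | h1
      · exact ⟨(nz_ra hi).ne (by omega) (nz_ra hj), (nz_ra hi).ne (by omega) (nz_rb hj)⟩
      · exact ⟨((nz_ra hj).ne (by omega) (nz_ra hi)).symm,
          ((nz_rb hj).ne (by omega) (nz_ra hi)).symm⟩

/-- A nonempty product of radicands is not a square times a square. -/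
theorem no_square {S : Finset ℕ} (hS : S.Nonempty) {p q : ℤ[X]} (hq : q ≠ 0) :
    (∏ j ∈ S, pz (gz j)) * q ^ 2 ≠ p ^ 2 := by
  classical
  intro h
  obtain ⟨i, hi⟩ := hS
  have h1 := congrArg (Polynomial.map (Int.castRingHom ℚ)) h
  rw [Polynomial.map_mul, Polynomial.map_prod, Polynomial.map_pow, Polynomial.map_pow,
    ← Finset.mul_prod_erase S _ hi, map_pz_gz] at h1
  set Q := q.map (Int.castRingHom ℚ) with hQ
  set P := p.map (Int.castRingHom ℚ) with hP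
  have hQ0 : Q ≠ 0 := by
    rw [hQ]
    exact (Polynomial.map_ne_zero_iff (RingHom.injective_int _)).2 hq
  set W := ∏ j ∈ S.erase i, (pz (gz j)).map (Int.castRingHom ℚ) with hW
  have hWe : W.eval (ra i) ≠ 0 := by
    rw [hW, Polynomial.eval_prod]
    apply Finset.prod_ne_zero_iff.2
    intro j hj
    have hne := (Finset.ne_of_mem_erase hj).symm
    obtain ⟨h2, h3⟩ := ra_ne hne
    rw [map_pz_gz, eval_mul, eval_mul, eval_C, eval_sub, eval_sub, eval_X, eval_C, eval_C]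
    exact mul_ne_zero (lc_ne j) (mul_ne_zero (sub_ne_zero.2 h2) (sub_ne_zero.2 h3))
  set V : ℚ[X] := C (lc i) * (X - C (rb i)) * W with hV
  have hVe : V.eval (ra i) ≠ 0 := by
    rw [hV, eval_mul, eval_mul, eval_C, eval_sub, eval_X, eval_C]
    exact mul_ne_zero (mul_ne_zero (lc_ne i) (sub_ne_zero.2 (ra_ne_rb i))) hWe
  have hV0 : V ≠ 0 := by
    intro h0
    rw [h0, eval_zero] at hVe
    exact hVe rfl
  have h2 : (X - C (ra i)) * V * Q ^ 2 = P ^ 2 := by
    rw [← h1, hV]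
    ring
  have hX0 : (X - C (ra i) : ℚ[X]) ≠ 0 := X_sub_C_ne_zero _
  have hl : (X - C (ra i)) * V * Q ^ 2 ≠ 0 := mul_ne_zero (mul_ne_zero hX0 hV0) (pow_ne_zero 2 hQ0)
  have hP0 : P ≠ 0 := by
    intro h0
    rw [h0] at h2
    apply hl
    rw [h2]
    ring
  have h3 := congrArg (rootMultiplicity (ra i)) h2
  rw [rootMultiplicity_mul hl, rootMultiplicity_mul (mul_ne_zero hX0 hV0),
    rootMultiplicity_X_sub_C_self, rootMultiplicity_eq_zero (p := V) hVe, pow_two, pow_two,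
    rootMultiplicity_mul (mul_ne_zero hQ0 hQ0), rootMultiplicity_mul (mul_ne_zero hP0 hP0)] at h3
  omega

end Pool.Agent.Lib.MP_1308e3_lc
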