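import Mathlib

/-!
# Independence of products of square roots
-/

set_option autoImplicit false

namespace Pool.Agent.Lib.MP_1308e3_lc

open Finset

/-- The quadratic extension of a field of real numbers. -/
def quadExt (K : Subfield ℝ) (w : ℝ) (h2 : w ^ 2 ∈ K) (hw : w ∉ K) : Subfield ℝ where
  carrier := {x | ∃ u ∈ K, ∃ v ∈ K, x = u + v * w}
  mul_mem' := by
    rintro _ _ ⟨u, hu, v, hv, rfl⟩ ⟨u', hu', v', hv', rfl⟩
    refine ⟨u * u' + v * v' * w ^ 2, K.add_mem (K.mul_mem hu hu') (K.mul_mem (K.mul_mem hv hv') h2),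
      u * v' + v * u', K.add_mem (K.mul_mem hu hv') (K.mul_mem hv hu'), ?_⟩
    ring
  one_mem' := ⟨1, K.one_mem, 0, K.zero_mem, by ring⟩
  add_mem' := by
    rintro _ _ ⟨u, hu, v, hv, rfl⟩ ⟨u', hu', v', hv', rfl⟩
    exact ⟨u + u', K.add_mem hu hu', v + v', K.add_mem hv hv', by ring⟩
  zero_mem' := ⟨0, K.zero_mem, 0, K.zero_mem, by ring⟩
  neg_mem' := by
    rintro _ ⟨u, hu, v, hv, rfl⟩
    exact ⟨-u, K.neg_mem hu, -v, K.neg_mem hv, by ring⟩
  inv_mem' := by
    rintro _ ⟨u, hu, v, hv, rfl⟩
    by_cases h0 : u ^ 2 - v ^ 2 * w ^ 2 = 0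
    · have hv0 : v = 0 := by
        by_contra hv0
        have h1 : (u / v) ^ 2 = w ^ 2 := by
          field_simp
          linarith
        rcases sq_eq_sq_iff_eq_or_eq_neg.1 h1 with h | h
        · exact hw (h ▸ K.div_mem hu hv)
        · have : w = -(u / v) := by rw [h, neg_neg]
          exact hw (this ▸ K.neg_mem (K.div_mem hu hv))
      subst hv0
      refine ⟨u⁻¹, K.inv_mem hu, 0, K.zero_mem, by simp⟩
    · refine ⟨u / (u ^ 2 - v ^ 2 * w ^ 2), K.div_mem hu (K.sub_mem (K.pow_mem hu 2)
        (K.mul_mem (K.pow_mem hv 2) h2)), -v / (u ^ 2 - v ^ 2 * w ^ 2),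
        K.div_mem (K.neg_mem hv) (K.sub_mem (K.pow_mem hu 2) (K.mul_mem (K.pow_mem hv 2) h2)), ?_⟩
      have h1 : (u + v * w) * (u - v * w) = u ^ 2 - v ^ 2 * w ^ 2 := by ring
      have h3 : u + v * w ≠ 0 := by
        intro h3
        rw [h3, zero_mul] at h1
        exact h0 h1.symm
      have h4 : (u + v * w)⁻¹ = (u - v * w) / (u ^ 2 - v ^ 2 * w ^ 2) := by
        rw [← h1]
        have h5 : u - v * w ≠ 0 := by
          intro h5
          rw [h5, mul_zero] at h1
          exact h0 h1.symm
        field_simp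
      rw [h4]
      ring

theorem mem_quadExt {K : Subfield ℝ} {w : ℝ} {h2 : w ^ 2 ∈ K} {hw : w ∉ K} {x : ℝ} :
    x ∈ quadExt K w h2 hw ↔ ∃ u ∈ K, ∃ v ∈ K, x = u + v * w := Iff.rfl

theorem le_quadExt {K : Subfield ℝ} {w : ℝ} (h2 : w ^ 2 ∈ K) (hw : w ∉ K) :
    K ≤ quadExt K w h2 hw := fun x hx => ⟨x, hx, 0, K.zero_mem, by ring⟩

/-- Products of square roots of elements of `K` are independent over `K` if no nonempty product
lies in `K`. -/
theorem indep (y : ℕ → ℝ) (n : ℕ) : ∀ K : Subfield ℝ, (∀ j < n, y j ^ 2 ∈ K) →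
    (∀ S ⊆ range n, S.Nonempty → ∏ j ∈ S, y j ∉ K) →
    ∀ c : Finset ℕ → ℝ, (∀ S, c S ∈ K) → ∑ S ∈ (range n).powerset, c S * ∏ j ∈ S, y j = 0 →
    ∀ S ⊆ range n, c S = 0 := by
  induction n with
  | zero =>
    intro K _ _ c _ h S hS
    have h1 : S = ∅ := by simpa using hS
    subst h1
    simpa using h
  | succ n ih =>
    intro K h2 hni c hc h
    have hyn : y n ∉ K := by
      have := hni {n} (by simp) (by simp)
      simpa using this
    have hyn2 : y n ^ 2 ∈ K := h2 n (by omega)
    have hK := le_quadExt hyn2 hyn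
    have h3 : ∀ S ⊆ range n, n ∉ S := fun S hS hn => by
      have := mem_range.1 (hS hn)
      omega
    have h5 := ih (quadExt K (y n) hyn2 hyn) (fun j hj => hK (h2 j (by omega))) (by
      rintro S hS hne ⟨u, hu, v, hv, he⟩
      have hsq : (∏ j ∈ S, y j) ^ 2 ∈ K := by
        rw [← prod_pow]
        exact K.prod_mem fun j hj => h2 j (by have := mem_range.1 (hS hj); omega)
      have hnK : ∏ j ∈ S, y j ∉ K := hni S (hS.trans (range_subset_range.2 (by omega))) hne
      have hnK' : ∏ j ∈ insert n S, y j ∉ K := by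
        apply hni
        · intro j hj
          rcases mem_insert.1 hj with rfl | hj
          · simp
          · have := mem_range.1 (hS hj)
            exact mem_range.2 (by omega)
        · exact ⟨n, mem_insert_self _ _⟩
      have h6 : 2 * (u * v) * y n ∈ K := by
        have h7 : 2 * (u * v) * y n = (∏ j ∈ S, y j) ^ 2 - u ^ 2 - v ^ 2 * y n ^ 2 := by
          rw [he]
          ring
        rw [h7]
        exact K.sub_mem (K.sub_mem hsq (K.pow_mem hu 2)) (K.mul_mem (K.pow_mem hv 2) hyn2)
      have h8 : u * v = 0 := by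
        by_contra h8
        apply hyn
        have h9 : y n = (2 * (u * v) * y n) / (2 * (u * v)) := by
          rw [mul_div_assoc, mul_comm, div_mul_cancel₀ _ (mul_ne_zero two_ne_zero h8)]
        rw [h9]
        have h10 : (2 : ℝ) ∈ K := by
          have := K.add_mem K.one_mem K.one_mem
          rwa [one_add_one_eq_two] at this
        exact K.div_mem h6 (K.mul_mem h10 (K.mul_mem hu hv))
      rcases mul_eq_zero.1 h8 with h9 | h9
      · apply hnK'
        rw [prod_insert (h3 S hS), he, h9]
        have : y n * (0 + v * y n) = v * y n ^ 2 := by ring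
        rw [this]
        exact K.mul_mem hv hyn2
      · apply hnK
        rw [he, h9, zero_mul, add_zero]
        exact hu) (fun S => c S + c (insert n S) * y n)
      (fun S => ⟨c S, hc S, c (insert n S), hc _, rfl⟩) (by
      rw [range_add_one, sum_powerset_insert (by simp)] at h
      rw [← h, ← sum_add_distrib]
      apply sum_congr rfl
      intro S hS
      rw [prod_insert (h3 S (mem_powerset.1 hS))]
      ring)
    have h6 : ∀ S ⊆ range n, c S = 0 ∧ c (insert n S) = 0 := by
      intro S hS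
      have h7 : c S + c (insert n S) * y n = 0 := h5 S hS
      have h8 : c (insert n S) = 0 := by
        by_contra h8
        apply hyn
        have h9 : y n = -c S / c (insert n S) := by
          field_simp
          linarith
        rw [h9]
        exact K.div_mem (K.neg_mem (hc S)) (hc _)
      rw [h8, zero_mul, add_zero] at h7
      exact ⟨h7, h8⟩
    intro S hS
    by_cases hn : n ∈ S
    · have h7 := (h6 (S.erase n) (fun j hj => by
        have h8 := mem_range.1 (hS (mem_of_mem_erase hj))
        have h9 := ne_of_mem_erase hj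
        exact mem_range.2 (by omega))).2
      rwa [insert_erase hn] at h7
    · exact (h6 S (fun j hj => by
        have h8 := mem_range.1 (hS hj)
        have h9 : j ≠ n := by
          rintro rfl
          exact hn hj
        exact mem_range.2 (by omega))).1

/-- The same for sums over arbitrary finite families of sets. -/
theorem indep' {y : ℕ → ℝ} {K : Subfield ℝ} (h2 : ∀ j, y j ^ 2 ∈ K)
    (hni : ∀ S : Finset ℕ, S.Nonempty → ∏ j ∈ S, y j ∉ K) {A : Finset (Finset ℕ)}
    {c : Finset ℕ → ℝ} (hc : ∀ S ∈ A, c S ∈ K) (h : ∑ S ∈ A, c S * ∏ j ∈ S, y j = 0) :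
    ∀ S ∈ A, c S = 0 := by
  classical
  obtain ⟨n, hn⟩ : ∃ n, ∀ S ∈ A, S ⊆ range n := by
    obtain ⟨n, hn⟩ := (A.sup id).exists_nat_subset_range
    exact ⟨n, fun S hS => (Finset.le_sup (f := id) hS).trans hn⟩
  intro S hS
  have h1 := indep y n K (fun j _ => h2 j) (fun S _ hne => hni S hne)
    (fun S => if S ∈ A then c S else 0) (fun S => by
      split_ifs with h
      · exact hc S h
      · exact K.zero_mem) (by
      have h3 : ∑ S ∈ A, (if S ∈ A then c S else 0) * ∏ j ∈ S, y j = 0 := by
        rw [← h]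
        exact sum_congr rfl fun S hS => by rw [if_pos hS]
      refine (sum_subset (fun S hS => mem_powerset.2 (hn S hS)) (fun S _ hS => ?_)).symm.trans h3
      rw [if_neg hS, zero_mul]) S (hn S hS)
  simpa [hS] using h1

end Pool.Agent.Lib.MP_1308e3_lc
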