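import Pool.Agent.Lib.MP_1308e3_lc.LowSet

/-!
# The low basis theorem
-/

set_option autoImplicit false

namespace Pool.Agent.Lib.MP_1308e3_lc

open Encodable Denumerable Nat.Partrec

/-- The `d`-th function halts on the string `σ` within `s` steps. -/
def hb (s : ℕ) (σ : List ℕ) (d : ℕ) : Prop :=
  (Code.evaln s (ofNat Code d) (Nat.pair (encode σ) d)).isSome = true

/-- Some index in `D` halts on an initial segment of `σ` within `s` steps. -/
def bad (s : ℕ) (D σ : List ℕ) : Prop := ∃ d ∈ D, ∃ k < s + 1, hb s (σ.take k) d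

/-- The binary strings of length `s`. -/
def bits : ℕ → List (List ℕ)
  | 0 => [[]]
  | s + 1 => (bits s).flatMap fun σ => [σ ++ [0], σ ++ [1]]

/-- All strings of length `s` are bad. -/
def covers (D : List ℕ) (s : ℕ) : Prop := ∀ σ ∈ bits s, bad s D σ

instance (D : List ℕ) (s : ℕ) : Decidable (covers D s) := by
  unfold covers bad hb
  infer_instance

theorem bits_primrec : Primrec bits := by
  have h : Primrec fun n : ℕ => (Nat.rec [[]] (fun _ IH => IH.flatMap fun σ => [σ ++ [0], σ ++ [1]])
      n : List (List ℕ)) := by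
    refine Primrec.nat_rec₁ (f := fun _ (IH : List (List ℕ)) =>
      IH.flatMap fun σ => [σ ++ [0], σ ++ [1]]) _ ?_
    refine Primrec.list_flatMap (f := fun p : ℕ × List (List ℕ) => p.2)
      (g := fun (_ : ℕ × List (List ℕ)) (σ : List ℕ) => [σ ++ [0], σ ++ [1]]) Primrec.snd ?_
    have h1 : ∀ b : ℕ, Primrec fun p : (ℕ × List (List ℕ)) × List ℕ => p.2 ++ [b] := fun b =>
      Primrec.list_append.comp Primrec.snd (Primrec.const [b])
    exact Primrec.list_cons.comp (h1 0) (Primrec.list_cons.comp (h1 1) (Primrec.const []))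
  refine h.of_eq fun n => ?_
  induction n with
  | zero => rfl
  | succ n ih =>
    simp only at ih ⊢
    rw [ih]
    rfl

theorem covers_primrec : PrimrecRel covers := by
  have r0 : PrimrecRel fun (k : ℕ) (y : (ℕ × List ℕ) × ℕ) => hb y.1.1 (y.1.2.take k) y.2 := by
    have hev : Primrec fun p : ℕ × (ℕ × List ℕ) × ℕ =>
        Code.evaln p.2.1.1 (ofNat Code p.2.2) (Nat.pair (encode (p.2.1.2.take p.1)) p.2.2) := by
      refine Code.primrec_evaln.comp (Primrec.pair (Primrec.pair ?_ ?_) ?_)
      · exact Primrec.fst.comp (Primrec.fst.comp Primrec.snd)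
      · exact (Primrec.ofNat Code).comp (Primrec.snd.comp Primrec.snd)
      · refine Primrec₂.natPair.comp (Primrec.encode.comp ?_) (Primrec.snd.comp Primrec.snd)
        exact list_take_primrec.comp (Primrec.snd.comp (Primrec.fst.comp Primrec.snd)) Primrec.fst
    exact Primrec.eq.comp (Primrec.option_isSome.comp hev) (Primrec.const true)
  have r1 := r0.exists_mem_list
  have r2 : PrimrecRel fun (d : ℕ) (b : ℕ × List ℕ) => ∃ k < b.1 + 1, hb b.1 (b.2.take k) d :=
    (r1.comp (Primrec.list_range.comp (Primrec.succ.comp (Primrec.fst.comp Primrec.snd)))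
      (Primrec.pair Primrec.snd Primrec.fst)).of_eq (fun p => by simp)
  have r3 := r2.exists_mem_list
  have r4 : PrimrecRel fun (σ : List ℕ) (y : ℕ × List ℕ) => bad y.1 y.2 σ :=
    r3.comp (Primrec.snd.comp Primrec.snd)
      (Primrec.pair (Primrec.fst.comp Primrec.snd) Primrec.fst)
  have r5 := r4.forall_mem_list
  exact r5.comp (bits_primrec.comp Primrec.snd) (Primrec.pair Primrec.snd Primrec.fst)

/-- The search for a level at which all strings are bad. -/
def emptyP (D : List ℕ) : Part ℕ := Nat.rfindOpt fun s => if covers D s then some s else none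

theorem emptyP_partrec : Partrec emptyP := by
  refine Partrec.rfindOpt (f := fun (D : List ℕ) s => if covers D s then some s else none) ?_
  have h : Primrec fun p : List ℕ × ℕ => if covers p.1 p.2 then some p.2 else none :=
    Primrec.ite covers_primrec (Primrec.option_some.comp Primrec.snd) (Primrec.const none)
  exact h.to_comp.to₂

theorem emptyP_dom {D : List ℕ} : (emptyP D).Dom ↔ ∃ s, covers D s := by
  constructor
  · intro h
    obtain ⟨s, hs⟩ := Nat.rfindOpt_spec (Part.get_mem h)
    refine ⟨s, ?_⟩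
    by_contra hc
    rw [Option.mem_def, if_neg hc] at hs
    exact absurd hs (by simp)
  · rintro ⟨s, hs⟩
    apply Nat.rfindOpt_dom.2
    exact ⟨s, s, by rw [if_pos hs]; rfl⟩

/-! ### Compactness -/

/-- The set with a given characteristic function. -/
def setOf' (x : ℕ → Bool) : Set ℕ := {n | x n = true}

theorem mem_bits {σ : List ℕ} {s : ℕ} : σ ∈ bits s ↔ σ.length = s ∧ ∀ b ∈ σ, b ≤ 1 := by
  induction s generalizing σ with
  | zero =>
    simp only [bits, List.mem_singleton]
    constructor
    · rintro rfl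
      simp
    · rintro ⟨h, -⟩
      exact List.length_eq_zero_iff.1 h
  | succ s ih =>
    simp only [bits, List.mem_flatMap]
    constructor
    · rintro ⟨τ, hτ, h⟩
      obtain ⟨h1, h2⟩ := ih.1 hτ
      simp only [List.mem_cons, List.not_mem_nil, or_false] at h
      rcases h with rfl | rfl
      · refine ⟨by simp [h1], ?_⟩
        intro b hb
        rcases List.mem_append.1 hb with h | h
        · exact h2 b h
        · simp only [List.mem_singleton] at h
          omega
      · refine ⟨by simp [h1], ?_⟩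
        intro b hb
        rcases List.mem_append.1 hb with h | h
        · exact h2 b h
        · simp only [List.mem_singleton] at h
          omega
    · rintro ⟨h1, h2⟩
      have h3 : σ ≠ [] := by
        rintro rfl
        simp at h1
      refine ⟨σ.dropLast, ih.2 ⟨by simp [h1], fun b hb => h2 b (List.mem_of_mem_dropLast hb)⟩, ?_⟩
      have h4 := h2 _ (List.getLast_mem h3)
      have h5 := List.dropLast_append_getLast h3
      have h6 : σ.getLast h3 = 0 ∨ σ.getLast h3 = 1 := by omega
      rcases h6 with h6 | h6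
      · rw [h6] at h5
        simp [h5]
      · rw [h6] at h5
        simp [h5]

theorem initSeg_mem_bits (X : Set ℕ) (s : ℕ) : initSeg X s ∈ bits s := by
  rw [mem_bits]
  refine ⟨initSeg_length X s, ?_⟩
  intro b hb
  unfold initSeg at hb
  obtain ⟨i, -, rfl⟩ := List.mem_map.1 hb
  exact chi_le_one X i

theorem initSeg_take (X : Set ℕ) {k s : ℕ} (h : k ≤ s) : (initSeg X s).take k = initSeg X k := by
  apply List.ext_getElem?
  intro i
  rw [List.getElem?_take, initSeg_getElem?, initSeg_getElem?]
  split_ifs <;> first | rfl | omega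

theorem exists_initSeg_eq {σ : List ℕ} {s : ℕ} (h : σ ∈ bits s) :
    ∃ x : ℕ → Bool, initSeg (setOf' x) s = σ := by
  obtain ⟨h1, h2⟩ := mem_bits.1 h
  refine ⟨fun n => decide (σ[n]? = some 1), ?_⟩
  apply List.ext_getElem?
  intro i
  rw [initSeg_getElem?]
  split_ifs with hi
  · have hi' : i < σ.length := by omega
    rw [List.getElem?_eq_getElem hi']
    have h3 := h2 _ (List.getElem_mem hi')
    congr 1
    by_cases h4 : σ[i] = 1
    · rw [h4]
      apply chi_eq_one.2
      show decide (σ[i]? = some 1) = true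
      rw [List.getElem?_eq_getElem hi', h4]
      simp
    · have h5 : σ[i] = 0 := by omega
      rw [h5]
      apply chi_eq_zero.2
      show ¬ decide (σ[i]? = some 1) = true
      rw [List.getElem?_eq_getElem hi', h5]
      simp
  · rw [List.getElem?_eq_none (by omega)]

theorem hb_mono {s s' : ℕ} (h : s ≤ s') {σ : List ℕ} {d : ℕ} (hd : hb s σ d) : hb s' σ d := by
  unfold hb at hd ⊢
  obtain ⟨y, hy⟩ := Option.isSome_iff_exists.1 hd
  exact Option.isSome_iff_exists.2 ⟨y, Code.evaln_mono h hy⟩

theorem bad_mono {X : Set ℕ} {D : List ℕ} {s s' : ℕ} (h : s ≤ s') (hb' : bad s D (initSeg X s)) :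
    bad s' D (initSeg X s') := by
  obtain ⟨d, hd, k, hk, h1⟩ := hb'
  refine ⟨d, hd, k, by omega, ?_⟩
  rw [initSeg_take X (by omega)] at h1 ⊢
  exact hb_mono h h1

/-- The class of the sets such that no index of `D` is in the jump. -/
def Cls (D : List ℕ) : Set (ℕ → Bool) := {x | ∀ d ∈ D, d ∉ jump (setOf' x)}

theorem not_mem_Cls {D : List ℕ} {x : ℕ → Bool} :
    x ∉ Cls D ↔ ∃ s, bad s D (initSeg (setOf' x) s) := by
  constructor
  · intro h
    have h1 : ∃ d ∈ D, d ∈ jump (setOf' x) := by
      by_contra hc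
      push Not at hc
      exact h hc
    obtain ⟨d, hd, k, hk⟩ := h1
    obtain ⟨y, hy⟩ := Part.dom_iff_mem.1 hk
    obtain ⟨s, hs⟩ := Code.evaln_complete.1 hy
    refine ⟨max s k, d, hd, k, by omega, ?_⟩
    rw [initSeg_take _ (le_max_right _ _)]
    exact hb_mono (le_max_left _ _) (Option.isSome_iff_exists.2 ⟨y, hs⟩)
  · rintro ⟨s, d, hd, k, hk, h1⟩ h
    apply h d hd
    rw [initSeg_take _ (by omega)] at h1
    obtain ⟨y, hy⟩ := Option.isSome_iff_exists.1 h1
    exact ⟨k, Part.dom_iff_mem.2 ⟨y, Code.evaln_sound hy⟩⟩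

theorem isClopen_bad (D : List ℕ) (s : ℕ) :
    IsClopen {x : ℕ → Bool | bad s D (initSeg (setOf' x) s)} := by
  have h1 : Continuous fun x : ℕ → Bool => (fun i : Fin s => x i) := by fun_prop
  have h2 : {x : ℕ → Bool | bad s D (initSeg (setOf' x) s)} =
      (fun x : ℕ → Bool => (fun i : Fin s => x i)) ⁻¹'
        {y | bad s D ((List.finRange s).map fun i => if y i = true then 1 else 0)} := by
    ext x
    simp only [Set.mem_ofPred_eq, Set.mem_preimage]
    have h3 : initSeg (setOf' x) s = (List.finRange s).map fun i : Fin s =>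
        if x i = true then 1 else 0 := by
      unfold initSeg
      apply List.ext_getElem (by simp)
      intro i h1 h2
      simp only [List.getElem_map, List.getElem_range, List.getElem_finRange]
      unfold chi setOf'
      simp
    rw [h3]
  rw [h2]
  exact (isClopen_discrete _).preimage h1

theorem Cls_isClosed (D : List ℕ) : IsClosed (Cls D) := by
  have h : (Cls D)ᶜ = ⋃ s, {x : ℕ → Bool | bad s D (initSeg (setOf' x) s)} := by
    ext x
    rw [Set.mem_compl_iff, not_mem_Cls, Set.mem_iUnion]
    rfl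
  rw [← isOpen_compl_iff, h]
  exact isOpen_iUnion fun s => (isClopen_bad D s).isOpen

/-- Emptiness is detected at a finite level. -/
theorem Cls_empty {D : List ℕ} : Cls D = ∅ ↔ (emptyP D).Dom := by
  rw [emptyP_dom]
  constructor
  · intro h
    have hcov : (Set.univ : Set (ℕ → Bool)) ⊆
        ⋃ s, {x : ℕ → Bool | bad s D (initSeg (setOf' x) s)} := by
      intro x _
      rw [Set.mem_iUnion]
      apply not_mem_Cls.1
      rw [h]
      exact fun h => h
    obtain ⟨s, hs⟩ := isCompact_univ.elim_directed_cover _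
      (fun s => (isClopen_bad D s).isOpen) hcov
      (directed_of_isDirected_le fun s s' h x hx => bad_mono h hx)
    refine ⟨s, fun σ hσ => ?_⟩
    obtain ⟨x, hx⟩ := exists_initSeg_eq hσ
    have h1 := hs (Set.mem_univ x)
    rw [← hx]
    exact h1
  · rintro ⟨s, hs⟩
    rw [Set.eq_empty_iff_forall_notMem]
    intro x
    exact not_mem_Cls.2 ⟨s, hs _ (initSeg_mem_bits _ _)⟩

open Classical in
/-- The forced indices. -/
noncomputable def stD (e0 : ℕ) : ℕ → List ℕ
  | 0 => [e0]
  | e + 1 => if (emptyP (e :: stD e0 e)).Dom then stD e0 e else e :: stD e0 e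

theorem stD_nonempty {e0 : ℕ} (h : ∃ x, e0 ∉ jump (setOf' x)) (e : ℕ) :
    (Cls (stD e0 e)).Nonempty := by
  induction e with
  | zero =>
    obtain ⟨x, hx⟩ := h
    refine ⟨x, fun d hd => ?_⟩
    rw [stD, List.mem_singleton] at hd
    rw [hd]
    exact hx
  | succ e ih =>
    rw [stD]
    split_ifs with h1
    · exact ih
    · rw [← Cls_empty] at h1
      exact Set.nonempty_iff_ne_empty.2 h1

theorem stD_subset {e0 e : ℕ} : Cls (stD e0 (e + 1)) ⊆ Cls (stD e0 e) := by
  intro x hx d hd
  apply hx d
  rw [stD]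
  split_ifs
  · exact hd
  · exact List.mem_cons_of_mem _ hd

theorem exists_limit {e0 : ℕ} (h : ∃ x, e0 ∉ jump (setOf' x)) : ∃ x, ∀ e, x ∈ Cls (stD e0 e) := by
  have h1 := IsCompact.nonempty_iInter_of_sequence_nonempty_isCompact_isClosed
    (fun e => Cls (stD e0 e)) (fun e => stD_subset) (stD_nonempty h)
    (Cls_isClosed _).isCompact (fun e => Cls_isClosed _)
  obtain ⟨x, hx⟩ := h1
  exact ⟨x, fun e => Set.mem_iInter.1 hx e⟩

theorem mem_jump_limit {e0 : ℕ} {x : ℕ → Bool} (hx : ∀ e, x ∈ Cls (stD e0 e)) (e : ℕ) :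
    e ∈ jump (setOf' x) ↔ (emptyP (e :: stD e0 e)).Dom := by
  constructor
  · intro h
    by_contra hc
    apply hx (e + 1) e _ h
    rw [stD, if_neg hc]
    exact List.mem_cons_self
  · intro h
    by_contra hc
    rw [← Cls_empty, Set.eq_empty_iff_forall_notMem] at h
    apply h x
    intro d hd
    rcases List.mem_cons.1 hd with rfl | hd
    · exact hc
    · exact hx e d hd

/-- The emptiness question on codes. -/
def emptyN (n : ℕ) : Part ℕ := emptyP (ofNat (List ℕ) n)

theorem emptyN_partrec : Nat.Partrec fun n => emptyN n :=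
  Partrec.nat_iff.1 (emptyP_partrec.comp (Computable.ofNat (List ℕ)))

/-- The forced indices on codes. -/
noncomputable def stDN (e0 e : ℕ) : ℕ := encode (stD e0 e)

/-- The step on codes: input `⟨⟨e, D⟩, b⟩`. -/
def stepN (p : ℕ) : ℕ :=
  if p.unpair.2 = 0 then encode (p.unpair.1.unpair.1 :: ofNat (List ℕ) p.unpair.1.unpair.2)
  else p.unpair.1.unpair.2

theorem stepN_primrec : Primrec stepN := by
  have h1 : Primrec fun p : ℕ => p.unpair.1.unpair.1 :=
    Primrec.fst.comp (Primrec.unpair.comp (Primrec.fst.comp Primrec.unpair))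
  have h2 : Primrec fun p : ℕ => p.unpair.1.unpair.2 :=
    Primrec.snd.comp (Primrec.unpair.comp (Primrec.fst.comp Primrec.unpair))
  exact Primrec.ite (Primrec.eq.comp (Primrec.snd.comp Primrec.unpair) (Primrec.const 0))
    (Primrec.encode.comp (Primrec.list_cons.comp h1 ((Primrec.ofNat (List ℕ)).comp h2))) h2

/-- The code of `e :: D` from `⟨e, D⟩`. -/
def consN (p : ℕ) : ℕ := encode (p.unpair.1 :: ofNat (List ℕ) p.unpair.2)

theorem consN_primrec : Primrec consN :=
  Primrec.encode.comp (Primrec.list_cons.comp (Primrec.fst.comp Primrec.unpair)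
    ((Primrec.ofNat (List ℕ)).comp (Primrec.snd.comp Primrec.unpair)))

theorem stDN_rec (e0 e : ℕ) : stDN e0 e = Nat.rec (encode [e0]) (fun y IH =>
    stepN (Nat.pair (Nat.pair y IH) (chi {n | (emptyN n).Dom} (consN (Nat.pair y IH))))) e := by
  induction e with
  | zero => rfl
  | succ e ih =>
    simp only
    rw [← ih]
    unfold stepN consN stDN
    simp only [Nat.unpair_pair, ofNat_encode]
    rw [stD]
    by_cases h : (emptyP (e :: stD e0 e)).Dom
    · have h1 : chi {n | (emptyN n).Dom} (encode (e :: stD e0 e)) = 1 := by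
        apply chi_eq_one.2
        show (emptyP (ofNat (List ℕ) (encode (e :: stD e0 e)))).Dom
        rw [ofNat_encode]
        exact h
      rw [if_pos h, h1, if_neg (by norm_num)]
    · have h1 : chi {n | (emptyN n).Dom} (encode (e :: stD e0 e)) = 0 := by
        apply chi_eq_zero.2
        show ¬ (emptyP (ofNat (List ℕ) (encode (e :: stD e0 e)))).Dom
        rw [ofNat_encode]
        exact h
      rw [if_neg h, h1, if_pos rfl]

theorem stDN_recursiveIn (e0 : ℕ) :
    Nat.RecursiveIn {charFn (jump ∅)} fun e => Part.some (stDN e0 e) := by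
  have hy : Nat.RecursiveIn {charFn (jump ∅)} fun n => Part.some (n.unpair.2.unpair.1) :=
    tot_of_primrec (Primrec.fst.comp (Primrec.unpair.comp (Primrec.snd.comp Primrec.unpair)))
  have hi : Nat.RecursiveIn {charFn (jump ∅)} fun n => Part.some (n.unpair.2.unpair.2) :=
    tot_of_primrec (Primrec.snd.comp (Primrec.unpair.comp (Primrec.snd.comp Primrec.unpair)))
  have hp := tot_pair hy hi
  have hc := tot_comp (chi_dom_recursiveIn emptyN_partrec)
    (tot_comp (tot_of_primrec (O := {charFn (jump ∅)}) consN_primrec) hp)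
  have h2 := tot_comp (tot_of_primrec (O := {charFn (jump ∅)}) stepN_primrec) (tot_pair hp hc)
  have h3 := tot_prec (tot_of_primrec (O := {charFn (jump ∅)})
    (Primrec.const (encode [e0]))) h2
  have h4 := tot_comp h3 (tot_pair (tot_of_primrec (Primrec.const 0)) (tot_of_primrec Primrec.id))
  refine h4.of_eq fun s => ?_
  rw [stDN_rec]
  simp only [Nat.unpair_pair, id]

/-- The low basis theorem. -/
theorem low_basis {e0 : ℕ} (h : ∃ X : Set ℕ, e0 ∉ jump X) : ∃ X : Set ℕ, e0 ∉ jump X ∧ IsLow X := by
  classical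
  have h0 : ∃ x, e0 ∉ jump (setOf' x) := by
    obtain ⟨X, hX⟩ := h
    refine ⟨fun n => decide (n ∈ X), ?_⟩
    have h1 : setOf' (fun n => decide (n ∈ X)) = X := by
      ext n
      simp [setOf']
    rw [h1]
    exact hX
  obtain ⟨x, hx⟩ := exists_limit h0
  refine ⟨setOf' x, ?_, ?_⟩
  · apply hx 0 e0
    rw [stD]
    exact List.mem_singleton_self _
  · unfold IsLow
    rw [TuringReducible, RecursiveIn.iff_nat]
    refine (tot_comp (chi_dom_recursiveIn emptyN_partrec) (tot_comp (tot_of_primrec
      (O := {charFn (jump ∅)}) consN_primrec) (tot_pair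
      (tot_of_primrec (O := {charFn (jump ∅)}) Primrec.id) (stDN_recursiveIn e0)))).of_eq
      fun e => ?_
    show Part.some _ = Part.some _
    congr 1
    have h1 : (emptyN (consN (Nat.pair (id e) (stDN e0 e)))).Dom ↔
        (emptyP (e :: stD e0 e)).Dom := by
      unfold emptyN consN stDN
      simp only [Nat.unpair_pair, ofNat_encode, id]
    by_cases he : e ∈ jump (setOf' x)
    · rw [chi_eq_one.2 he]
      exact chi_eq_one.2 (h1.2 ((mem_jump_limit hx e).1 he))
    · rw [chi_eq_zero.2 he]
      exact chi_eq_zero.2 fun h => he ((mem_jump_limit hx e).2 (h1.1 h))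

/-- The low basis theorem for classes defined by a computable relation. -/
theorem low_basis' {R : ℕ → List ℕ → Prop} (hR : ComputablePred fun p : ℕ × List ℕ => R p.1 p.2)
    (h : ∃ X : Set ℕ, ∀ n k, R n (initSeg X k)) :
    ∃ X : Set ℕ, (∀ n k, R n (initSeg X k)) ∧ IsLow X := by
  classical
  let f : ℕ →. ℕ := fun p => Nat.rfindOpt fun n =>
    if R n (ofNat (List ℕ) p.unpair.1) then none else some 0
  have hf : Nat.Partrec f := by
    refine Partrec.nat_iff.1 (Partrec.rfindOpt (f := fun (p : ℕ) n =>
      if R n (ofNat (List ℕ) p.unpair.1) then none else some 0) ?_)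
    obtain ⟨hd, hR'⟩ := hR
    have h1 : Computable fun q : ℕ × ℕ => (q.2, ofNat (List ℕ) q.1.unpair.1) :=
      Computable.snd.pair ((Computable.ofNat (List ℕ)).comp
        (Computable.fst.comp (Computable.unpair.comp Computable.fst)))
    have h2 := Computable.cond (hR'.comp h1) (Computable.const (none : Option ℕ))
      (Computable.const (some 0))
    have h3 : Computable fun q : ℕ × ℕ =>
        if R q.2 (ofNat (List ℕ) q.1.unpair.1) then (none : Option ℕ) else some 0 := by
      refine h2.of_eq fun q => ?_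
      by_cases hq : R q.2 (ofNat (List ℕ) q.1.unpair.1)
      · rw [if_pos hq]
        simp [hq]
      · rw [if_neg hq]
        simp [hq]
    exact h3.to₂
  obtain ⟨c, hc⟩ := Code.exists_code.1 hf
  have key : ∀ X : Set ℕ, encode c ∉ jump X ↔ ∀ n k, R n (initSeg X k) := by
    intro X
    have h1 : encode c ∈ jump X ↔ ∃ k n, ¬ R n (initSeg X k) := by
      have h2 : encode c ∈ jump X ↔
          ∃ k, (f (Nat.pair (encode (initSeg X k)) (encode c))).Dom := by
        show (∃ k, ((ofNat Code (encode c)).eval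
          (Nat.pair (encode (initSeg X k)) (encode c))).Dom) ↔ _
        rw [ofNat_encode, hc]
      rw [h2]
      constructor
      · rintro ⟨k, hk⟩
        obtain ⟨n, hn⟩ := Nat.rfindOpt_spec (Part.get_mem hk)
        refine ⟨k, n, fun hR => ?_⟩
        rw [Nat.unpair_pair, ofNat_encode, Option.mem_def, if_pos hR] at hn
        exact absurd hn (by simp)
      · rintro ⟨k, n, hn⟩
        refine ⟨k, Nat.rfindOpt_dom.2 ⟨n, 0, ?_⟩⟩
        rw [Nat.unpair_pair, ofNat_encode, if_neg hn]
        rfl
    rw [h1]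
    push Not
    exact ⟨fun h n k => h k n, fun h k n => h n k⟩
  obtain ⟨X, hX⟩ := h
  obtain ⟨Y, hY, hlow⟩ := low_basis ⟨X, (key X).2 hX⟩
  exact ⟨Y, (key Y).1 hY, hlow⟩

end Pool.Agent.Lib.MP_1308e3_lc
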