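import Pool.Agent.Lib.MP_1308e3_lc.Use

/-!
# Existence of a low set which is not computable
-/

set_option autoImplicit false

namespace Pool.Agent.Lib.MP_1308e3_lc

open Encodable Denumerable Nat.Partrec

/-- Try to extend `σ` to a string making the `s`-th function halt on an initial segment. -/
def tryExt (s : ℕ) (σ : List ℕ) (m : ℕ) : Option (List ℕ) :=
  if (Code.evaln (ofNat (List ℕ × ℕ × ℕ) m).2.2 (ofNat Code s)
    (Nat.pair (encode ((σ ++ (ofNat (List ℕ × ℕ × ℕ) m).1.map (· % 2)).take
      (ofNat (List ℕ × ℕ × ℕ) m).2.1)) s)).isSome = true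
  then some (σ ++ (ofNat (List ℕ × ℕ × ℕ) m).1.map (· % 2)) else none

theorem list_take_primrec {α : Type} [Primcodable α] : Primrec₂ fun (l : List α) (n : ℕ) => l.take n := by
  have h := Primrec.list_take (α := α)
  exact h.comp₂ Primrec₂.right Primrec₂.left

theorem tryExt_primrec : Primrec fun p : (ℕ × List ℕ) × ℕ => tryExt p.1.1 p.1.2 p.2 := by
  have hq : Primrec fun p : (ℕ × List ℕ) × ℕ => ofNat (List ℕ × ℕ × ℕ) p.2 :=
    (Primrec.ofNat (List ℕ × ℕ × ℕ)).comp Primrec.snd
  have hmod : Primrec₂ fun (_ : (ℕ × List ℕ) × ℕ) (b : ℕ) => b % 2 :=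
    (Primrec.nat_mod.comp Primrec.snd (Primrec.const 2)).to₂
  have hτ : Primrec fun p : (ℕ × List ℕ) × ℕ =>
      p.1.2 ++ (ofNat (List ℕ × ℕ × ℕ) p.2).1.map (· % 2) :=
    Primrec.list_append.comp (Primrec.snd.comp Primrec.fst)
      (Primrec.list_map (Primrec.fst.comp hq) hmod)
  have hev : Primrec fun p : (ℕ × List ℕ) × ℕ =>
      Code.evaln (ofNat (List ℕ × ℕ × ℕ) p.2).2.2 (ofNat Code p.1.1)
        (Nat.pair (encode ((p.1.2 ++ (ofNat (List ℕ × ℕ × ℕ) p.2).1.map (· % 2)).take
          (ofNat (List ℕ × ℕ × ℕ) p.2).2.1)) p.1.1) := by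
    refine Code.primrec_evaln.comp (Primrec.pair (Primrec.pair ?_ ?_) ?_)
    · exact Primrec.snd.comp (Primrec.snd.comp hq)
    · exact (Primrec.ofNat Code).comp (Primrec.fst.comp Primrec.fst)
    · refine Primrec₂.natPair.comp (Primrec.encode.comp ?_) (Primrec.fst.comp Primrec.fst)
      exact list_take_primrec.comp hτ (Primrec.fst.comp (Primrec.snd.comp hq))
  exact Primrec.ite (Primrec.eq.comp (Primrec.option_isSome.comp hev) (Primrec.const true))
    (Primrec.option_some.comp hτ) (Primrec.const none)

/-- The search for an extension. -/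
def extP (s : ℕ) (σ : List ℕ) : Part (List ℕ) := Nat.rfindOpt (tryExt s σ)

theorem extP_partrec : Partrec fun p : ℕ × List ℕ => extP p.1 p.2 :=
  Partrec.rfindOpt (f := fun (p : ℕ × List ℕ) m => tryExt p.1 p.2 m) tryExt_primrec.to_comp.to₂

open Classical in
/-- The extension (or the string itself if there is none). -/
noncomputable def ext (s : ℕ) (σ : List ℕ) : List ℕ :=
  if h : (extP s σ).Dom then (extP s σ).get h else σ

theorem extP_spec {s : ℕ} {σ τ : List ℕ} (h : τ ∈ extP s σ) :
    (∃ ρ : List ℕ, τ = σ ++ ρ.map (· % 2)) ∧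
      ∃ j, ((ofNat Code s).eval (Nat.pair (encode (τ.take j)) s)).Dom := by
  obtain ⟨m, hm⟩ := Nat.rfindOpt_spec h
  unfold tryExt at hm
  rw [Option.mem_def] at hm
  split_ifs at hm with h1
  have h2 := Option.some.inj hm
  refine ⟨⟨_, h2.symm⟩, (ofNat (List ℕ × ℕ × ℕ) m).2.1, ?_⟩
  obtain ⟨y, hy⟩ := Option.isSome_iff_exists.1 h1
  rw [← h2]
  exact Part.dom_iff_mem.2 ⟨y, Code.evaln_sound hy⟩

theorem extP_dom {s : ℕ} {σ ρ : List ℕ} (hρ : ∀ b ∈ ρ, b ≤ 1) {j : ℕ}
    (h : ((ofNat Code s).eval (Nat.pair (encode ((σ ++ ρ).take j)) s)).Dom) :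
    (extP s σ).Dom := by
  obtain ⟨y, hy⟩ := Part.dom_iff_mem.1 h
  obtain ⟨n, hn⟩ := Code.evaln_complete.1 hy
  rw [extP, Nat.rfindOpt_dom]
  refine ⟨encode (ρ, j, n), σ ++ ρ, ?_⟩
  unfold tryExt
  rw [ofNat_encode]
  have h1 : ρ.map (· % 2) = ρ := by
    conv_rhs => rw [← List.map_id ρ]
    apply List.map_congr_left
    intro b hb
    have := hρ b hb
    simp only [id]
    omega
  simp only [h1]
  rw [Option.mem_def] at hn
  rw [hn]
  rfl

theorem ext_cases (s : ℕ) (σ : List ℕ) : ∃ ρ : List ℕ, ext s σ = σ ++ ρ.map (· % 2) := by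
  unfold ext
  split_ifs with h
  · exact (extP_spec (Part.get_mem h)).1
  · exact ⟨[], by simp⟩

/-- The value to diagonalise against. -/
def dgP (s : ℕ) (τ : List ℕ) : Part ℕ := (ofNat Code s).eval τ.length

theorem dgP_partrec : Partrec fun p : ℕ × List ℕ => dgP p.1 p.2 :=
  Code.eval_part.comp ((Computable.ofNat Code).comp Computable.fst)
    (Computable.list_length.comp Computable.snd)

open Classical in
/-- Append a diagonalising bit. -/
noncomputable def dg (s : ℕ) (τ : List ℕ) : List ℕ :=
  τ ++ [if h : (dgP s τ).Dom then (if (dgP s τ).get h = 0 then 1 else 0) else 0]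

/-- The finite strings of the construction. -/
noncomputable def st : ℕ → List ℕ
  | 0 => []
  | s + 1 => dg s (ext s (st s))

theorem st_succ (s : ℕ) : st (s + 1) = dg s (ext s (st s)) := rfl

theorem dg_bits {s : ℕ} {τ : List ℕ} (h : ∀ b ∈ τ, b ≤ 1) : ∀ b ∈ dg s τ, b ≤ 1 := by
  intro b hb
  unfold dg at hb
  rcases List.mem_append.1 hb with hb | hb
  · exact h b hb
  · rw [List.mem_singleton] at hb
    rw [hb]
    split_ifs <;> simp

theorem ext_bits {s : ℕ} {σ : List ℕ} (h : ∀ b ∈ σ, b ≤ 1) : ∀ b ∈ ext s σ, b ≤ 1 := by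
  intro b hb
  obtain ⟨ρ, hρ⟩ := ext_cases s σ
  rw [hρ] at hb
  rcases List.mem_append.1 hb with hb | hb
  · exact h b hb
  · obtain ⟨a, _, rfl⟩ := List.mem_map.1 hb
    omega

theorem st_bits (s : ℕ) : ∀ b ∈ st s, b ≤ 1 := by
  induction s with
  | zero => intro b hb; simp [st] at hb
  | succ s ih => exact dg_bits (ext_bits ih)

theorem ext_prefix (s : ℕ) (σ : List ℕ) : σ <+: ext s σ := by
  obtain ⟨ρ, hρ⟩ := ext_cases s σ
  rw [hρ]
  exact List.prefix_append _ _

theorem dg_prefix (s : ℕ) (τ : List ℕ) : τ <+: dg s τ := List.prefix_append _ _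

theorem st_prefix {s s' : ℕ} (h : s ≤ s') : st s <+: st s' := by
  induction s', h using Nat.le_induction with
  | base => exact List.prefix_rfl
  | succ n _ ih => exact ih.trans ((ext_prefix _ _).trans (dg_prefix _ _))

theorem st_length (s : ℕ) : s ≤ (st s).length := by
  induction s with
  | zero => simp
  | succ s ih =>
    have h1 : (ext s (st s)).length + 1 = (st (s + 1)).length := by
      rw [st_succ, dg]
      simp
    have h2 := (ext_prefix s (st s)).length_le
    omega

/-- The constructed set. -/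
def lowSet : Set ℕ := {n | ∃ s, (st s)[n]? = some 1}

theorem st_getElem? {s n : ℕ} (hn : n < (st s).length) : (st s)[n]? = some (chi lowSet n) := by
  have h1 : (st s)[n]? = some ((st s)[n]) := List.getElem?_eq_getElem hn
  have h2 : (st s)[n] ≤ 1 := st_bits s _ (List.getElem_mem hn)
  rcases Nat.lt_or_ge (st s)[n] 1 with h3 | h3
  · have h4 : (st s)[n] = 0 := by omega
    rw [h1, h4]
    congr 1
    symm
    rw [chi_eq_zero]
    rintro ⟨s', hs'⟩
    have hn' : n < (st s').length := by
      by_contra h5
      rw [List.getElem?_eq_none (not_lt.1 h5)] at hs'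
      exact absurd hs' (by simp)
    have h6 : (st s)[n]? = (st s')[n]? := by
      rcases le_total s s' with h | h
      · obtain ⟨τ, hτ⟩ := st_prefix h
        rw [← hτ, List.getElem?_append_left hn]
      · obtain ⟨τ, hτ⟩ := st_prefix h
        rw [← hτ, List.getElem?_append_left hn']
    rw [h1, h4, hs'] at h6
    exact absurd h6 (by simp)
  · have h4 : (st s)[n] = 1 := le_antisymm h2 h3
    rw [h1, h4]
    congr 1
    symm
    rw [chi_eq_one]
    exact ⟨s, by rw [h1, h4]⟩

theorem st_take {s k : ℕ} (hk : k ≤ (st s).length) : (st s).take k = initSeg lowSet k := by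
  apply List.ext_getElem?
  intro i
  rw [initSeg_getElem?, List.getElem?_take]
  split_ifs with h
  · exact st_getElem? (lt_of_lt_of_le h hk)
  · rfl

theorem mem_jump_lowSet (e : ℕ) : e ∈ jump lowSet ↔ (extP e (st e)).Dom := by
  constructor
  · rintro ⟨k, hk⟩
    let s' := max e k
    obtain ⟨ρ, hρ⟩ := st_prefix (le_max_left e k)
    have hk' : k ≤ (st s').length := le_trans (le_max_right e k) (st_length _)
    refine extP_dom (ρ := ρ) (j := k) ?_ ?_
    · intro b hb
      apply st_bits (max e k)
      rw [← hρ]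
      exact List.mem_append_right _ hb
    · rw [hρ, st_take hk']
      exact hk
  · intro h
    have h1 : ext e (st e) = (extP e (st e)).get h := by
      unfold ext
      exact dif_pos h
    obtain ⟨j, hj⟩ := (extP_spec (Part.get_mem h)).2
    rw [← h1] at hj
    have h2 : ext e (st e) = initSeg lowSet (ext e (st e)).length := by
      obtain ⟨τ, hτ⟩ := dg_prefix e (ext e (st e))
      rw [← st_succ] at hτ
      have h3 : (ext e (st e)).length ≤ (st (e + 1)).length := by
        rw [← hτ]
        simp
      rw [← st_take h3, ← hτ]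
      simp
    refine ⟨min j (ext e (st e)).length, ?_⟩
    have h4 : (ext e (st e)).take j = initSeg lowSet (min j (ext e (st e)).length) := by
      have h5 : (ext e (st e)).take j = (ext e (st e)).take (min j (ext e (st e)).length) := by
        rcases le_total j (ext e (st e)).length with h | h
        · rw [min_eq_left h]
        · rw [min_eq_right h, List.take_length, List.take_of_length_le h]
      rw [h5]
      obtain ⟨τ, hτ⟩ := dg_prefix e (ext e (st e))
      rw [← st_succ] at hτ
      have h3 : min j (ext e (st e)).length ≤ (st (e + 1)).length := by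
        rw [← hτ]
        simp
      rw [← st_take h3, ← hτ, List.take_append_of_le_length (min_le_right _ _)]
    rw [← h4]
    exact hj

theorem lowSet_not_computable : ¬ ComputablePred fun n => n ∈ lowSet := by
  rintro ⟨hdec, hcomp⟩
  have h1 : Computable fun n => chi lowSet n := by
    have h2 : (fun n => chi lowSet n) = fun n => cond (decide (n ∈ lowSet)) 1 0 := by
      funext n
      by_cases hn : n ∈ lowSet
      · rw [chi_eq_one.2 hn]
        simp [hn]
      · rw [chi_eq_zero.2 hn]
        simp [hn]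
    rw [h2]
    exact Computable.cond hcomp (Computable.const 1) (Computable.const 0)
  obtain ⟨c, hc⟩ := Code.exists_code.1 (Partrec.nat_iff.1 h1.partrec)
  let s := encode c
  let τ := ext s (st s)
  have h3 : dgP s τ = Part.some (chi lowSet τ.length) := by
    show (ofNat Code (encode c)).eval τ.length = _
    rw [ofNat_encode, hc]
    rfl
  have h4 : (st (s + 1))[τ.length]? = some (if chi lowSet τ.length = 0 then 1 else 0) := by
    have h5 : st (s + 1) = τ ++ [if chi lowSet τ.length = 0 then 1 else 0] := by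
      show dg s τ = _
      unfold dg
      congr 2
      have hd : (dgP s τ).Dom := by rw [h3]; trivial
      rw [dif_pos hd]
      have h7 : chi lowSet τ.length ∈ dgP s τ := by
        rw [h3]
        exact Part.mem_some _
      have h6 : (dgP s τ).get hd = chi lowSet τ.length := Part.mem_unique (Part.get_mem hd) h7
      rw [h6]
    rw [h5]
    simp
  have h5 : τ.length < (st (s + 1)).length := by
    by_contra h
    rw [List.getElem?_eq_none (not_lt.1 h)] at h4
    exact absurd h4 (by simp)
  rw [st_getElem? h5] at h4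
  have h6 := Option.some.inj h4
  split_ifs at h6 with h7 <;> omega

/-! ### The construction is computable in the halting set -/

/-- Domains of partial recursive functions are decided by the halting set. -/
theorem chi_dom_recursiveIn {f : ℕ →. ℕ} (hf : Nat.Partrec f) :
    Nat.RecursiveIn {charFn (jump ∅)} fun n => Part.some (chi {n | (f n).Dom} n) := by
  obtain ⟨g, hg, h⟩ := dom_le_jump (X := ∅) (Nat.Partrec.recursiveIn hf)
  refine (tot_comp (charFn_recursiveIn (jump ∅)) (tot_of_computable hg)).of_eq fun n => ?_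
  congr 1
  have h1 : (f n).Dom ↔ g n ∈ jump ∅ := h n
  by_cases hn : (f n).Dom
  · rw [chi_eq_one.2 (h1.1 hn)]
    symm
    exact chi_eq_one.2 hn
  · rw [chi_eq_zero.2 (fun h => hn (h1.2 h))]
    symm
    exact chi_eq_zero.2 hn

/-- The search on codes. -/
def extPN (p : ℕ) : Part ℕ := (extP p.unpair.1 (ofNat (List ℕ) p.unpair.2)).map encode

theorem extPN_partrec : Nat.Partrec fun p => extPN p := by
  have h0 : Computable fun p : ℕ => (p.unpair.1, ofNat (List ℕ) p.unpair.2) :=
    (Computable.fst.comp Computable.unpair).pair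
      ((Computable.ofNat (List ℕ)).comp (Computable.snd.comp Computable.unpair))
  have h1 : Partrec fun p : ℕ => extP p.unpair.1 (ofNat (List ℕ) p.unpair.2) :=
    Partrec.comp (f := fun p : ℕ × List ℕ => extP p.1 p.2)
      (g := fun p : ℕ => (p.unpair.1, ofNat (List ℕ) p.unpair.2)) extP_partrec h0
  have h2 : Partrec fun p : ℕ => (extP p.unpair.1 (ofNat (List ℕ) p.unpair.2)).map
      (fun l => encode l) :=
    Partrec.map h1 (Computable.encode.comp Computable.snd).to₂
  exact Partrec.nat_iff.1 h2

/-- The extension on codes. -/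
noncomputable def extN (p : ℕ) : ℕ := encode (ext p.unpair.1 (ofNat (List ℕ) p.unpair.2))

theorem extN_recursiveIn : Nat.RecursiveIn {charFn (jump ∅)} fun p => Part.some (extN p) := by
  refine branch (chi_dom_recursiveIn extPN_partrec)
    (tot_of_primrec (Primrec.snd.comp Primrec.unpair)) (Nat.Partrec.recursiveIn extPN_partrec)
    _ ?_ ?_ (fun n => chi_le_one _ _)
  · intro p hp
    have h1 : ¬ (extPN p).Dom := chi_eq_zero.1 hp
    congr 1
    unfold extN ext
    rw [dif_neg]
    · simp
    · intro h
      exact h1 h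
  · intro p hp
    have h1 : (extPN p).Dom := by
      by_contra h
      exact hp (chi_eq_zero.2 h)
    have h2 : (extP p.unpair.1 (ofNat (List ℕ) p.unpair.2)).Dom := h1
    symm
    apply Part.eq_some_iff.2
    refine (Part.mem_map_iff _).2 ⟨_, Part.get_mem h2, ?_⟩
    unfold extN ext
    rw [dif_pos h2]

/-- The diagonal value on codes. -/
def dgPN (p : ℕ) : Part ℕ :=
  (dgP p.unpair.1 (ofNat (List ℕ) p.unpair.2)).map fun v =>
    encode (ofNat (List ℕ) p.unpair.2 ++ [if v = 0 then 1 else 0])

theorem dgPN_partrec : Nat.Partrec fun p => dgPN p := by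
  refine Partrec.nat_iff.1 (Partrec.map ?_ ?_)
  · exact dgP_partrec.comp ((Computable.fst.comp Computable.unpair).pair
      ((Computable.ofNat (List ℕ)).comp (Computable.snd.comp Computable.unpair)))
  · have h1 : Primrec fun q : ℕ × ℕ =>
        encode (ofNat (List ℕ) q.1.unpair.2 ++ [if q.2 = 0 then 1 else 0]) := by
      refine Primrec.encode.comp (Primrec.list_append.comp ?_ ?_)
      · exact (Primrec.ofNat (List ℕ)).comp (Primrec.snd.comp (Primrec.unpair.comp Primrec.fst))
      · refine Primrec.list_cons.comp ?_ (Primrec.const [])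
        exact Primrec.ite (Primrec.eq.comp Primrec.snd (Primrec.const 0)) (Primrec.const 1)
          (Primrec.const 0)
    exact h1.to_comp.to₂

/-- The diagonal step on codes. -/
noncomputable def dgN (p : ℕ) : ℕ := encode (dg p.unpair.1 (ofNat (List ℕ) p.unpair.2))

theorem dgN_recursiveIn : Nat.RecursiveIn {charFn (jump ∅)} fun p => Part.some (dgN p) := by
  have hh : Primrec fun p : ℕ => encode (ofNat (List ℕ) p.unpair.2 ++ [0]) := by
    refine Primrec.encode.comp (Primrec.list_append.comp ?_ (Primrec.const [0]))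
    exact (Primrec.ofNat (List ℕ)).comp (Primrec.snd.comp Primrec.unpair)
  refine branch (chi_dom_recursiveIn dgPN_partrec)
    (tot_of_primrec hh) (Nat.Partrec.recursiveIn dgPN_partrec)
    _ ?_ ?_ (fun n => chi_le_one _ _)
  · intro p hp
    have h1 : ¬ (dgPN p).Dom := chi_eq_zero.1 hp
    congr 1
    unfold dgN dg
    rw [dif_neg]
    intro h
    exact h1 h
  · intro p hp
    have h1 : (dgPN p).Dom := by
      by_contra h
      exact hp (chi_eq_zero.2 h)
    have h2 : (dgP p.unpair.1 (ofNat (List ℕ) p.unpair.2)).Dom := h1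
    symm
    apply Part.eq_some_iff.2
    refine (Part.mem_map_iff _).2 ⟨_, Part.get_mem h2, ?_⟩
    unfold dgN dg
    rw [dif_pos h2]

/-- The codes of the strings of the construction. -/
noncomputable def stN (s : ℕ) : ℕ := encode (st s)

theorem stN_rec (s : ℕ) : stN s = Nat.rec (encode ([] : List ℕ)) (fun y IH =>
    dgN (Nat.pair y (extN (Nat.pair y IH)))) s := by
  induction s with
  | zero => rfl
  | succ s ih =>
    simp only
    rw [← ih]
    simp only [stN, extN, dgN, Nat.unpair_pair, ofNat_encode]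
    rfl

theorem stN_recursiveIn : Nat.RecursiveIn {charFn (jump ∅)} fun s => Part.some (stN s) := by
  have hy : Nat.RecursiveIn {charFn (jump ∅)} fun n => Part.some (n.unpair.2.unpair.1) :=
    tot_of_primrec (Primrec.fst.comp (Primrec.unpair.comp (Primrec.snd.comp Primrec.unpair)))
  have hi : Nat.RecursiveIn {charFn (jump ∅)} fun n => Part.some (n.unpair.2.unpair.2) :=
    tot_of_primrec (Primrec.snd.comp (Primrec.unpair.comp (Primrec.snd.comp Primrec.unpair)))
  have h1 := tot_comp extN_recursiveIn (tot_pair hy hi)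
  have h2 := tot_comp dgN_recursiveIn (tot_pair hy h1)
  have h3 := tot_prec (tot_of_primrec (O := {charFn (jump ∅)})
    (Primrec.const (encode ([] : List ℕ)))) h2
  have h4 := tot_comp h3 (tot_pair (tot_of_primrec (Primrec.const 0)) (tot_of_primrec Primrec.id))
  refine h4.of_eq fun s => ?_
  rw [stN_rec]
  simp only [Nat.unpair_pair, id]

theorem lowSet_isLow : IsLow lowSet := by
  unfold IsLow
  rw [TuringReducible, RecursiveIn.iff_nat]
  refine (tot_comp (chi_dom_recursiveIn extPN_partrec) (tot_pair
    (tot_of_primrec (O := {charFn (jump ∅)}) Primrec.id) stN_recursiveIn)).of_eq fun e => ?_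
  show Part.some _ = Part.some _
  congr 1
  have h1 : (extPN (Nat.pair (id e) (stN e))).Dom ↔ (extP e (st e)).Dom := by
    simp [extPN, stN]
  by_cases he : e ∈ jump lowSet
  · rw [chi_eq_one.2 he]
    exact chi_eq_one.2 (h1.2 ((mem_jump_lowSet e).1 he))
  · rw [chi_eq_zero.2 he]
    exact chi_eq_zero.2 fun h => he ((mem_jump_lowSet e).2 (h1.1 h))

end Pool.Agent.Lib.MP_1308e3_lc
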