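import Pool.Agent.Lib.MP_1308e3_lc.OrderLow
import Pool.Agent.Lib.MP_1308e3_lc.LowSet

/-!
# A computable field with a low ordering without computable copy
-/

set_option autoImplicit false

namespace Pool.Agent.Lib.MP_1308e3_lc

open Encodable Denumerable

/-- The set coded by a real is computable from a computable ordered field containing the real. -/
theorem computable_of_cut {χ : ℕ → ℕ} (hχ : ∀ n, χ n ≤ 1) {K : Type} [Field K] [LinearOrder K]
    {μ : K → ℕ} (hK : IsComputablePresentation μ)
    (hord : ComputablePred fun n => n ∈ orderSet μ)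
    (t : K) (ht : ∀ m d : ℕ, 0 < d → ((m : ℝ) / d < rr χ ↔ (m : K) < (d : K) * t)) :
    Computable χ := by
  classical
  obtain ⟨f, hf, hadd⟩ := hK.add
  -- codes of the natural numbers and of the natural multiples of `t`
  let u : ℕ → ℕ := fun m => μ (m : K)
  have hu : Computable u := by
    have h1 : Computable fun m : ℕ =>
        (Nat.rec (μ 0) (fun _ IH => f IH (μ 1)) m : ℕ) := by
      refine Computable.nat_rec (f := fun m : ℕ => m) (g := fun _ => μ 0)
        (h := fun (_ : ℕ) (p : ℕ × ℕ) => f p.2 (μ 1)) Computable.id (Computable.const _) ?_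
      exact (hf.comp (Computable.snd.comp Computable.snd) (Computable.const _)).to₂
    refine h1.of_eq fun m => ?_
    induction m with
    | zero =>
      show μ 0 = μ ((0 : ℕ) : K)
      rw [Nat.cast_zero]
    | succ m ih =>
      simp only at ih ⊢
      rw [ih]
      show f (μ (m : K)) (μ 1) = μ ((m + 1 : ℕ) : K)
      rw [hadd, Nat.cast_succ]
  let v : ℕ → ℕ := fun d => μ ((d : K) * t)
  have hv : Computable v := by
    have h1 : Computable fun m : ℕ =>
        (Nat.rec (μ 0) (fun _ IH => f IH (μ t)) m : ℕ) := by
      refine Computable.nat_rec (f := fun m : ℕ => m) (g := fun _ => μ 0)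
        (h := fun (_ : ℕ) (p : ℕ × ℕ) => f p.2 (μ t)) Computable.id (Computable.const _) ?_
      exact (hf.comp (Computable.snd.comp Computable.snd) (Computable.const _)).to₂
    refine h1.of_eq fun m => ?_
    induction m with
    | zero =>
      show μ 0 = μ (((0 : ℕ) : K) * t)
      rw [Nat.cast_zero, zero_mul]
    | succ m ih =>
      simp only at ih ⊢
      rw [ih]
      show f (μ ((m : K) * t)) (μ t) = μ (((m + 1 : ℕ) : K) * t)
      rw [hadd, Nat.cast_succ, add_mul, one_mul]
  -- the decision bit
  let c : ℕ → ℕ → ℕ := fun k M => cond (decide (Nat.pair (u (M + 2)) (v (4 ^ E k)) ∈ orderSet μ)) 1 0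
  have hc : Computable₂ c := by
    have h1 : Computable fun n : ℕ => decide (n ∈ orderSet μ) := by
      obtain ⟨_, h⟩ := hord
      exact h.of_eq fun n => by congr
    have h2 : Computable fun p : ℕ × ℕ => Nat.pair (u (p.2 + 2)) (v (4 ^ E p.1)) := by
      refine Primrec₂.natPair.to_comp.comp (hu.comp ?_) (hv.comp ?_)
      · exact (Primrec.nat_add.comp Primrec.snd (Primrec.const 2)).to_comp
      · exact (pow_primrec.comp (Primrec.const 4) (E_primrec.comp Primrec.fst)).to_comp
    exact Computable.cond (h1.comp h2) (Computable.const 1) (Computable.const 0)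
  have hcspec : ∀ k, c k (seqM χ k) = χ k := by
    intro k
    have h1 : Nat.pair (u (seqM χ k + 2)) (v (4 ^ E k)) ∈ orderSet μ ↔ χ k = 1 := by
      rw [decode_iff hχ k, ht _ _ (by positivity)]
      constructor
      · rintro ⟨a, b, hab, h⟩
        have h3 := Nat.pair_eq_pair.1 h
        have h4 : a = ((seqM χ k + 2 : ℕ) : K) := hK.injective h3.1.symm
        have h5 : b = ((4 ^ E k : ℕ) : K) * t := hK.injective h3.2.symm
        rw [← h4, ← h5]
        exact hab
      · intro h
        exact ⟨_, _, h, rfl⟩
    have h2 := hχ k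
    by_cases h3 : χ k = 1
    · show cond (decide _) 1 0 = χ k
      rw [decide_eq_true (h1.2 h3), cond_true, h3]
    · show cond (decide _) 1 0 = χ k
      rw [decide_eq_false (fun h => h3 (h1.1 h)), cond_false]
      omega
  -- the numerators are computable
  have hM : Computable (seqM χ) := by
    have h1 : Computable fun k : ℕ =>
        (Nat.rec 0 (fun i m => (m + c i m + 1) * 4 ^ (E (i + 1) - E i)) k : ℕ) := by
      refine Computable.nat_rec (f := fun k : ℕ => k) (g := fun _ => 0)
        (h := fun (_ : ℕ) (p : ℕ × ℕ) => (p.2 + c p.1 p.2 + 1) * 4 ^ (E (p.1 + 1) - E p.1))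
        Computable.id (Computable.const _) ?_
      have hi : Computable fun q : ℕ × ℕ × ℕ => q.2.1 := Computable.fst.comp Computable.snd
      have hm : Computable fun q : ℕ × ℕ × ℕ => q.2.2 := Computable.snd.comp Computable.snd
      have h2 : Computable fun q : ℕ × ℕ × ℕ => q.2.2 + c q.2.1 q.2.2 + 1 :=
        Primrec.succ.to_comp.comp (Primrec.nat_add.to_comp.comp hm (hc.comp hi hm))
      have h3 : Primrec fun i : ℕ => 4 ^ (E (i + 1) - E i) :=
        pow_primrec.comp (Primrec.const 4) (Primrec.nat_sub.comp (E_primrec.comp Primrec.succ)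
          E_primrec)
      exact (Primrec.nat_mul.to_comp.comp h2 (h3.to_comp.comp hi)).to₂
    refine h1.of_eq fun k => ?_
    induction k with
    | zero => rfl
    | succ k ih =>
      simp only at ih ⊢
      rw [ih, hcspec, seqM]
  exact (hc.comp Computable.id hM).of_eq hcspec

section

variable {r : ℝ} (hr : Transcendental ℤ r)

/-- The presentation of the field of values. -/
noncomputable def nu (x : FF hr) : ℕ := rep (Classical.choose x.2)

theorem delta_nu (x : FF hr) : delta r (nu hr x) = x.1 := by
  rw [nu, delta_rep hr]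
  exact Classical.choose_spec x.2

theorem nu_injective : Function.Injective (nu hr) := by
  intro x y h
  apply Subtype.ext
  rw [← delta_nu hr x, ← delta_nu hr y, h]

theorem nu_mem_Dom (x : FF hr) : nu hr x ∈ Dom := rep_mem_Dom _

theorem nu_eq {x : FF hr} {n : ℕ} (h : x.1 = delta r n) : nu hr x = rep n := by
  have h1 : rep (nu hr x) = rep n := rep_eq_of_delta_eq hr (by rw [delta_nu, h])
  rw [← h1]
  exact (show rep (nu hr x) = nu hr x from nu_mem_Dom hr x).symm

theorem range_nu : Set.range (nu hr) = Dom := by
  ext n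
  constructor
  · rintro ⟨x, rfl⟩
    exact nu_mem_Dom hr x
  · intro hn
    refine ⟨⟨delta r n, n, rfl⟩, ?_⟩
    rw [nu_eq hr rfl]
    exact hn

theorem nu_isComputablePresentation : IsComputablePresentation (nu hr) where
  injective := nu_injective hr
  domain := by
    rw [range_nu hr]
    exact Dom_computable
  add := by
    refine ⟨fun m n => rep (addC m n), rep_computable.comp addC_primrec.to_comp, ?_⟩
    intro x y
    symm
    apply nu_eq hr
    rw [delta_addC hr, delta_nu, delta_nu]
    rfl
  mul := by
    refine ⟨fun m n => rep (mulC m n), rep_computable.comp mulC_primrec.to_comp, ?_⟩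
    intro x y
    symm
    apply nu_eq hr
    rw [delta_mulC hr, delta_nu, delta_nu]
    rfl

end

theorem orderSet_nu (X : Set ℕ) :
    orderSet (nu (rr_transcendental (chi_le_one X))) = ordSet X := by
  set hr := rr_transcendental (chi_le_one X)
  ext n
  constructor
  · rintro ⟨x, y, hxy, rfl⟩
    refine ⟨?_, ?_, ?_⟩
    · rw [Nat.unpair_pair]
      exact nu_mem_Dom hr x
    · rw [Nat.unpair_pair]
      exact nu_mem_Dom hr y
    · rw [Nat.unpair_pair]
      simp only
      rw [delta_nu hr, delta_nu hr]
      exact hxy
  · rintro ⟨h1, h2, h3⟩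
    rw [← range_nu hr] at h1 h2
    obtain ⟨x, hx⟩ := h1
    obtain ⟨y, hy⟩ := h2
    refine ⟨x, y, ?_, ?_⟩
    · rw [← hx, ← hy, delta_nu hr, delta_nu hr] at h3
      exact h3
    · rw [hx, hy, Nat.pair_unpair]

/-- The code of the variable. -/
def varCode : ℕ := encode ((([0, 1], []), zone) : Q)

theorem delta_varCode {r : ℝ} (hr : Transcendental ℤ r) : delta r varCode = r := by
  rw [varCode, delta_encode hr, zev_zone, div_one]
  simp [zev, ev_sum, Finset.sum_range_succ]

/-- No computable copy if the coded set is not computable. -/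
theorem no_computable_copy {X : Set ℕ} (hX : ¬ ComputablePred fun n => n ∈ X)
    {K : Type} [Field K] [LinearOrder K] [IsStrictOrderedRing K] {μ : K → ℕ}
    (hK : IsComputablePresentation μ) (hord : ComputablePred fun n => n ∈ orderSet μ) :
    IsEmpty (FF (rr_transcendental (chi_le_one X)) ≃+*o K) := by
  classical
  constructor
  intro φ
  set hr := rr_transcendental (chi_le_one X)
  apply hX
  let t : FF hr := ⟨rr (chi X), varCode, delta_varCode hr⟩
  have h1 : Computable (chi X) := by
    refine computable_of_cut (chi_le_one X) hK hord (φ t) ?_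
    intro m d hd
    have h2 : (m : ℝ) / d < rr (chi X) ↔ (m : FF hr) < (d : FF hr) * t := by
      rw [div_lt_iff₀ (by exact_mod_cast hd), mul_comm]
      exact Iff.rfl
    have h3 : ∀ a b, φ a < φ b ↔ a < b := fun a b => φ.toOrderIso.lt_iff_lt
    rw [h2, ← h3]
    simp
  have h2 : Computable fun n => decide (chi X n = 1) :=
    Primrec.eq.decide.to_comp.comp h1 (Computable.const 1)
  refine ⟨fun n => inferInstance, h2.of_eq fun n => ?_⟩
  apply decide_eq_decide.2
  exact chi_eq_one

end Pool.Agent.Lib.MP_1308e3_lc
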