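import Pool.Agent.Lib.MP_1308e3_lc.FieldY

/-!
# No computable field isomorphic to the constructed field has a computable ordering
-/

set_option autoImplicit false

namespace Pool.Agent.Lib.MP_1308e3_lc

open Encodable Denumerable Nat.Partrec

section

variable {K : Type} [Field K] [LinearOrder K] [IsStrictOrderedRing K]

theorem phi_sq_pos (φ : FY ≃+* K) (j : ℕ) : 0 < φ (yY j ^ 2) := by
  rw [map_pow]
  have h1 : φ (yY j) ≠ 0 := by
    intro h
    exact yY_ne j ((map_eq_zero φ).1 h)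
  positivity

theorem phi_t_bounds (φ : FY ≃+* K) : 0 < φ tY ∧ φ tY < 1 := by
  have h1 := phi_sq_pos φ 0
  rw [yY_sq_zero, map_sub, map_pow] at h1
  constructor
  · by_contra h
    push Not at h
    have h2 : 0 ≤ φ tY ^ 2 := sq_nonneg _
    linarith
  · by_contra h
    push Not at h
    have h2 : φ tY * 1 ≤ φ tY * φ tY := mul_le_mul_of_nonneg_left h (by linarith)
    rw [← sq, mul_one] at h2
    linarith

theorem phi_stage (φ : FY ≃+* K) (s : ℕ) :
    0 < ((stDn s : K) * φ tY - ((stg s).1 * 3 ^ (s + 5) - 2 ^ (stg s).2)) *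
      ((stDn s : K) * φ tY - (stB s : K)) := by
  have h1 := phi_sq_pos φ (s + 1)
  rw [yY_sq_succ] at h1
  have h3 : φ 3 = 3 := map_ofNat φ 3
  have h2 : φ 2 = 2 := map_ofNat φ 2
  simpa [h3, h2] using h1

/-- The value is not in any of the chosen intervals. -/
theorem phi_not_mem (φ : FY ≃+* K) {s M n : ℕ} (hs : stg s = (M, n))
    (h1 : (M : K) < 2 ^ n * φ tY) (h2 : 2 ^ n * φ tY < (M : K) + 1) : False := by
  have h3 := phi_stage φ s
  unfold stDn stB at h3
  rw [hs] at h3
  push_cast at h3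
  have h4 : (0 : K) < 3 ^ (s + 5) := by positivity
  have h5 : (0 : K) < 2 ^ n := by positivity
  have h6 : (M : K) * 3 ^ (s + 5) < (2 ^ n * φ tY) * 3 ^ (s + 5) := mul_lt_mul_of_pos_right h1 h4
  have h7 : (2 ^ n * φ tY) * 3 ^ (s + 5) < ((M : K) + 1) * 3 ^ (s + 5) :=
    mul_lt_mul_of_pos_right h2 h4
  have h8 : 0 < (2 ^ n * 3 ^ (s + 5) * φ tY - ((M : K) * 3 ^ (s + 5) - 2 ^ n)) := by
    have : 2 ^ n * 3 ^ (s + 5) * φ tY = (2 ^ n * φ tY) * 3 ^ (s + 5) := by ring
    rw [this]
    linarith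
  have h9 : (2 ^ n * 3 ^ (s + 5) * φ tY - (((M : K) + 1) * 3 ^ (s + 5) + 2 ^ n)) < 0 := by
    have : 2 ^ n * 3 ^ (s + 5) * φ tY = (2 ^ n * φ tY) * 3 ^ (s + 5) := by ring
    rw [this]
    linarith
  exact absurd h3 (not_lt.2 (mul_nonpos_of_nonneg_of_nonpos h8.le h9.le))

theorem exists_floor (φ : FY ≃+* K) (k : ℕ) :
    ∃ M : ℕ, (M : K) < 2 ^ k * φ tY ∧ 2 ^ k * φ tY < (M : K) + 1 := by
  classical
  obtain ⟨h0, h1⟩ := phi_t_bounds φ
  have h2 : (0 : K) < 2 ^ k := by positivity
  have hex : ∃ M : ℕ, 2 ^ k * φ tY < (M : K) := by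
    refine ⟨2 ^ k, ?_⟩
    push_cast
    nlinarith
  have h3 := Nat.find_spec hex
  have hne : Nat.find hex ≠ 0 := by
    intro h
    rw [h, Nat.cast_zero] at h3
    have := mul_pos h2 h0
    linarith
  obtain ⟨M, hM⟩ := Nat.exists_eq_succ_of_ne_zero hne
  have h4 : ¬ 2 ^ k * φ tY < (M : K) := Nat.find_min hex (by omega)
  rw [hM] at h3
  push_cast at h3
  refine ⟨M, lt_of_le_of_ne (not_lt.1 h4) ?_, h3⟩
  intro h
  apply tY_ne_nat_div M (2 ^ k) (by positivity)
  apply φ.injective
  have h2 : φ 2 = 2 := map_ofNat φ 2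
  simpa [h2] using h

theorem no_computable_ordering {μ : K → ℕ} (hK : IsComputablePresentation μ)
    (hord : ComputablePred fun n => n ∈ orderSet μ) : IsEmpty (FY ≃+* K) := by
  classical
  constructor
  intro φ
  obtain ⟨f, hf, hadd⟩ := hK.add
  set t : K := φ tY with ht
  -- codes of the natural numbers and of the natural multiples of `t`
  let u : ℕ → ℕ := fun m => μ (m : K)
  have hu : Computable u := by
    have h1 : Computable fun m : ℕ =>
        (Nat.rec (μ 0) (fun _ IH => f IH (μ 1)) m : ℕ) := by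
      refine Computable.nat_rec (f := fun m : ℕ => m) (g := fun _ => μ 0)
        (h := fun (_ : ℕ) (p : ℕ × ℕ) => f p.2 (μ 1)) Computable.id (Computable.const _) ?_
      exact (hf.comp (Computable.snd.comp Computable.snd) (Computable.const _)).to₂
    refine h1.of_eq fun m => ?_
    induction m with
    | zero =>
      show μ 0 = μ ((0 : ℕ) : K)
      rw [Nat.cast_zero]
    | succ m ih =>
      simp only at ih ⊢
      rw [ih]
      show f (μ (m : K)) (μ 1) = μ ((m + 1 : ℕ) : K)
      rw [hadd, Nat.cast_succ]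
  let v : ℕ → ℕ := fun d => μ ((d : K) * t)
  have hv : Computable v := by
    have h1 : Computable fun m : ℕ =>
        (Nat.rec (μ 0) (fun _ IH => f IH (μ t)) m : ℕ) := by
      refine Computable.nat_rec (f := fun m : ℕ => m) (g := fun _ => μ 0)
        (h := fun (_ : ℕ) (p : ℕ × ℕ) => f p.2 (μ t)) Computable.id (Computable.const _) ?_
      exact (hf.comp (Computable.snd.comp Computable.snd) (Computable.const _)).to₂
    refine h1.of_eq fun m => ?_
    induction m with
    | zero =>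
      show μ 0 = μ (((0 : ℕ) : K) * t)
      rw [Nat.cast_zero, zero_mul]
    | succ m ih =>
      simp only at ih ⊢
      rw [ih]
      show f (μ ((m : K) * t)) (μ t) = μ (((m + 1 : ℕ) : K) * t)
      rw [hadd, Nat.cast_succ, add_mul, one_mul]
  have hd : Computable fun n : ℕ => decide (n ∈ orderSet μ) := by
    obtain ⟨_, h⟩ := hord
    exact h.of_eq fun n => by congr
  have hmem : ∀ x y : K, Nat.pair (μ x) (μ y) ∈ orderSet μ ↔ x < y := by
    intro x y
    constructor
    · rintro ⟨a, b, hab, h⟩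
      obtain ⟨h3, h4⟩ := Nat.pair_eq_pair.1 h
      rw [hK.injective h3, hK.injective h4]
      exact hab
    · intro h
      exact ⟨x, y, h, rfl⟩
  let P : ℕ → ℕ → Prop := fun k M => Nat.pair (u M) (v (2 ^ k)) ∈ orderSet μ ∧
    Nat.pair (v (2 ^ k)) (u (M + 1)) ∈ orderSet μ
  have hPiff : ∀ k M, P k M ↔ (M : K) < 2 ^ k * t ∧ 2 ^ k * t < (M : K) + 1 := by
    intro k M
    show (Nat.pair (μ (M : K)) (μ (((2 ^ k : ℕ) : K) * t)) ∈ orderSet μ ∧
      Nat.pair (μ (((2 ^ k : ℕ) : K) * t)) (μ ((M + 1 : ℕ) : K)) ∈ orderSet μ) ↔ _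
    rw [hmem, hmem]
    push_cast
    exact Iff.rfl
  have hPex : ∀ k, ∃ M, P k M := by
    intro k
    obtain ⟨M, hM⟩ := exists_floor φ k
    exact ⟨M, (hPiff k M).2 hM⟩
  have hPc : ComputablePred fun p : ℕ × ℕ => P p.1 p.2 := by
    have hp2 : Computable fun p : ℕ × ℕ => 2 ^ p.1 :=
      (pow_primrec.comp (Primrec.const 2) Primrec.fst).to_comp
    have h1 : Computable fun p : ℕ × ℕ => Nat.pair (u p.2) (v (2 ^ p.1)) :=
      Primrec₂.natPair.to_comp.comp (hu.comp Computable.snd) (hv.comp hp2)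
    have h2 : Computable fun p : ℕ × ℕ => Nat.pair (v (2 ^ p.1)) (u (p.2 + 1)) :=
      Primrec₂.natPair.to_comp.comp (hv.comp hp2)
        (hu.comp (Primrec.succ.to_comp.comp Computable.snd))
    have h3 := Primrec.and.to_comp.comp (hd.comp h1) (hd.comp h2)
    refine ⟨fun p => inferInstance, h3.of_eq fun p => ?_⟩
    show (decide _ && decide _) = decide (_ ∧ _)
    rw [Bool.decide_and]
  have hfind : Computable fun k => Nat.find (hPex k) := Computable.find (P := P) hPc hPex
  obtain ⟨c, hc⟩ := Code.exists_code.1 (Partrec.nat_iff.1 hfind)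
  set e := encode c with he
  set M := Nat.find (hPex (e + 3)) with hM
  have hMs := (hPiff (e + 3) M).1 (Nat.find_spec (hPex (e + 3)))
  have hev : M ∈ c.eval (e + 3) := by
    rw [hc]
    exact Part.mem_some _
  obtain ⟨k, hk⟩ := Code.evaln_complete.1 hev
  have hs : stg (Nat.pair e k) = (M, e + 3) := by
    unfold stg
    rw [Nat.unpair_pair]
    have h1 : (ofNat Code e) = c := by rw [he, ofNat_encode]
    simp only
    rw [h1, Option.mem_def.1 hk]
    rfl
  exact phi_not_mem φ hs hMs.1 hMs.2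

end

end Pool.Agent.Lib.MP_1308e3_lc
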