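import Pool.Agent.Lib.MP_1308e3_lc.Defs

/-!
# Oracle computations: basic closure properties and use functions
-/

set_option autoImplicit false

namespace Pool.Agent.Lib.MP_1308e3_lc

open Encodable Denumerable Nat.Partrec

theorem chi_le_one (X : Set ℕ) (n : ℕ) : chi X n ≤ 1 := by
  unfold chi
  split_ifs <;> simp

theorem chi_eq_one {X : Set ℕ} {n : ℕ} : chi X n = 1 ↔ n ∈ X := by
  unfold chi
  split_ifs with h <;> simp [h]

theorem chi_eq_zero {X : Set ℕ} {n : ℕ} : chi X n = 0 ↔ n ∉ X := by
  unfold chi
  split_ifs with h <;> simp [h]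

theorem initSeg_length (X : Set ℕ) (k : ℕ) : (initSeg X k).length = k := by
  simp [initSeg]

theorem initSeg_succ (X : Set ℕ) (k : ℕ) :
    initSeg X (k + 1) = initSeg X k ++ [chi X k] := by
  simp [initSeg, List.range_succ]

theorem initSeg_prefix_of_le (X : Set ℕ) {k k' : ℕ} (h : k ≤ k') :
    initSeg X k <+: initSeg X k' := by
  induction k', h using Nat.le_induction with
  | base => exact List.prefix_rfl
  | succ n _ ih =>
    rw [initSeg_succ]
    exact ih.trans (List.prefix_append _ _)

theorem initSeg_getElem? (X : Set ℕ) (k i : ℕ) :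
    (initSeg X k)[i]? = if i < k then some (chi X i) else none := by
  unfold initSeg
  by_cases h : i < k
  · simp [h]
  · simp [h]

/-! ### Closure properties of relative recursiveness for total functions -/

section closure

variable {O : Set (ℕ →. ℕ)}

theorem comp_tot {f : ℕ →. ℕ} {g : ℕ → ℕ} (hf : Nat.RecursiveIn O f)
    (hg : Nat.RecursiveIn O fun n => Part.some (g n)) :
    Nat.RecursiveIn O fun n => f (g n) := by
  refine (Nat.RecursiveIn.comp hf hg).of_eq fun n => ?_
  show (Part.some (g n)).bind f = f (g n)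
  exact Part.bind_some _ _

theorem tot_comp {f g : ℕ → ℕ} (hf : Nat.RecursiveIn O fun n => Part.some (f n))
    (hg : Nat.RecursiveIn O fun n => Part.some (g n)) :
    Nat.RecursiveIn O fun n => Part.some (f (g n)) :=
  comp_tot (f := fun n => Part.some (f n)) hf hg

theorem tot_pair {f g : ℕ → ℕ} (hf : Nat.RecursiveIn O fun n => Part.some (f n))
    (hg : Nat.RecursiveIn O fun n => Part.some (g n)) :
    Nat.RecursiveIn O fun n => Part.some (Nat.pair (f n) (g n)) := by
  refine (Nat.RecursiveIn.pair hf hg).of_eq fun n => ?_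
  simp [Seq.seq]

theorem tot_of_computable {f : ℕ → ℕ} (hf : Computable f) :
    Nat.RecursiveIn O fun n => Part.some (f n) :=
  Nat.Partrec.recursiveIn (Partrec.nat_iff.1 hf.partrec)

theorem tot_of_primrec {f : ℕ → ℕ} (hf : Primrec f) :
    Nat.RecursiveIn O fun n => Part.some (f n) := tot_of_computable hf.to_comp

theorem tot_prec {f : ℕ → ℕ} {h : ℕ → ℕ} (hf : Nat.RecursiveIn O fun n => Part.some (f n))
    (hh : Nat.RecursiveIn O fun n => Part.some (h n)) :
    Nat.RecursiveIn O fun p => Part.some
      (Nat.rec (f p.unpair.1) (fun y IH => h (Nat.pair p.unpair.1 (Nat.pair y IH))) p.unpair.2) := by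
  refine (Nat.RecursiveIn.prec hf hh).of_eq fun p => ?_
  simp only
  induction p.unpair.2 with
  | zero => rfl
  | succ n ih =>
    simp only
    rw [ih]
    exact Part.bind_some _ _

/-- Branching: on bit `0` return a total function, on bit `1` a partial one. -/
theorem branch {c : ℕ → ℕ} {h : ℕ → ℕ} {g : ℕ →. ℕ} (hc : Nat.RecursiveIn O fun n => Part.some (c n))
    (hh : Nat.RecursiveIn O fun n => Part.some (h n)) (hg : Nat.RecursiveIn O g)
    (f : ℕ →. ℕ) (hf0 : ∀ n, c n = 0 → f n = Part.some (h n)) (hf1 : ∀ n, c n ≠ 0 → f n = g n)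
    (hc1 : ∀ n, c n ≤ 1) : Nat.RecursiveIn O f := by
  have h1 : Nat.RecursiveIn O fun p => g (Nat.unpair p).1 :=
    comp_tot hg (tot_of_primrec (Primrec.fst.comp Primrec.unpair))
  have h2 := Nat.RecursiveIn.prec hh h1
  have h3 : Nat.RecursiveIn O fun n => Part.some (Nat.pair n (c n)) :=
    tot_pair (tot_of_primrec Primrec.id) hc
  refine (comp_tot h2 h3).of_eq fun n => ?_
  simp only [Nat.unpair_pair]
  rcases Nat.lt_or_ge (c n) 1 with h4 | h4
  · have h5 : c n = 0 := by omega
    rw [hf0 n h5, h5]
    rfl
  · have h5 : c n = 1 := le_antisymm (hc1 n) h4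
    rw [hf1 n (by omega), h5]
    show (Part.some (h n)).bind (fun _ => g n) = g n
    exact Part.bind_some _ _

/-- Unbounded search followed by a total function. -/
theorem search {T V : ℕ → ℕ} (hT : Nat.RecursiveIn O fun n => Part.some (T n))
    (hV : Nat.RecursiveIn O fun n => Part.some (V n)) :
    Nat.RecursiveIn O fun n =>
      (Nat.rfind fun t => Part.some (decide (T (Nat.pair n t) = 0))).bind
        fun t => Part.some (V (Nat.pair n t)) := by
  have hR := Nat.RecursiveIn.rfind hT
  refine (Nat.RecursiveIn.comp hV (Nat.RecursiveIn.pair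
    (tot_of_primrec (O := O) Primrec.id) hR)).of_eq fun n => ?_
  have h1 : (fun t => (fun m : ℕ => decide (m = 0)) <$>
      (Part.some (T (Nat.pair n t)) : Part ℕ)) =
      fun t => Part.some (decide (T (Nat.pair n t) = 0)) := by
    funext t
    exact Part.map_some _ _
  simp only [id]
  rw [h1]
  generalize (Nat.rfind fun t => Part.some (decide (T (Nat.pair n t) = 0))) = R
  apply Part.ext
  intro y
  simp [Seq.seq]

end closure

/-! ### Initial segments are computable from the oracle -/

theorem charFn_recursiveIn (X : Set ℕ) : Nat.RecursiveIn {charFn X} fun n => Part.some (chi X n) :=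
  Nat.RecursiveIn.oracle _ (Set.mem_singleton _)

/-- Append an entry, on codes. -/
def appendBit (p : ℕ) : ℕ :=
  encode ((ofNat (List ℕ) p.unpair.1) ++ [p.unpair.2])

theorem appendBit_primrec : Primrec appendBit :=
  Primrec.encode.comp (Primrec.list_append.comp
    ((Primrec.ofNat (List ℕ)).comp (Primrec.fst.comp Primrec.unpair))
    (Primrec.list_cons.comp (Primrec.snd.comp Primrec.unpair) (Primrec.const [])))

/-- The codes of the initial segments. -/
noncomputable def segCode (X : Set ℕ) (k : ℕ) : ℕ := encode (initSeg X k)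

theorem segCode_rec (X : Set ℕ) (k : ℕ) :
    segCode X k = Nat.rec (encode ([] : List ℕ)) (fun y IH =>
      appendBit (Nat.pair IH (chi X y))) k := by
  induction k with
  | zero => simp [segCode, initSeg]
  | succ k ih =>
    simp only
    rw [← ih, appendBit, segCode, initSeg_succ]
    simp only [Nat.unpair_pair, segCode, ofNat_encode]

theorem segCode_recursiveIn (X : Set ℕ) :
    Nat.RecursiveIn {charFn X} fun k => Part.some (segCode X k) := by
  have h1 : Nat.RecursiveIn {charFn X} fun n =>
      Part.some (chi X (Nat.unpair (Nat.unpair n).2).1) :=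
    tot_comp (charFn_recursiveIn X) (tot_of_primrec (Primrec.fst.comp (Primrec.unpair.comp
        (Primrec.snd.comp Primrec.unpair))))
  have h2 : Nat.RecursiveIn {charFn X} fun n => Part.some ((Nat.unpair (Nat.unpair n).2).2) :=
    tot_of_primrec (Primrec.snd.comp (Primrec.unpair.comp (Primrec.snd.comp Primrec.unpair)))
  have h3 := tot_comp (tot_of_primrec (O := {charFn X}) appendBit_primrec) (tot_pair h2 h1)
  have h4 := tot_prec (tot_of_primrec (O := {charFn X})
    (Primrec.const (encode ([] : List ℕ)))) h3
  have h5 := tot_comp h4 (tot_pair (tot_of_primrec (Primrec.const 0)) (tot_of_primrec Primrec.id))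
  refine h5.of_eq fun k => ?_
  rw [segCode_rec]
  simp only [Nat.unpair_pair, id]

/-! ### From use functions to relative recursiveness -/

/-- A partial function computed by a partial recursive function from initial segments of `X` is
recursive in `X`. -/
theorem recursiveIn_of_use {X : Set ℕ} {G : List ℕ → ℕ →. ℕ} (hG : Partrec₂ G) {f : ℕ →. ℕ}
    (h : ∀ n y, y ∈ f n ↔ ∃ k, y ∈ G (initSeg X k) n) : Nat.RecursiveIn {charFn X} f := by
  -- code of `G`
  have hG' : Nat.Partrec fun p : ℕ => G (ofNat (List ℕ) p.unpair.1) p.unpair.2 :=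
    Partrec.nat_iff.1 (hG.comp ((Computable.ofNat (List ℕ)).comp
      (Computable.fst.comp Computable.unpair)) (Computable.snd.comp Computable.unpair))
  obtain ⟨c, hc⟩ := Code.exists_code.1 hG'
  -- the search function: input `⟨n, t⟩`, with `t = ⟨k, s⟩`
  let ev : ℕ → Option ℕ := fun p =>
    Code.evaln p.unpair.2.unpair.2 c (Nat.pair p.unpair.2.unpair.1 p.unpair.1)
  have hev : Primrec ev := by
    have h1 : Primrec fun p : ℕ => p.unpair.2.unpair.2 :=
      Primrec.snd.comp (Primrec.unpair.comp (Primrec.snd.comp Primrec.unpair))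
    have h2 : Primrec fun p : ℕ => Nat.pair p.unpair.2.unpair.1 p.unpair.1 :=
      Primrec₂.natPair.comp (Primrec.fst.comp (Primrec.unpair.comp (Primrec.snd.comp
        Primrec.unpair))) (Primrec.fst.comp Primrec.unpair)
    exact Code.primrec_evaln.comp ((h1.pair (Primrec.const c)).pair h2)
  let T : ℕ → ℕ := fun p => if (ev p).isSome then 0 else 1
  have hT : Primrec T :=
    Primrec.ite (Primrec.eq.comp (Primrec.option_isSome.comp hev) (Primrec.const true))
      (Primrec.const 0) (Primrec.const 1)
  let V : ℕ → ℕ := fun p => (ev p).getD 0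
  have hV : Primrec V := Primrec.option_getD.comp hev (Primrec.const 0)
  -- replace `k` by the code of the initial segment
  let S : ℕ → ℕ := fun p => Nat.pair p.unpair.1
    (Nat.pair (segCode X p.unpair.2.unpair.1) p.unpair.2.unpair.2)
  have hS : Nat.RecursiveIn {charFn X} fun p => Part.some (S p) := by
    refine tot_pair (tot_of_primrec (Primrec.fst.comp Primrec.unpair)) (tot_pair ?_ ?_)
    · exact tot_comp (segCode_recursiveIn X) (tot_of_primrec (Primrec.fst.comp
        (Primrec.unpair.comp (Primrec.snd.comp Primrec.unpair))))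
    · exact tot_of_primrec (Primrec.snd.comp (Primrec.unpair.comp (Primrec.snd.comp
        Primrec.unpair)))
  have hTS : Nat.RecursiveIn {charFn X} fun p => Part.some (T (S p)) :=
    tot_comp (tot_of_primrec hT) hS
  have hVS : Nat.RecursiveIn {charFn X} fun p => Part.some (V (S p)) :=
    tot_comp (tot_of_primrec hV) hS
  refine (search hTS hVS).of_eq fun n => ?_
  -- specification of `ev ∘ S`
  have hspec : ∀ k s y, ev (S (Nat.pair n (Nat.pair k s))) = some y →
      y ∈ G (initSeg X k) n := by
    intro k s y hy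
    have h1 := Code.evaln_sound (show y ∈ Code.evaln _ c _ from hy)
    rw [hc] at h1
    simpa [S, segCode] using h1
  have hspec' : ∀ k y, y ∈ G (initSeg X k) n → ∃ s, ev (S (Nat.pair n (Nat.pair k s))) = some y := by
    intro k y hy
    have h1 : y ∈ c.eval (Nat.pair (segCode X k) n) := by
      rw [hc]
      simpa [segCode] using hy
    obtain ⟨s, hs⟩ := Code.evaln_complete.1 h1
    refine ⟨s, ?_⟩
    simpa [ev, S] using hs
  apply Part.ext
  intro y
  rw [h n y, Part.mem_bind_iff]
  constructor
  · rintro ⟨t, ht, hy⟩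
    have hy' : y = V (S (Nat.pair n t)) := Part.mem_some_iff.1 hy
    have h1 := Part.mem_some_iff.1 (Nat.rfind_spec ht)
    have h2 : T (S (Nat.pair n t)) = 0 := of_decide_eq_true h1.symm
    have h3 : (ev (S (Nat.pair n t))).isSome = true := by
      by_contra h4
      have h5 : T (S (Nat.pair n t)) = 1 := if_neg h4
      omega
    obtain ⟨z, hz⟩ := Option.isSome_iff_exists.1 h3
    have h5 : y = z := by
      rw [hy']
      show (ev (S (Nat.pair n t))).getD 0 = z
      rw [hz]
      rfl
    subst h5
    refine ⟨t.unpair.1, ?_⟩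
    apply hspec t.unpair.1 t.unpair.2 y
    rw [Nat.pair_unpair]
    exact hz
  · rintro ⟨k, hk⟩
    obtain ⟨s, hs⟩ := hspec' k y hk
    have hdom : (Nat.rfind fun t => Part.some (decide (T (S (Nat.pair n t)) = 0))).Dom := by
      refine Nat.rfind_dom.2 ⟨Nat.pair k s, ?_, fun _ => trivial⟩
      apply Part.mem_some_iff.2
      have h5 : T (S (Nat.pair n (Nat.pair k s))) = 0 := by
        show (if (ev (S (Nat.pair n (Nat.pair k s)))).isSome = true then 0 else 1) = 0
        rw [hs]
        rfl
      rw [h5]
      rfl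
    obtain ⟨t, ht⟩ := Part.dom_iff_mem.1 hdom
    have h1 := Part.mem_some_iff.1 (Nat.rfind_spec ht)
    have h2 : T (S (Nat.pair n t)) = 0 := of_decide_eq_true h1.symm
    have h3 : (ev (S (Nat.pair n t))).isSome = true := by
      by_contra h4
      have h5 : T (S (Nat.pair n t)) = 1 := if_neg h4
      omega
    obtain ⟨z, hz⟩ := Option.isSome_iff_exists.1 h3
    have hz' : z ∈ G (initSeg X t.unpair.1) n := by
      apply hspec t.unpair.1 t.unpair.2 z
      rw [Nat.pair_unpair]
      exact hz
    have hyz : z = y := Part.mem_unique ((h n z).2 ⟨_, hz'⟩) ((h n y).2 ⟨k, hk⟩)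
    refine ⟨t, ht, Part.mem_some_iff.2 ?_⟩
    rw [← hyz]
    show z = (ev (S (Nat.pair n t))).getD 0
    rw [hz]
    rfl

end Pool.Agent.Lib.MP_1308e3_lc
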