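import Mathlib

/-!
# Polynomials with natural number coefficients coded by lists
-/

set_option autoImplicit false

namespace Pool.Agent.Lib.MP_1308e3_lc

open Polynomial

/-- The polynomial coded by a list of coefficients. -/
noncomputable def poly (xs : List ℕ) : ℕ[X] :=
  ∑ i ∈ Finset.range xs.length, monomial i (xs.getD i 0)

theorem poly_coeff (xs : List ℕ) (n : ℕ) : (poly xs).coeff n = xs.getD n 0 := by
  unfold poly
  rw [finsetSum_coeff]
  simp only [coeff_monomial]
  by_cases h : n < xs.length
  · rw [Finset.sum_eq_single n]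
    · simp
    · intro b _ hb
      simp [hb]
    · intro h'
      exact absurd (Finset.mem_range.2 h) h'
  · rw [Finset.sum_eq_zero]
    · rw [List.getD_eq_default _ _ (not_lt.1 h)]
    · intro i hi
      have : i ≠ n := by
        have := Finset.mem_range.1 hi
        omega
      simp [this]

theorem poly_eq_iff {xs ys : List ℕ} : poly xs = poly ys ↔ ∀ i, xs.getD i 0 = ys.getD i 0 := by
  rw [Polynomial.ext_iff]
  simp only [poly_coeff]

theorem sum_map_range (f : ℕ → ℕ) (n : ℕ) :
    ((List.range n).map f).sum = ∑ i ∈ Finset.range n, f i := by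
  induction n with
  | zero => simp
  | succ n ih => rw [List.range_succ, List.map_append, List.sum_append, ih, Finset.sum_range_succ]; simp

theorem getD_map_range (f : ℕ → ℕ) (n i : ℕ) :
    ((List.range n).map f).getD i 0 = if i < n then f i else 0 := by
  by_cases h : i < n
  · rw [if_pos h, List.getD_eq_getElem?_getD]
    simp [h]
  · rw [if_neg h]
    apply List.getD_eq_default
    simpa using h

/-- Addition of coded polynomials. -/
def addL (xs ys : List ℕ) : List ℕ :=
  (List.range (max xs.length ys.length)).map fun i => xs.getD i 0 + ys.getD i 0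

theorem poly_addL (xs ys : List ℕ) : poly (addL xs ys) = poly xs + poly ys := by
  ext n
  rw [poly_coeff, coeff_add, poly_coeff, poly_coeff, addL, getD_map_range]
  split_ifs with h
  · rfl
  · rw [List.getD_eq_default _ _ (by omega), List.getD_eq_default _ _ (by omega)]

/-- Multiplication of coded polynomials. -/
def mulL (xs ys : List ℕ) : List ℕ :=
  (List.range (xs.length + ys.length)).map fun n =>
    ((List.range (n + 1)).map fun i => xs.getD i 0 * ys.getD (n - i) 0).sum

theorem poly_mulL (xs ys : List ℕ) : poly (mulL xs ys) = poly xs * poly ys := by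
  ext n
  rw [poly_coeff, mulL, getD_map_range, coeff_mul,
    Finset.Nat.sum_antidiagonal_eq_sum_range_succ (fun i j => (poly xs).coeff i * (poly ys).coeff j)]
  simp only [poly_coeff]
  split_ifs with h
  · rw [sum_map_range]
  · symm
    apply Finset.sum_eq_zero
    intro i hi
    have hi' := Finset.mem_range.1 hi
    by_cases h1 : i < xs.length
    · rw [List.getD_eq_default ys _ (by omega), mul_zero]
    · rw [List.getD_eq_default xs _ (not_lt.1 h1), zero_mul]

/-- Equality of coded polynomials. -/
def eqL (xs ys : List ℕ) : Prop :=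
  ((List.range (max xs.length ys.length)).map fun i => xs.getD i 0) =
    (List.range (max xs.length ys.length)).map fun i => ys.getD i 0

instance (xs ys : List ℕ) : Decidable (eqL xs ys) := by
  unfold eqL
  infer_instance

theorem eqL_iff {xs ys : List ℕ} : eqL xs ys ↔ poly xs = poly ys := by
  rw [poly_eq_iff, eqL]
  constructor
  · intro h i
    by_cases hi : i < max xs.length ys.length
    · have h1 := congrArg (fun l => l.getD i 0) h
      simp only [getD_map_range, if_pos hi] at h1
      exact h1
    · rw [List.getD_eq_default _ _ (by omega), List.getD_eq_default _ _ (by omega)]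
  · intro h
    apply List.map_congr_left
    intro i _
    exact h i

/-! ### Primitive recursiveness -/

theorem list_sum_primrec : Primrec fun l : List ℕ => l.sum := by
  have h : Primrec fun l : List ℕ => l.foldr (fun b s => b + s) 0 :=
    Primrec.list_foldr (f := fun l : List ℕ => l) (g := fun _ => 0)
      (h := fun _ (p : ℕ × ℕ) => p.1 + p.2) Primrec.id (Primrec.const 0)
      (Primrec.nat_add.comp (Primrec.fst.comp Primrec.snd) (Primrec.snd.comp Primrec.snd)).to₂
  exact h.of_eq fun l => by simp [List.sum_eq_foldr]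

theorem addL_primrec : Primrec₂ addL := by
  refine Primrec.list_map (f := fun p : List ℕ × List ℕ => List.range (max p.1.length p.2.length))
    (g := fun (p : List ℕ × List ℕ) i => p.1.getD i 0 + p.2.getD i 0) ?_ ?_
  · exact Primrec.list_range.comp (Primrec.nat_max.comp (Primrec.list_length.comp Primrec.fst)
      (Primrec.list_length.comp Primrec.snd))
  · exact Primrec.nat_add.comp ((Primrec.list_getD 0).comp (Primrec.fst.comp Primrec.fst)
      Primrec.snd) ((Primrec.list_getD 0).comp (Primrec.snd.comp Primrec.fst) Primrec.snd)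

theorem mulL_primrec : Primrec₂ mulL := by
  refine Primrec.list_map (f := fun p : List ℕ × List ℕ => List.range (p.1.length + p.2.length))
    (g := fun (p : List ℕ × List ℕ) n =>
      ((List.range (n + 1)).map fun i => p.1.getD i 0 * p.2.getD (n - i) 0).sum) ?_ ?_
  · exact Primrec.list_range.comp (Primrec.nat_add.comp (Primrec.list_length.comp Primrec.fst)
      (Primrec.list_length.comp Primrec.snd))
  · refine list_sum_primrec.comp (Primrec.list_map
      (f := fun q : (List ℕ × List ℕ) × ℕ => List.range (q.2 + 1))
      (g := fun (q : (List ℕ × List ℕ) × ℕ) i => q.1.1.getD i 0 * q.1.2.getD (q.2 - i) 0) ?_ ?_)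
    · exact Primrec.list_range.comp (Primrec.succ.comp Primrec.snd)
    · refine Primrec.nat_mul.comp ((Primrec.list_getD 0).comp
        (Primrec.fst.comp (Primrec.fst.comp Primrec.fst)) Primrec.snd)
        ((Primrec.list_getD 0).comp (Primrec.snd.comp (Primrec.fst.comp Primrec.fst)) ?_)
      exact Primrec.nat_sub.comp (Primrec.snd.comp Primrec.fst) Primrec.snd

theorem eqL_primrec : PrimrecRel eqL := by
  have hr : Primrec fun p : List ℕ × List ℕ => List.range (max p.1.length p.2.length) :=
    Primrec.list_range.comp (Primrec.nat_max.comp (Primrec.list_length.comp Primrec.fst)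
      (Primrec.list_length.comp Primrec.snd))
  have h1 : Primrec fun p : List ℕ × List ℕ =>
      (List.range (max p.1.length p.2.length)).map fun i => p.1.getD i 0 :=
    Primrec.list_map (g := fun (p : List ℕ × List ℕ) i => p.1.getD i 0) hr
      ((Primrec.list_getD 0).comp (Primrec.fst.comp Primrec.fst) Primrec.snd)
  have h2 : Primrec fun p : List ℕ × List ℕ =>
      (List.range (max p.1.length p.2.length)).map fun i => p.2.getD i 0 :=
    Primrec.list_map (g := fun (p : List ℕ × List ℕ) i => p.2.getD i 0) hr
      ((Primrec.list_getD 0).comp (Primrec.snd.comp Primrec.fst) Primrec.snd)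
  exact Primrec.eq.comp h1 h2

/-! ### Real evaluation -/

/-- Evaluation of a coded polynomial at a real number. -/
noncomputable def ev (r : ℝ) (xs : List ℕ) : ℝ := aeval r (poly xs)

theorem ev_addL (r : ℝ) (xs ys : List ℕ) : ev r (addL xs ys) = ev r xs + ev r ys := by
  simp [ev, poly_addL]

theorem ev_mulL (r : ℝ) (xs ys : List ℕ) : ev r (mulL xs ys) = ev r xs * ev r ys := by
  simp [ev, poly_mulL]

theorem ev_sum (r : ℝ) (xs : List ℕ) :
    ev r xs = ∑ i ∈ Finset.range xs.length, (xs.getD i 0 : ℝ) * r ^ i := by
  simp [ev, poly, aeval_monomial]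

theorem ev_mono {r s : ℝ} (hr : 0 ≤ r) (hrs : r ≤ s) (xs : List ℕ) : ev r xs ≤ ev s xs := by
  rw [ev_sum, ev_sum]
  apply Finset.sum_le_sum
  intro i _
  exact mul_le_mul_of_nonneg_left (pow_le_pow_left₀ hr hrs i) (Nat.cast_nonneg _)

theorem ev_continuous (xs : List ℕ) : Continuous fun r => ev r xs := by
  simp only [ev_sum]
  fun_prop

theorem ev_eq_iff {r : ℝ} (hr : Transcendental ℤ r) {xs ys : List ℕ} :
    ev r xs = ev r ys ↔ poly xs = poly ys := by
  constructor
  · intro h
    have h1 : Function.Injective (aeval (R := ℤ) (A := ℝ) r) :=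
      transcendental_iff_injective.1 hr
    have h2 : ∀ p : ℕ[X], aeval r p = aeval (R := ℤ) r (p.map (Nat.castRingHom ℤ)) := by
      intro p
      rw [aeval_def, aeval_def, eval₂_map]
      congr 1
    unfold ev at h
    rw [h2, h2] at h
    exact Polynomial.map_injective _ Nat.cast_injective (h1 h)
  · intro h
    rw [ev, ev, h]

/-! ### Homogeneous integer evaluation -/

/-- The value at `a / D`, multiplied by `D ^ L`. -/
def hev (xs : List ℕ) (a D L : ℕ) : ℕ :=
  ((List.range xs.length).map fun i => xs.getD i 0 * a ^ i * D ^ (L - i)).sum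

theorem hev_eq (xs : List ℕ) (a D L : ℕ) (hD : 0 < D) (hL : xs.length ≤ L) :
    (hev xs a D L : ℝ) = ev ((a : ℝ) / D) xs * (D : ℝ) ^ L := by
  rw [ev_sum, hev, sum_map_range, Nat.cast_sum, Finset.sum_mul]
  apply Finset.sum_congr rfl
  intro i hi
  have hi' := Finset.mem_range.1 hi
  have hD' : (D : ℝ) ≠ 0 := by positivity
  have h1 : (D : ℝ) ^ L = (D : ℝ) ^ (L - i) * (D : ℝ) ^ i := by
    rw [← pow_add]
    congr 1
    omega
  push_cast
  rw [h1, div_pow]
  field_simp

theorem hev_primrec : Primrec fun p : List ℕ × ℕ × ℕ × ℕ => hev p.1 p.2.1 p.2.2.1 p.2.2.2 := by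
  refine list_sum_primrec.comp (Primrec.list_map
      (f := fun q : List ℕ × ℕ × ℕ × ℕ => List.range q.1.length)
      (g := fun (q : List ℕ × ℕ × ℕ × ℕ) i =>
        q.1.getD i 0 * q.2.1 ^ i * q.2.2.1 ^ (q.2.2.2 - i)) ?_ ?_)
  · exact Primrec.list_range.comp (Primrec.list_length.comp Primrec.fst)
  · have hpow : Primrec₂ fun a b : ℕ => a ^ b := Primrec₂.unpaired'.1 Nat.Primrec.pow
    refine Primrec.nat_mul.comp (Primrec.nat_mul.comp ((Primrec.list_getD 0).comp
      (Primrec.fst.comp Primrec.fst) Primrec.snd) ?_) ?_
    · exact hpow.comp (Primrec.fst.comp (Primrec.snd.comp Primrec.fst)) Primrec.snd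
    · refine hpow.comp (Primrec.fst.comp (Primrec.snd.comp (Primrec.snd.comp Primrec.fst))) ?_
      exact Primrec.nat_sub.comp (Primrec.snd.comp (Primrec.snd.comp (Primrec.snd.comp
        Primrec.fst))) Primrec.snd

end Pool.Agent.Lib.MP_1308e3_lc
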