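import Pool.Agent.Lib.MP_1308e3_lc.YCodes

/-!
# A transcendental real number at which all radicands are positive
-/

set_option autoImplicit false

namespace Pool.Agent.Lib.MP_1308e3_lc

open Encodable Denumerable Nat.Partrec Polynomial MeasureTheory

theorem zev_gz (x : ℝ) (j : ℕ) :
    zev x (gz j) = (lc j : ℝ) * ((x - (ra j : ℝ)) * (x - (rb j : ℝ))) := by
  rw [← aeval_pz]
  have h1 : aeval x (pz (gz j)) = eval₂ (algebraMap ℚ ℝ) x
      ((pz (gz j)).map (Int.castRingHom ℚ)) := by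
    rw [eval₂_map, aeval_def]
    congr 1
  rw [h1, map_pz_gz]
  simp

open Classical in
/-- The value of the `e`-th program on `e + 3`, or `0`. -/
noncomputable def valE (e : ℕ) : ℕ :=
  if h : ((ofNat Code e).eval (e + 3)).Dom then ((ofNat Code e).eval (e + 3)).get h else 0

theorem valE_eq {e M : ℕ} (h : M ∈ (ofNat Code e).eval (e + 3)) : valE e = M := by
  have h1 : ((ofNat Code e).eval (e + 3)).Dom := Part.dom_iff_mem.2 ⟨M, h⟩
  unfold valE
  rw [dif_pos h1]
  exact Part.get_eq_of_mem h h1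

/-- The interval that contains all intervals of the `e`-th program. -/
noncomputable def JJ (e : ℕ) : Set ℝ :=
  Set.Icc ((valE e : ℝ) / 2 ^ (e + 3) - 1 / 3 ^ (e + 5))
    (((valE e : ℝ) + 1) / 2 ^ (e + 3) + 1 / 3 ^ (e + 5))

theorem three_pow_ge (e : ℕ) : (2 : ℝ) * 2 ^ (e + 3) ≤ 3 ^ (e + 5) := by
  have h1 : (2 : ℝ) ^ e ≤ 3 ^ e := pow_le_pow_left₀ (by norm_num) (by norm_num) e
  have h2 : (0 : ℝ) < 2 ^ e := by positivity
  have e1 : (2 : ℝ) * 2 ^ (e + 3) = 16 * 2 ^ e := by ring
  have e2 : (3 : ℝ) ^ (e + 5) = 243 * 3 ^ e := by ring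
  rw [e1, e2]
  linarith

theorem volume_JJ (e : ℕ) : volume (JJ e) ≤ ENNReal.ofReal (1 / 4 * (1 / 2) ^ e) := by
  unfold JJ
  rw [Real.volume_Icc]
  apply ENNReal.ofReal_le_ofReal
  have h1 := three_pow_ge e
  have h2 : (0 : ℝ) < 2 ^ (e + 3) := by positivity
  have h3 : (1 : ℝ) / 3 ^ (e + 5) ≤ 1 / (2 * 2 ^ (e + 3)) :=
    one_div_le_one_div_of_le (by positivity) h1
  have h4 : (1 : ℝ) / 4 * (1 / 2) ^ e = 2 * (1 / 2 ^ (e + 3)) := by
    rw [one_div_pow]
    field_simp
    ring
  have h5 : (1 : ℝ) / (2 * 2 ^ (e + 3)) = 1 / 2 * (1 / 2 ^ (e + 3)) := by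
    field_simp
  have h6 : ((valE e : ℝ) + 1) / 2 ^ (e + 3) = valE e / 2 ^ (e + 3) + 1 / 2 ^ (e + 3) := by ring
  rw [h4, h6]
  rw [h5] at h3
  linarith

theorem volume_iUnion_JJ : volume (⋃ e, JJ e) ≤ ENNReal.ofReal (1 / 2) := by
  refine (measure_iUnion_le _).trans ?_
  refine (ENNReal.tsum_le_tsum volume_JJ).trans ?_
  have h1 : Summable fun e : ℕ => (1 : ℝ) / 4 * (1 / 2) ^ e :=
    (summable_geometric_two).mul_left _
  rw [← ENNReal.ofReal_tsum_of_nonneg (fun e => by positivity) h1, tsum_mul_left,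
    tsum_geometric_two]
  apply ENNReal.ofReal_le_ofReal
  norm_num

theorem exists_good_real : ∃ x : ℝ, 0 < x ∧ x < 1 ∧ Transcendental ℤ x ∧ ∀ e, x ∉ JJ e := by
  by_contra hcon
  push Not at hcon
  have h1 : Set.Ioo (0 : ℝ) 1 ⊆ (⋃ e, JJ e) ∪ {x : ℝ | IsAlgebraic ℤ x} := by
    intro x hx
    by_cases ha : IsAlgebraic ℤ x
    · exact Or.inr ha
    · left
      obtain ⟨e, he⟩ := hcon x hx.1 hx.2 ha
      exact Set.mem_iUnion.2 ⟨e, he⟩
  have h2 : volume {x : ℝ | IsAlgebraic ℤ x} = 0 :=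
    (Algebraic.countable ℤ ℝ).measure_zero _
  have h3 := (measure_mono (μ := volume) h1).trans (measure_union_le _ _)
  rw [h2, add_zero, Real.volume_Ioo] at h3
  have h4 := h3.trans volume_iUnion_JJ
  rw [ENNReal.ofReal_le_ofReal_iff (by norm_num)] at h4
  norm_num at h4

theorem stg_cases (s : ℕ) : stg s = (5, 0) ∨
    ∃ M, M ∈ (ofNat Code s.unpair.1).eval (s.unpair.1 + 3) ∧ stg s = (M, s.unpair.1 + 3) := by
  unfold stg
  cases h : Code.evaln s.unpair.2 (ofNat Code s.unpair.1) (s.unpair.1 + 3) with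
  | none => left; rfl
  | some M =>
    right
    exact ⟨M, Code.evaln_sound h, rfl⟩

theorem exists_real : ∃ x : ℝ, Transcendental ℤ x ∧ ∀ j, 0 < zev x (gz j) := by
  obtain ⟨x, h0, h1, htr, hJ⟩ := exists_good_real
  refine ⟨x, htr, fun j => ?_⟩
  rw [zev_gz]
  by_cases hj : j = 0
  · subst hj
    have e1 : lc 0 = -1 := if_pos rfl
    have e2 : ra 0 = 0 := if_pos rfl
    have e3 : rb 0 = 1 := if_pos rfl
    rw [e1, e2, e3]
    push_cast
    nlinarith
  · have hl : (0 : ℝ) < (lc j : ℝ) := by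
      have : 0 < lc j := by
        unfold lc stDn
        rw [if_neg hj]
        positivity
      exact_mod_cast this
    apply mul_pos hl
    set s := j - 1 with hs
    have hra : (ra j : ℝ) = ((stg s).1 : ℝ) / 2 ^ (stg s).2 - 1 / 3 ^ (s + 5) := by
      unfold ra
      rw [if_neg hj]
      push_cast
      rfl
    have hrb : (rb j : ℝ) = (((stg s).1 : ℝ) + 1) / 2 ^ (stg s).2 + 1 / 3 ^ (s + 5) := by
      unfold rb
      rw [if_neg hj]
      push_cast
      rfl
    rcases stg_cases s with h | ⟨M, hM, h⟩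
    · rw [hra, hrb, h]
      have h3 : (1 : ℝ) / 3 ^ (s + 5) ≤ 1 := by
        rw [div_le_one (by positivity)]
        exact one_le_pow₀ (by norm_num)
      have h4 : (0 : ℝ) < 1 / 3 ^ (s + 5) := by positivity
      apply mul_pos_of_neg_of_neg
      · simp only [pow_zero, div_one]
        push_cast
        linarith
      · simp only [pow_zero, div_one]
        push_cast
        linarith
    · have h3 := hJ s.unpair.1
      unfold JJ at h3
      rw [valE_eq hM, Set.mem_Icc, not_and_or, not_le, not_le] at h3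
      rw [hra, hrb, h]
      have h4 : (1 : ℝ) / 3 ^ (s + 5) ≤ 1 / 3 ^ (s.unpair.1 + 5) := by
        apply one_div_le_one_div_of_le (by positivity)
        apply pow_le_pow_right₀ (by norm_num)
        have := Nat.unpair_left_le s
        omega
      rcases h3 with h3 | h3
      · apply mul_pos_of_neg_of_neg
        · simp only
          linarith
        · simp only
          have h5 : (M : ℝ) / 2 ^ (s.unpair.1 + 3) ≤ ((M : ℝ) + 1) / 2 ^ (s.unpair.1 + 3) := by
            apply div_le_div_of_nonneg_right _ (by positivity)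
            linarith
          have h6 : (0 : ℝ) < 1 / 3 ^ (s + 5) := by positivity
          have h7 : (0 : ℝ) < 1 / 3 ^ (s.unpair.1 + 5) := by positivity
          linarith
      · apply mul_pos
        · simp only
          have h5 : (M : ℝ) / 2 ^ (s.unpair.1 + 3) ≤ ((M : ℝ) + 1) / 2 ^ (s.unpair.1 + 3) := by
            apply div_le_div_of_nonneg_right _ (by positivity)
            linarith
          have h6 : (0 : ℝ) < 1 / 3 ^ (s + 5) := by positivity
          have h7 : (0 : ℝ) < 1 / 3 ^ (s.unpair.1 + 5) := by positivity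
          linarith
        · simp only
          linarith

/-- The real number. -/
noncomputable def r0 : ℝ := exists_real.choose

theorem r0_tr : Transcendental ℤ r0 := exists_real.choose_spec.1

theorem r0_pos (j : ℕ) : 0 < zev r0 (gz j) := exists_real.choose_spec.2 j

/-- The square roots. -/
noncomputable def y0 (j : ℕ) : ℝ := Real.sqrt (zev r0 (gz j))

theorem y0_sq (j : ℕ) : y0 j ^ 2 = zev r0 (gz j) := Real.sq_sqrt (r0_pos j).le

theorem yev0_eq_zero {a : Y} : yev r0 y0 a = 0 ↔ yz a :=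
  yev_eq_zero y0_sq r0_tr (prod_not_mem r0_tr y0_sq)

end Pool.Agent.Lib.MP_1308e3_lc
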