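import Pool.Agent.Lib.MP_1308e3_lc.Gens
import Pool.Agent.Lib.MP_1308e3_lc.Indep

/-!
# Codes for the multiquadratic extension
-/

set_option autoImplicit false

namespace Pool.Agent.Lib.MP_1308e3_lc

open Encodable Denumerable

/-- Codes for sums of products: coefficient and list of indices of the square roots. -/
abbrev Y : Type := List (Z × List ℕ)

/-- Addition. -/
def yadd (a b : Y) : Y := a ++ b

/-- Multiplication. -/
def ymul (a b : Y) : Y := a.flatMap fun p => b.map fun q => (zmul p.1 q.1, p.2 ++ q.2)

/-- Negation. -/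
def yneg (a : Y) : Y := a.map fun p => (zneg p.1, p.2)

/-- One. -/
def yone : Y := [(zone, [])]

/-- Zero. -/
def yzero : Y := []

/-- The value of a monomial. -/
noncomputable def mev (r : ℝ) (y : ℕ → ℝ) (p : Z × List ℕ) : ℝ := zev r p.1 * (p.2.map y).prod

/-- The value. -/
noncomputable def yev (r : ℝ) (y : ℕ → ℝ) (a : Y) : ℝ := (a.map (mev r y)).sum

section

variable (r : ℝ) (y : ℕ → ℝ)

theorem yev_yadd (a b : Y) : yev r y (yadd a b) = yev r y a + yev r y b := by
  unfold yev yadd
  rw [List.map_append, List.sum_append]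

theorem yev_map (p : Z × List ℕ) (b : Y) :
    yev r y (b.map fun q => (zmul p.1 q.1, p.2 ++ q.2)) = mev r y p * yev r y b := by
  induction b with
  | nil => simp [yev]
  | cons q b ih =>
    unfold yev at ih ⊢
    rw [List.map_cons, List.map_cons, List.sum_cons, ih, List.map_cons, List.sum_cons]
    unfold mev
    simp only
    rw [zev_zmul, List.map_append, List.prod_append]
    ring

theorem yev_ymul (a b : Y) : yev r y (ymul a b) = yev r y a * yev r y b := by
  induction a with
  | nil => simp [yev, ymul]
  | cons p a ih =>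
    have h1 : ymul (p :: a) b = yadd (b.map fun q => (zmul p.1 q.1, p.2 ++ q.2)) (ymul a b) := by
      unfold ymul yadd
      rw [List.flatMap_cons]
    rw [h1, yev_yadd, yev_map, ih]
    have h2 : yev r y (p :: a) = mev r y p + yev r y a := by
      unfold yev
      rw [List.map_cons, List.sum_cons]
    rw [h2]
    ring

theorem yev_yneg (a : Y) : yev r y (yneg a) = - yev r y a := by
  induction a with
  | nil => simp [yev, yneg]
  | cons p a ih =>
    unfold yev yneg at ih ⊢
    rw [List.map_cons, List.map_cons, List.sum_cons, ih, List.map_cons, List.sum_cons]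
    unfold mev
    simp only
    rw [zev_zneg]
    ring

theorem yev_yone : yev r y yone = 1 := by
  simp [yev, yone, mev, zev_zone]

theorem yev_yzero : yev r y yzero = 0 := by
  simp [yev, yzero]

end

/-! ### The zero test -/

/-- Product of radicands. -/
def prodG (l : List ℕ) : Z := l.foldr (fun j acc => zmul (gz j) acc) zone

/-- Half of the index list: each index half as often, rounded down. -/
def hl (T : List ℕ) : List ℕ :=
  (List.range (T.sum + 1)).flatMap fun j => List.replicate (T.count j / 2) j

/-- The rational part of a product of square roots. -/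
def kk (T : List ℕ) : Z := prodG (hl T)

/-- The irrational part of a product of square roots. -/
def oddS (T : List ℕ) : Finset ℕ := (Finset.range (T.sum + 1)).filter fun j => T.count j % 2 = 1

/-- Same irrational part. -/
def sameP (T T' : List ℕ) : Prop := ∀ j ∈ T ++ T', (T.count j + T'.count j) % 2 = 0

instance (T T' : List ℕ) : Decidable (sameP T T') := by
  unfold sameP
  infer_instance

/-- The coefficient of the irrational part of `T` in `a`. -/
def csum (a : Y) (T : List ℕ) : Z :=
  a.foldr (fun q acc => if sameP q.2 T then zadd (zmul q.1 (kk q.2)) acc else acc) zzero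

/-- The zero test. -/
def yz (a : Y) : Prop := ∀ p ∈ a, zz (csum a p.2)

instance (a : Y) : Decidable (yz a) := by
  unfold yz
  infer_instance

theorem list_prod_range (f : ℕ → ℝ) (n : ℕ) :
    ((List.range n).map f).prod = ∏ i ∈ Finset.range n, f i := by
  induction n with
  | zero => simp
  | succ n ih =>
    rw [List.range_succ, List.map_append, List.prod_append, ih, Finset.prod_range_succ]
    simp

theorem le_sum_of_mem {T : List ℕ} {j : ℕ} (h : j ∈ T) : j ≤ T.sum := List.le_sum_of_mem h

theorem mem_oddS {T : List ℕ} {j : ℕ} : j ∈ oddS T ↔ T.count j % 2 = 1 := by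
  unfold oddS
  rw [Finset.mem_filter, Finset.mem_range]
  constructor
  · exact fun h => h.2
  · intro h
    refine ⟨?_, h⟩
    have h1 : j ∈ T := by
      by_contra h1
      rw [List.count_eq_zero_of_not_mem h1] at h
      omega
    have := le_sum_of_mem h1
    omega

theorem sameP_iff {T T' : List ℕ} : sameP T T' ↔ oddS T = oddS T' := by
  constructor
  · intro h
    ext j
    rw [mem_oddS, mem_oddS]
    by_cases hj : j ∈ T ++ T'
    · have := h j hj
      omega
    · rw [List.mem_append, not_or] at hj
      rw [List.count_eq_zero_of_not_mem hj.1, List.count_eq_zero_of_not_mem hj.2]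
  · intro h j _
    have h1 := Finset.ext_iff.1 h j
    rw [mem_oddS, mem_oddS] at h1
    omega

theorem zev_prodG (r : ℝ) (l : List ℕ) : zev r (prodG l) = (l.map fun j => zev r (gz j)).prod := by
  induction l with
  | nil => simp [prodG, zev_zone]
  | cons j l ih =>
    unfold prodG at ih ⊢
    rw [List.foldr_cons, zev_zmul, ih, List.map_cons, List.prod_cons]

section

variable {r : ℝ} {y : ℕ → ℝ} (hy : ∀ j, y j ^ 2 = zev r (gz j))

include hy

theorem prod_eq (T : List ℕ) : (T.map y).prod = zev r (kk T) * ∏ j ∈ oddS T, y j := by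
  have h1 : (T.map y).prod = ∏ j ∈ Finset.range (T.sum + 1), y j ^ T.count j := by
    rw [Finset.prod_list_map_count]
    apply Finset.prod_subset
    · intro j hj
      have := le_sum_of_mem (List.mem_toFinset.1 hj)
      exact Finset.mem_range.2 (by omega)
    · intro j _ hj
      rw [List.mem_toFinset] at hj
      rw [List.count_eq_zero_of_not_mem hj, pow_zero]
  have h2 : zev r (kk T) = ∏ j ∈ Finset.range (T.sum + 1), (y j ^ 2) ^ (T.count j / 2) := by
    unfold kk
    rw [zev_prodG]
    unfold hl
    rw [List.map_flatMap]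
    have h3 : ∀ l : List ℕ, (l.flatMap fun j => (List.replicate (T.count j / 2) j).map
        fun j => zev r (gz j)).prod = (l.map fun j => (y j ^ 2) ^ (T.count j / 2)).prod := by
      intro l
      induction l with
      | nil => simp
      | cons j l ih =>
        rw [List.flatMap_cons, List.prod_append, ih, List.map_cons, List.prod_cons,
          List.map_replicate, List.prod_replicate, hy]
    rw [h3, list_prod_range]
  have h4 : ∏ j ∈ oddS T, y j = ∏ j ∈ Finset.range (T.sum + 1), y j ^ (T.count j % 2) := by
    unfold oddS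
    rw [Finset.prod_filter]
    apply Finset.prod_congr rfl
    intro j _
    split_ifs with h
    · rw [h, pow_one]
    · have : T.count j % 2 = 0 := by omega
      rw [this, pow_zero]
  rw [h1, h2, h4, ← Finset.prod_mul_distrib]
  apply Finset.prod_congr rfl
  intro j _
  rw [← pow_mul, ← pow_add]
  congr 1
  omega

omit hy in
theorem zev_csum (a : Y) (T : List ℕ) : zev r (csum a T) =
    (a.map fun p => if oddS p.2 = oddS T then zev r p.1 * zev r (kk p.2) else 0).sum := by
  induction a with
  | nil => simp [csum, zev_zzero]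
  | cons p a ih =>
    unfold csum at ih ⊢
    rw [List.foldr_cons, List.map_cons, List.sum_cons]
    by_cases h : sameP p.2 T
    · rw [if_pos h, if_pos (sameP_iff.1 h), zev_zadd, zev_zmul, ih]
    · rw [if_neg h, if_neg (fun h' => h (sameP_iff.2 h')), zero_add, ih]

/-- The value as a sum over irrational parts. -/
theorem yev_eq (a : Y) : yev r y a = ∑ S ∈ (a.map fun p => oddS p.2).toFinset,
    (a.map fun p => if oddS p.2 = S then zev r p.1 * zev r (kk p.2) else 0).sum *
      ∏ j ∈ S, y j := by
  classical
  have h0 : ∀ A : Finset (Finset ℕ), ∀ a : Y, (∀ p ∈ a, oddS p.2 ∈ A) → yev r y a = ∑ S ∈ A,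
      (a.map fun p => if oddS p.2 = S then zev r p.1 * zev r (kk p.2) else 0).sum *
      ∏ j ∈ S, y j := by
    intro A a
    induction a with
    | nil => intro _; simp [yev]
    | cons p a ih =>
      intro h
      have h1 : yev r y (p :: a) = mev r y p + yev r y a := by
        unfold yev
        rw [List.map_cons, List.sum_cons]
      rw [h1, ih (fun q hq => h q (List.mem_cons_of_mem _ hq))]
      simp only [List.map_cons, List.sum_cons, add_mul, Finset.sum_add_distrib]
      congr 1
      rw [Finset.sum_eq_single (oddS p.2)]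
      · rw [if_pos rfl]
        unfold mev
        rw [prod_eq hy]
        ring
      · intro S _ hS
        rw [if_neg (Ne.symm hS), zero_mul]
      · intro hn
        exact absurd (h p List.mem_cons_self) hn
  apply h0
  intro p hp
  rw [List.mem_toFinset]
  exact List.mem_map.2 ⟨p, hp, rfl⟩

theorem yev_eq_zero (hr : Transcendental ℤ r)
    (hni : ∀ S : Finset ℕ, S.Nonempty → ∏ j ∈ S, y j ∉ FF hr) {a : Y} :
    yev r y a = 0 ↔ yz a := by
  have hz : ∀ z : Z, zev r z ∈ FF hr := by
    intro z
    refine ⟨encode ((z, zone) : Q), ?_⟩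
    rw [delta_encode hr, zev_zone, div_one]
  have hsum : ∀ S : Finset ℕ, (a.map fun p => if oddS p.2 = S then
      zev r p.1 * zev r (kk p.2) else 0).sum ∈ FF hr := by
    intro S
    apply Subfield.list_sum_mem
    intro x hx
    obtain ⟨p, -, rfl⟩ := List.mem_map.1 hx
    split_ifs
    · exact (FF hr).mul_mem (hz _) (hz _)
    · exact (FF hr).zero_mem
  constructor
  · intro h p hp
    rw [yev_eq hy] at h
    have h1 := indep' (K := FF hr) (fun j => by rw [hy]; exact hz _) hni
      (fun S _ => hsum S) h (oddS p.2) (by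
        rw [List.mem_toFinset]
        exact List.mem_map.2 ⟨p, hp, rfl⟩)
    rw [← zev_eq_zero hr, zev_csum]
    exact h1
  · intro h
    rw [yev_eq hy]
    apply Finset.sum_eq_zero
    intro S hS
    rw [List.mem_toFinset] at hS
    obtain ⟨p, hp, rfl⟩ := List.mem_map.1 hS
    have h1 := (zev_eq_zero hr).2 (h p hp)
    rw [zev_csum] at h1
    rw [h1, zero_mul]

end

/-- No nonempty product of the square roots is a value of a rational function. -/
theorem prod_not_mem {r : ℝ} (hr : Transcendental ℤ r) {y : ℕ → ℝ}
    (hy : ∀ j, y j ^ 2 = zev r (gz j)) (S : Finset ℕ) (hS : S.Nonempty) :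
    ∏ j ∈ S, y j ∉ FF hr := by
  rintro ⟨n, hn⟩
  have h1 := dec_snd_ne hr n
  have h2 : (∏ j ∈ S, zev r (gz j)) * zev r (dec n).2 ^ 2 = zev r (dec n).1 ^ 2 := by
    have h3 : ∏ j ∈ S, zev r (gz j) = (∏ j ∈ S, y j) ^ 2 := by
      rw [← Finset.prod_pow]
      exact Finset.prod_congr rfl fun j _ => (hy j).symm
    rw [h3, ← hn]
    unfold delta
    field_simp
  have h4 : (∏ j ∈ S, pz (gz j)) * pz (dec n).2 ^ 2 = pz (dec n).1 ^ 2 := by
    apply transcendental_iff_injective.1 hr
    rw [map_mul, map_prod, map_pow, map_pow]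
    simp only [aeval_pz]
    exact h2
  refine no_square hS ?_ h4
  intro h0
  apply h1
  rw [← aeval_pz, h0, map_zero]

/-! ### Primitive recursiveness -/

/-- The inner loop of the multiplication. -/
def ymulAux (b : Y) (p : Z × List ℕ) : Y := b.map fun q => (zmul p.1 q.1, p.2 ++ q.2)

theorem ymulAux_primrec : Primrec₂ ymulAux := by
  have a1 : Primrec fun p : (Y × (Z × List ℕ)) × (Z × List ℕ) => p.1.2 :=
    Primrec.snd.comp Primrec.fst
  have a2 : Primrec fun p : (Y × (Z × List ℕ)) × (Z × List ℕ) => p.2 := Primrec.snd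
  have a3 : Primrec fun p : (Y × (Z × List ℕ)) × (Z × List ℕ) => zmul p.1.2.1 p.2.1 :=
    zmul_primrec.comp (Primrec.fst.comp a1) (Primrec.fst.comp a2)
  have a4 : Primrec fun p : (Y × (Z × List ℕ)) × (Z × List ℕ) => p.1.2.2 ++ p.2.2 :=
    Primrec.list_append.comp (Primrec.snd.comp a1) (Primrec.snd.comp a2)
  have a5 : Primrec₂ fun (p : Y × (Z × List ℕ)) (q : Z × List ℕ) =>
      ((zmul p.2.1 q.1, p.2.2 ++ q.2) : Z × List ℕ) := (Primrec.pair a3 a4).to₂
  have a6 : Primrec fun p : Y × (Z × List ℕ) => p.1 := Primrec.fst
  have a7 := Primrec.list_map a6 a5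
  exact a7.to₂

theorem ymul_primrec : Primrec₂ ymul := by
  have b1 : Primrec fun p : Y × Y => p.1 := Primrec.fst
  have b2 : Primrec₂ fun (p : Y × Y) (q : Z × List ℕ) => ymulAux p.2 q :=
    (ymulAux_primrec.comp (Primrec.snd.comp Primrec.fst) Primrec.snd).to₂
  have b3 := Primrec.list_flatMap b1 b2
  exact b3.to₂

theorem yadd_primrec : Primrec₂ yadd := Primrec.list_append

theorem yneg_primrec : Primrec yneg := by
  refine Primrec.list_map (f := fun p : Y => p)
    (g := fun (_ : Y) (q : Z × List ℕ) => (zneg q.1, q.2)) Primrec.id ?_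
  exact Primrec.pair (zneg_primrec.comp (Primrec.fst.comp Primrec.snd))
    (Primrec.snd.comp Primrec.snd)

theorem list_count_primrec : Primrec₂ fun (T : List ℕ) (j : ℕ) => T.count j := by
  have h : PrimrecRel fun (a : ℕ) (b : ℕ) => (a == b) = true :=
    (Primrec.eq (α := ℕ)).of_eq (fun p => by simp)
  have h1 := Primrec.list_length.comp₂ h.listFilter
  refine h1.of_eq fun T j => ?_
  rw [List.count_eq_length_filter]
  congr 1
  apply List.filter_congr
  intro a _
  by_cases h : a = j <;> simp [h]

theorem replicate_primrec : Primrec₂ fun (n j : ℕ) => List.replicate n j := by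
  have h : Primrec fun p : ℕ × ℕ => (List.range p.1).map fun _ => p.2 :=
    Primrec.list_map (f := fun p : ℕ × ℕ => List.range p.1) (g := fun (p : ℕ × ℕ) (_ : ℕ) => p.2)
      (Primrec.list_range.comp Primrec.fst) (Primrec.snd.comp Primrec.fst)
  have h2 : Primrec fun p : ℕ × ℕ => List.replicate p.1 p.2 := h.of_eq fun p => by simp
  exact h2.to₂

theorem hl_primrec : Primrec hl := by
  refine Primrec.list_flatMap (f := fun T : List ℕ => List.range (T.sum + 1))
    (g := fun (T : List ℕ) (j : ℕ) => List.replicate (T.count j / 2) j)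
    (Primrec.list_range.comp (Primrec.succ.comp list_sum_primrec)) ?_
  exact replicate_primrec.comp (Primrec.nat_div.comp list_count_primrec (Primrec.const 2))
    Primrec.snd

theorem prodG_primrec : Primrec prodG := by
  refine Primrec.list_foldr (f := fun l : List ℕ => l) (g := fun _ => zone)
    (h := fun _ (p : ℕ × Z) => zmul (gz p.1) p.2) Primrec.id (Primrec.const _) ?_
  exact zmul_primrec.comp (gz_primrec.comp (Primrec.fst.comp Primrec.snd))
    (Primrec.snd.comp Primrec.snd)

theorem kk_primrec : Primrec kk := prodG_primrec.comp hl_primrec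

theorem sameP_primrec : PrimrecRel sameP := by
  have h0 : PrimrecRel fun (j : ℕ) (y : List ℕ × List ℕ) => (y.1.count j + y.2.count j) % 2 = 0 := by
    refine Primrec.eq.comp (Primrec.nat_mod.comp (Primrec.nat_add.comp ?_ ?_) (Primrec.const 2))
      (Primrec.const 0)
    · exact list_count_primrec.comp (Primrec.fst.comp Primrec.snd) Primrec.fst
    · exact list_count_primrec.comp (Primrec.snd.comp Primrec.snd) Primrec.fst
  exact h0.forall_mem_list.comp Primrec.list_append Primrec.id

theorem csum_primrec : Primrec₂ csum := by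
  refine Primrec.list_foldr (f := fun p : Y × List ℕ => p.1) (g := fun _ => zzero)
    (h := fun (p : Y × List ℕ) (q : (Z × List ℕ) × Z) =>
      if sameP q.1.2 p.2 then zadd (zmul q.1.1 (kk q.1.2)) q.2 else q.2)
    Primrec.fst (Primrec.const _) ?_
  refine Primrec.ite (sameP_primrec.comp ?_ ?_) (zadd_primrec.comp (zmul_primrec.comp ?_
    (kk_primrec.comp ?_)) ?_) ?_
  · exact Primrec.snd.comp (Primrec.fst.comp Primrec.snd)
  · exact Primrec.snd.comp Primrec.fst
  · exact Primrec.fst.comp (Primrec.fst.comp Primrec.snd)
  · exact Primrec.snd.comp (Primrec.fst.comp Primrec.snd)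
  · exact Primrec.snd.comp Primrec.snd
  · exact Primrec.snd.comp Primrec.snd

theorem yz_primrec : PrimrecPred yz := by
  have h0 : PrimrecRel fun (p : Z × List ℕ) (a : Y) => zz (csum a p.2) :=
    zz_primrec.comp (csum_primrec.comp Primrec.snd (Primrec.snd.comp Primrec.fst))
  exact h0.forall_mem_list.comp Primrec.id Primrec.id

end Pool.Agent.Lib.MP_1308e3_lc
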